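import Mathlib

/-!
Definitions for the eigencompatibility variety.
-/

namespace Pool.Agent.Helper834.EC

open scoped LinearAlgebra.Projectivization

/-- The space `V = ℂ^{n+1}`. -/
abbrev V (n : ℕ) : Type := Fin (n + 1) → ℂ

/-- Tensors in `V^{⊗d}`, given by their coordinates `T_{i_1 ... i_d}`. -/
abbrev Tensor (n d : ℕ) : Type := (Fin d → Fin (n + 1)) → ℂ

/-- The contraction of `T` with `v` in every tensor factor except the `k`-th. -/
noncomputable def contract {n d : ℕ} (T : Tensor n d) (k : Fin d) (v : V n) : V n :=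
  fun j => ∑ i : Fin d → Fin (n + 1),
    if i k = j then T i * ∏ m ∈ Finset.univ.erase k, v (i m) else 0

/-- `p` is a point of the `k`-th eigenscheme of `T`: the `2 × 2` minors of the matrix with rows
`v` and `contract T k v` vanish, for a vector `v` representing `p`. -/
def IsEigenpoint {n d : ℕ} (T : Tensor n d) (k : Fin d) (p : ℙ ℂ (V n)) : Prop :=
  ∀ a b : Fin (n + 1), p.rep a * contract T k p.rep b = p.rep b * contract T k p.rep a

/-- The number `D_{n,d} = ((d-1)^{n+1} - 1) / (d-2)`. -/
def D (n d : ℕ) : ℕ := ((d - 1) ^ (n + 1) - 1) / (d - 2)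

/-- Affine space `ℂ^σ`. -/
def Aff (σ : Type) : Type := σ → ℂ

/-- The set of common zeros of a set of polynomials. -/
def zeros {σ : Type} (S : Set (MvPolynomial σ ℂ)) : Set (Aff σ) :=
  {x | ∀ f ∈ S, MvPolynomial.eval (fun i => x i) f = 0}

/-- The Zariski topology on affine space: the closed sets are the sets of common zeros of sets
of polynomials. -/
instance (σ : Type) : TopologicalSpace (Aff σ) :=
  TopologicalSpace.ofClosed {Z | ∃ S : Set (MvPolynomial σ ℂ), Z = zeros S}
    ⟨{1}, by ext x; simp [zeros]⟩
    (by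
      intro A hA
      refine ⟨{f | ∃ S : Set (MvPolynomial σ ℂ), zeros S ∈ A ∧ f ∈ S}, ?_⟩
      ext x
      simp only [Set.mem_sInter]
      constructor
      · rintro h f ⟨S, hS, hf⟩
        exact h _ hS f hf
      · intro h Z hZ
        obtain ⟨S, rfl⟩ := hA hZ
        intro f hf
        exact h f ⟨S, hZ, hf⟩)
    (by
      rintro _ ⟨S, rfl⟩ _ ⟨T, rfl⟩
      refine ⟨{f | ∃ a ∈ S, ∃ b ∈ T, f = a * b}, ?_⟩
      ext x
      constructor
      · rintro (h | h) _ ⟨a, ha, b, hb, rfl⟩
        · rw [map_mul, h a ha, zero_mul]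
        · rw [map_mul, h b hb, mul_zero]
      · intro h
        by_contra hcon
        rw [Set.mem_union, not_or] at hcon
        obtain ⟨h1, h2⟩ := hcon
        obtain ⟨a, ha⟩ := not_forall.mp h1
        obtain ⟨b, hb⟩ := not_forall.mp h2
        obtain ⟨ha1, ha2⟩ := not_forall.mp ha
        obtain ⟨hb1, hb2⟩ := not_forall.mp hb
        have := h _ ⟨a, ha1, b, hb1, rfl⟩
        rw [map_mul] at this
        exact (mul_ne_zero ha2 hb2) this)

/-- The space `((ℙV)^{(·D)})^d`: `d`-tuples of elements of the symmetric product of `ℙV`. -/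
def Conf (n d : ℕ) : Type := Fin d → Sym (ℙ ℂ (V n)) (D n d)

/-- Homogeneous coordinates for `d` ordered `D`-tuples of points of `ℙV`: the vector
`y ((k, j), ·)` represents the `j`-th point of the `k`-th tuple. -/
abbrev Coord (n d : ℕ) : Type :=
  {y : Aff ((Fin d × Fin (D n d)) × Fin (n + 1)) // ∀ i, (fun a => y (i, a)) ≠ (0 : V n)}

/-- The point of `((ℙV)^{(·D)})^d` with given homogeneous coordinates. -/
noncomputable def toConf {n d : ℕ} (y : Coord n d) : Conf n d := fun k =>
  ⟨Finset.univ.val.map fun j : Fin (D n d) =>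
    Projectivization.mk ℂ (fun a => y.1 ((k, j), a)) (y.2 (k, j)), by simp⟩

/-- The Zariski topology of `((ℙV)^{(·D)})^d`, as the quotient topology: a set is closed iff the
set of all its homogeneous coordinates is Zariski closed. -/
noncomputable instance (n d : ℕ) : TopologicalSpace (Conf n d) :=
  TopologicalSpace.coinduced toConf inferInstance

/-- The tuples `(X_1, ..., X_d)` of configurations of `D` distinct points for which there is
a tensor `T` such that `X_k` is the `k`-th eigenscheme of `T` for all `k`. -/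
def eigenConfs (n d : ℕ) : Set (Conf n d) :=
  {X | ∃ T : Tensor n d, ∀ k, (X k : Multiset (ℙ ℂ (V n))).Nodup ∧
    ∀ p, p ∈ X k ↔ IsEigenpoint T k p}

/-- The eigencompatibility variety: the Zariski closure. -/
def eigencompatibilityVariety (n d : ℕ) : Set (Conf n d) := closure (eigenConfs n d)

end Pool.Agent.Helper834.EC
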