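import Mathlib
import Pool.Agent.Helper834.EC.Defs

namespace Pool.Agent.Helper834.EC

open scoped LinearAlgebra.Projectivization

/-- contraction over any commutative ring -/
def contractR {n d : ℕ} {R : Type*} [CommRing R] (T : (Fin d → Fin (n + 1)) → R) (k : Fin d)
    (v : Fin (n + 1) → R) : Fin (n + 1) → R :=
  fun j => ∑ i : Fin d → Fin (n + 1),
    if i k = j then T i * ∏ m ∈ Finset.univ.erase k, v (i m) else 0

theorem contract_eq {n d : ℕ} (T : Tensor n d) (k : Fin d) (v : V n) :
    contract T k v = contractR T k v := rfl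

theorem map_contractR {n d : ℕ} {R S : Type*} [CommRing R] [CommRing S] (f : R →+* S)
    (T : (Fin d → Fin (n + 1)) → R) (k : Fin d) (v : Fin (n + 1) → R) (j : Fin (n + 1)) :
    f (contractR T k v j) = contractR (fun i => f (T i)) k (fun a => f (v a)) j := by
  unfold contractR
  rw [map_sum]
  refine Finset.sum_congr rfl fun i _ => ?_
  split_ifs
  · rw [map_mul, map_prod]
  · exact map_zero f

theorem contractR_add {n d : ℕ} {R : Type*} [CommRing R] (T T' : (Fin d → Fin (n + 1)) → R)
    (k : Fin d) (v : Fin (n + 1) → R) (j : Fin (n + 1)) :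
    contractR (T + T') k v j = contractR T k v j + contractR T' k v j := by
  unfold contractR
  rw [← Finset.sum_add_distrib]
  refine Finset.sum_congr rfl fun i _ => ?_
  split_ifs
  · rw [Pi.add_apply, add_mul]
  · rw [add_zero]

theorem contractR_smul {n d : ℕ} {R : Type*} [CommRing R] (c : R) (T : (Fin d → Fin (n + 1)) → R)
    (k : Fin d) (v : Fin (n + 1) → R) (j : Fin (n + 1)) :
    contractR (c • T) k v j = c * contractR T k v j := by
  unfold contractR
  rw [Finset.mul_sum]
  refine Finset.sum_congr rfl fun i _ => ?_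
  split_ifs
  · rw [Pi.smul_apply, smul_eq_mul, mul_assoc]
  · rw [mul_zero]

theorem contractR_smul_vec {n d : ℕ} {R : Type*} [CommRing R] (c : R)
    (T : (Fin d → Fin (n + 1)) → R)
    (k : Fin d) (v : Fin (n + 1) → R) (j : Fin (n + 1)) :
    contractR T k (c • v) j = c ^ (d - 1) * contractR T k v j := by
  unfold contractR
  rw [Finset.mul_sum]
  refine Finset.sum_congr rfl fun i _ => ?_
  split_ifs
  · simp only [Pi.smul_apply, smul_eq_mul]
    rw [Finset.prod_mul_distrib, Finset.prod_const, Finset.card_erase_of_mem (Finset.mem_univ k),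
      Finset.card_univ, Fintype.card_fin]
    ring
  · rw [mul_zero]

/-- the minors -/
def minorR {n d : ℕ} {R : Type*} [CommRing R] (T : (Fin d → Fin (n + 1)) → R) (k : Fin d)
    (v : Fin (n + 1) → R) (a b : Fin (n + 1)) : R :=
  v a * contractR T k v b - v b * contractR T k v a

theorem map_minorR {n d : ℕ} {R S : Type*} [CommRing R] [CommRing S] (f : R →+* S)
    (T : (Fin d → Fin (n + 1)) → R) (k : Fin d) (v : Fin (n + 1) → R) (a b : Fin (n + 1)) :
    f (minorR T k v a b) = minorR (fun i => f (T i)) k (fun a => f (v a)) a b := by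
  unfold minorR
  rw [map_sub, map_mul, map_mul, map_contractR, map_contractR]

theorem minorR_add {n d : ℕ} {R : Type*} [CommRing R] (T T' : (Fin d → Fin (n + 1)) → R)
    (k : Fin d) (v : Fin (n + 1) → R) (a b : Fin (n + 1)) :
    minorR (T + T') k v a b = minorR T k v a b + minorR T' k v a b := by
  unfold minorR
  rw [contractR_add, contractR_add]; ring

theorem minorR_smul {n d : ℕ} {R : Type*} [CommRing R] (c : R) (T : (Fin d → Fin (n + 1)) → R)
    (k : Fin d) (v : Fin (n + 1) → R) (a b : Fin (n + 1)) :
    minorR (c • T) k v a b = c * minorR T k v a b := by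
  unfold minorR
  rw [contractR_smul, contractR_smul]; ring

/-- minors as a linear map in the tensor -/
def minorL {n d : ℕ} {R : Type*} [CommRing R] (k : Fin d)
    (v : Fin (n + 1) → R) (a b : Fin (n + 1)) : ((Fin d → Fin (n + 1)) → R) →ₗ[R] R where
  toFun T := minorR T k v a b
  map_add' T T' := minorR_add T T' k v a b
  map_smul' c T := minorR_smul c T k v a b

theorem minorR_smul_vec {n d : ℕ} {R : Type*} [CommRing R] (c : R)
    (T : (Fin d → Fin (n + 1)) → R)
    (k : Fin d) (v : Fin (n + 1) → R) (a b : Fin (n + 1)) :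
    minorR T k (c • v) a b = c ^ (d - 1) * c * minorR T k v a b := by
  unfold minorR
  rw [contractR_smul_vec, contractR_smul_vec]
  simp only [Pi.smul_apply, smul_eq_mul]
  ring

/-- `v` is an eigenvector -/
def IsEig {n d : ℕ} (T : Tensor n d) (k : Fin d) (v : V n) : Prop :=
  ∀ a b, minorR T k v a b = 0

theorem isEig_smul {n d : ℕ} (T : Tensor n d) (k : Fin d) (v : V n) (c : ℂ) (h : IsEig T k v) :
    IsEig T k (c • v) := by
  intro a b
  rw [minorR_smul_vec, h a b, mul_zero]

theorem isEigenpoint_mk_iff {n d : ℕ} (T : Tensor n d) (k : Fin d) (v : V n) (hv : v ≠ 0) :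
    IsEigenpoint T k (Projectivization.mk ℂ v hv) ↔ IsEig T k v := by
  have h1 : IsEigenpoint T k (Projectivization.mk ℂ v hv) ↔
      IsEig T k (Projectivization.mk ℂ v hv).rep := by
    unfold IsEigenpoint IsEig minorR
    simp only [sub_eq_zero]
    rfl
  rw [h1]
  obtain ⟨c, hc⟩ := Projectivization.exists_smul_eq_mk_rep ℂ v hv
  rw [← hc]
  constructor
  · intro h
    have := isEig_smul T k _ ((c⁻¹ : ℂˣ) : ℂ) h
    have h2 : ((c⁻¹ : ℂˣ) : ℂ) • (c • v) = v := by
      rw [← Units.smul_def, smul_smul, inv_mul_cancel, one_smul]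
    rwa [h2] at this
  · intro h
    exact isEig_smul T k v (c : ℂ) h

/-- tensors all of whose minors vanish identically -/
def K0 (n d : ℕ) : Submodule ℂ (Tensor n d) where
  carrier := {T | ∀ k v, IsEig T k v}
  add_mem' := by
    intro T T' h h' k v a b
    rw [minorR_add, h k v a b, h' k v a b, add_zero]
  zero_mem' := by
    intro k v a b
    have := minorR_smul (0 : ℂ) (0 : Tensor n d) k v a b
    rw [zero_smul, zero_mul] at this
    exact this
  smul_mem' := by
    intro c T h k v a b
    rw [minorR_smul, h k v a b, mul_zero]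

theorem isEig_add_K0 {n d : ℕ} {T κ : Tensor n d} (hκ : κ ∈ K0 n d) (k : Fin d) (v : V n) :
    IsEig (T + κ) k v ↔ IsEig T k v := by
  unfold IsEig
  constructor
  · intro h a b
    have := h a b
    rw [minorR_add, hκ k v a b, add_zero] at this
    exact this
  · intro h a b
    rw [minorR_add, hκ k v a b, add_zero]
    exact h a b

theorem isEig_congr {n d : ℕ} {T T' : Tensor n d} (h : T - T' ∈ K0 n d) (k : Fin d) (v : V n) :
    IsEig T k v ↔ IsEig T' k v := by
  have : T = T' + (T - T') := by abel
  rw [this]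
  exact isEig_add_K0 h k v

theorem isEig_smul_tensor {n d : ℕ} {T : Tensor n d} {c : ℂ} (hc : c ≠ 0) (k : Fin d) (v : V n) :
    IsEig (c • T) k v ↔ IsEig T k v := by
  unfold IsEig
  constructor
  · intro h a b
    have := h a b
    rw [minorR_smul] at this
    exact (mul_eq_zero.mp this).resolve_left hc
  · intro h a b
    rw [minorR_smul, h a b, mul_zero]

/-- weights -/
def wt {n : ℕ} (j : Fin (n + 1)) : ℂ := if j = 0 then 2 else 1

theorem wt_ne_zero {n : ℕ} (j : Fin (n + 1)) : (wt j : ℂ) ≠ 0 := by
  unfold wt; split_ifs <;> norm_num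

/-- the base tensor -/
def T0 (n d : ℕ) : Tensor n d := fun i => ∑ j : Fin (n + 1), if i = fun _ => j then wt j else 0

theorem contract_T0 {n d : ℕ} (k : Fin d) (v : V n) (j : Fin (n + 1)) :
    contractR (T0 n d) k v j = wt j * v j ^ (d - 1) := by
  unfold contractR T0
  rw [Finset.sum_eq_single (fun _ => j)]
  · rw [if_pos rfl, Finset.sum_eq_single j]
    · rw [if_pos rfl, Finset.prod_const, Finset.card_erase_of_mem (Finset.mem_univ k),
        Finset.card_univ, Fintype.card_fin]
    · intro b _ hb
      rw [if_neg]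
      intro h
      exact hb (congrFun h k).symm
    · intro h; exact absurd (Finset.mem_univ _) h
  · intro i _ hi
    split_ifs with h
    · rw [Finset.sum_eq_zero, zero_mul]
      intro b _
      rw [if_neg]
      intro h2
      apply hi
      rw [h2] at h ⊢
      funext _
      exact h
    · rfl
  · intro h; exact absurd (Finset.mem_univ _) h

end Pool.Agent.Helper834.EC
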