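import Mathlib
import Pool.Agent.Helper834.EC.Tens1

namespace Pool.Agent.Helper834.EC

open Filter Topology

variable {n d : ℕ}

theorem contDiff_contractR (k : Fin d) (j : Fin (n + 1)) :
    ContDiff ℂ 1 (fun p : Tensor n d × V n => contractR p.1 k p.2 j) := by
  unfold contractR
  refine ContDiff.sum fun i _ => ?_
  split_ifs
  · refine ContDiff.mul ?_ ?_
    · fun_prop
    · refine contDiff_prod fun m _ => ?_
      fun_prop
  · exact contDiff_const

theorem contDiff_minorR (k : Fin d) (a b : Fin (n + 1)) :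
    ContDiff ℂ 1 (fun p : Tensor n d × V n => minorR p.1 k p.2 a b) := by
  unfold minorR
  refine ContDiff.sub (ContDiff.mul ?_ (contDiff_contractR k b)) (ContDiff.mul ?_ (contDiff_contractR k a))
  · fun_prop
  · fun_prop

/-- equations of a normalised eigenvector -/
noncomputable def Phi (k : Fin d) (t : Fin (n + 1)) (p : Tensor n d × V n) : V n :=
  fun i => if i = t then p.2 t - 1 else minorR p.1 k p.2 t i

theorem contDiff_Phi (k : Fin d) (t : Fin (n + 1)) :
    ContDiff ℂ 1 (Phi k t : Tensor n d × V n → V n) := by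
  rw [contDiff_pi]
  intro i
  unfold Phi
  split_ifs
  · fun_prop
  · exact contDiff_minorR k t i

theorem Phi_eq_zero_iff (k : Fin d) (t : Fin (n + 1)) (T : Tensor n d) (v : V n) :
    Phi k t (T, v) = 0 ↔ v t = 1 ∧ IsEig T k v := by
  constructor
  · intro h
    have h1 : v t = 1 := by
      have := congrFun h t
      unfold Phi at this
      rw [if_pos rfl] at this
      exact sub_eq_zero.mp this
    refine ⟨h1, ?_⟩
    have h2 : ∀ i, contractR T k v i = v i * contractR T k v t := by
      intro i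
      by_cases hi : i = t
      · rw [hi, h1, one_mul]
      · have := congrFun h i
        unfold Phi at this
        rw [if_neg hi] at this
        have h3 : v t * contractR T k v i - v i * contractR T k v t = 0 := this
        rw [h1, one_mul] at h3
        exact sub_eq_zero.mp h3
    intro a b
    unfold minorR
    rw [h2 a, h2 b]; ring
  · rintro ⟨h1, h2⟩
    funext i
    unfold Phi
    split_ifs
    · show v t - 1 = 0
      rw [h1, sub_self]
    · exact h2 t i

theorem Phi_T0 (k : Fin d) (t : Fin (n + 1)) (v : V n) (i : Fin (n + 1)) :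
    Phi k t (T0 n d, v) i = if i = t then v t - 1 else
      v t * (wt i * v i ^ (d - 1)) - v i * (wt t * v t ^ (d - 1)) := by
  unfold Phi minorR
  simp only [contract_T0]

theorem deriv_T0 (k : Fin d) (t : Fin (n + 1)) (e h : V n) (i : Fin (n + 1)) :
    HasDerivAt (fun s : ℂ => Phi k t (T0 n d, e + s • h) i)
      (if i = t then h t else
        (h t * (wt i * e i ^ (d - 1)) + e t * (wt i * (((d - 1 : ℕ) : ℂ) * e i ^ (d - 1 - 1) * h i))) -
        (h i * (wt t * e t ^ (d - 1)) + e i * (wt t * (((d - 1 : ℕ) : ℂ) * e t ^ (d - 1 - 1) * h t)))) 0 := by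
  have hlin : ∀ a : Fin (n + 1), HasDerivAt (fun s : ℂ => e a + s * h a) (h a) 0 := by
    intro a
    have := ((hasDerivAt_id (0 : ℂ)).mul_const (h a)).const_add (e a)
    simpa using this
  have hpow : ∀ a : Fin (n + 1), HasDerivAt (fun s : ℂ => (e a + s * h a) ^ (d - 1))
      (((d - 1 : ℕ) : ℂ) * e a ^ (d - 1 - 1) * h a) 0 := by
    intro a
    have h0 := (hlin a).fun_pow (d - 1)
    simp only [zero_mul, add_zero] at h0
    exact h0
  have heq : (fun s : ℂ => Phi k t (T0 n d, e + s • h) i) = fun s : ℂ =>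
      if i = t then (e t + s * h t) - 1 else
      (e t + s * h t) * (wt i * (e i + s * h i) ^ (d - 1)) -
        (e i + s * h i) * (wt t * (e t + s * h t) ^ (d - 1)) := by
    funext s
    rw [Phi_T0]
    simp only [Pi.add_apply, Pi.smul_apply, smul_eq_mul]
  rw [heq]
  split_ifs with hi
  · exact (hlin t).sub_const 1
  · have h1 := (hlin t).mul ((hpow i).const_mul (wt i))
    have h2 := (hlin i).mul ((hpow t).const_mul (wt t))
    have h3 := h1.sub h2
    simp only [zero_mul, add_zero] at h3
    exact h3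

theorem jac_injective (hd : 3 ≤ d) (k : Fin d) (t : Fin (n + 1)) (e : V n) (he : e t = 1)
    (he' : ∀ i, e i = 0 ∨ wt i * e i ^ (d - 2) = wt t) (f' : Tensor n d × V n →L[ℂ] V n)
    (hf' : HasFDerivAt (Phi k t : Tensor n d × V n → V n) f' (T0 n d, e)) (h : V n)
    (hh : f' (0, h) = 0) : h = 0 := by
  have hpath : HasDerivAt (fun s : ℂ => ((T0 n d, e + s • h) : Tensor n d × V n)) (0, h) 0 := by
    refine HasDerivAt.prodMk (hasDerivAt_const _ _) ?_
    have := ((hasDerivAt_id (0 : ℂ)).smul_const h).const_add e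
    simpa using this
  have hf2 : HasFDerivAt (Phi k t : Tensor n d × V n → V n) f'
      ((fun s : ℂ => ((T0 n d, e + s • h) : Tensor n d × V n)) 0) := by
    simpa using hf'
  have hcomp := hf2.comp_hasDerivAt (0 : ℂ) hpath
  rw [hh, hasDerivAt_pi] at hcomp
  have hz : ∀ i, (if i = t then h t else
        (h t * (wt i * e i ^ (d - 1)) + e t * (wt i * (((d - 1 : ℕ) : ℂ) * e i ^ (d - 1 - 1) * h i))) -
        (h i * (wt t * e t ^ (d - 1)) + e i * (wt t * (((d - 1 : ℕ) : ℂ) * e t ^ (d - 1 - 1) * h t)))) = 0 := by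
    intro i
    exact (deriv_T0 k t e h i).unique (hcomp i)
  have ht : h t = 0 := by
    have := hz t
    rwa [if_pos rfl] at this
  funext i
  by_cases hi : i = t
  · rw [hi, ht]; rfl
  · have h1 := hz i
    rw [if_neg hi, ht, he] at h1
    simp only [zero_mul, mul_zero, one_pow, mul_one, one_mul, add_zero, zero_add] at h1
    have hd1 : d - 1 - 1 = d - 2 := by omega
    rw [hd1] at h1
    rcases he' i with h0 | h0
    · rw [h0, zero_pow (by omega)] at h1
      simp only [mul_zero, zero_mul, zero_sub, neg_eq_zero, mul_eq_zero] at h1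
      rcases h1 with h1 | h1
      · exact h1
      · exact absurd h1 (wt_ne_zero t)
    · have h2 : (((d - 1 : ℕ) : ℂ) - 1) * (wt t * h i) = 0 := by
        rw [← h1, ← h0]; ring
      have h3 : (((d - 1 : ℕ) : ℂ) - 1) ≠ 0 := by
        intro h4
        have h5 : ((d - 1 : ℕ) : ℂ) = ((1 : ℕ) : ℂ) := by
          rw [sub_eq_zero] at h4
          rw [h4]; norm_num
        have := Nat.cast_injective h5
        omega
      have h4 := (mul_eq_zero.mp h2).resolve_left h3
      exact (mul_eq_zero.mp h4).resolve_left (wt_ne_zero t)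

theorem ift (hd : 3 ≤ d) (k : Fin d) (t : Fin (n + 1)) (e : V n) (he : e t = 1)
    (he' : ∀ i, e i = 0 ∨ wt i * e i ^ (d - 2) = wt t) (hPhi : Phi k t (T0 n d, e) = 0) :
    ∃ φ : Tensor n d → V n, Tendsto φ (𝓝 (T0 n d)) (𝓝 e) ∧
      ∀ᶠ p in 𝓝 ((T0 n d, e) : Tensor n d × V n), (Phi k t p = 0 ↔ φ p.1 = p.2) := by
  have cdf : ContDiffAt ℂ 1 (Phi k t : Tensor n d × V n → V n) (T0 n d, e) :=
    (contDiff_Phi k t).contDiffAt
  set f' := fderiv ℂ (Phi k t : Tensor n d × V n → V n) (T0 n d, e) with hf'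
  have hs : HasStrictFDerivAt (Phi k t : Tensor n d × V n → V n) f' (T0 n d, e) :=
    cdf.hasStrictFDerivAt one_ne_zero
  have hinj : Function.Injective (f' ∘L .inr ℂ (Tensor n d) (V n)) := by
    rw [injective_iff_map_eq_zero]
    intro h hh
    refine jac_injective hd k t e he he' f' hs.hasFDerivAt h ?_
    simpa using hh
  have hinv : (f' ∘L .inr ℂ (Tensor n d) (V n)).IsInvertible := by
    let L : V n ≃ₗ[ℂ] V n := LinearEquiv.ofInjectiveEndo
      ((f' ∘L .inr ℂ (Tensor n d) (V n)) : V n →ₗ[ℂ] V n) hinj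
    refine ⟨L.toContinuousLinearEquiv, ?_⟩
    ext h
    rfl
  refine ⟨hs.implicitFunctionOfProdDomain hinv, hs.tendsto_implicitFunctionOfProdDomain hinv, ?_⟩
  have := hs.eventually_apply_eq_iff_implicitFunctionOfProdDomain hinv
  rw [hPhi] at this
  exact this

end Pool.Agent.Helper834.EC
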