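import Mathlib
import Pool.Agent.Helper834.EC.Base1

namespace Pool.Agent.Helper834.EC

open Filter Topology

variable {n d : ℕ}

/-- entries of a normalised eigenvector of the base tensor -/
noncomputable def rts (m : ℕ) (t i : Fin (n + 1)) : Finset ℂ :=
  insert 0 (Polynomial.nthRoots m (wt t / wt i)).toFinset

theorem mem_rts {m : ℕ} (hm : 0 < m) (t i : Fin (n + 1)) (z : ℂ) :
    z ∈ rts m t i ↔ z = 0 ∨ wt i * z ^ m = wt t := by
  unfold rts
  rw [Finset.mem_insert, Multiset.mem_toFinset, Polynomial.mem_nthRoots hm,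
    eq_div_iff (wt_ne_zero i), mul_comm]

theorem card_rts {m : ℕ} (hm : 0 < m) (t i : Fin (n + 1)) : (rts m t i).card = m + 1 := by
  unfold rts
  have hne : (wt t / wt i : ℂ) ≠ 0 := div_ne_zero (wt_ne_zero t) (wt_ne_zero i)
  rw [Finset.card_insert_of_notMem]
  · congr 1
    have hprim := Complex.isPrimitiveRoot_exp m hm.ne'
    have h1 := hprim.card_nthRoots (wt t / wt i : ℂ)
    obtain ⟨z, hz⟩ := IsAlgClosed.exists_pow_nat_eq (wt t / wt i : ℂ) hm
    rw [if_pos ⟨z, hz⟩] at h1
    rw [Multiset.toFinset_card_of_nodup]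
    · exact h1
    · exact hprim.nthRoots_nodup hne
  · rw [Multiset.mem_toFinset, Polynomial.mem_nthRoots hm, zero_pow hm.ne']
    exact fun h => hne h.symm

/-- index set of the eigenpoints of the base tensor -/
abbrev Lam (n m : ℕ) : Type :=
  Σ t : Fin (n + 1), ((i : {i : Fin (n + 1) // t < i}) → (rts m t i.1))

noncomputable instance (n m : ℕ) : Fintype (Lam n m) := inferInstance

theorem card_Lam (hd : 3 ≤ d) : Fintype.card (Lam n (d - 2)) = D n d := by
  unfold Lam
  rw [Fintype.card_sigma]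
  have h1 : ∀ t : Fin (n + 1), Fintype.card
      ((i : {i : Fin (n + 1) // t < i}) → (rts (d - 2) t i.1)) = (d - 1) ^ (n - t.val) := by
    intro t
    rw [Fintype.card_pi]
    have h2 : ∀ i : {i : Fin (n + 1) // t < i}, Fintype.card (rts (d - 2) t i.1) = d - 1 := by
      intro i
      rw [Fintype.card_coe, card_rts (by omega)]
      omega
    rw [Finset.prod_congr rfl fun i _ => h2 i, Finset.prod_const, Finset.card_univ,
      Fintype.card_subtype]
    congr 1
    have h3 : (Finset.univ.filter fun i : Fin (n + 1) => t < i) = Finset.Ioi t := by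
      ext i; simp
    rw [h3, Fin.card_Ioi]
    omega
  rw [Finset.sum_congr rfl fun t _ => h1 t]
  rw [Fin.sum_univ_eq_sum_range (fun t => (d - 1) ^ (n - t)) (n + 1)]
  have h4 := Finset.sum_range_reflect (fun j => (d - 1) ^ j) (n + 1)
  have h5 : ∑ j ∈ Finset.range (n + 1), (d - 1) ^ (n + 1 - 1 - j) =
      ∑ j ∈ Finset.range (n + 1), (d - 1) ^ (n - j) := rfl
  rw [← h5, h4, Nat.geomSum_eq (by omega)]
  unfold D
  congr 1

/-- the vector attached to an index -/
noncomputable def vecL {m : ℕ} (l : Lam n m) : V n :=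
  fun i => if h : l.1 < i then (l.2 ⟨i, h⟩ : ℂ) else if i = l.1 then 1 else 0

theorem vecL_self {m : ℕ} (l : Lam n m) : vecL l l.1 = 1 := by
  unfold vecL
  rw [dif_neg (lt_irrefl _), if_pos rfl]

theorem vecL_lt {m : ℕ} (l : Lam n m) (i : Fin (n + 1)) (h : i < l.1) : vecL l i = 0 := by
  unfold vecL
  rw [dif_neg (not_lt.mpr h.le), if_neg h.ne]

theorem vecL_mem {m : ℕ} (hm : 0 < m) (l : Lam n m) (i : Fin (n + 1)) :
    vecL l i = 0 ∨ wt i * vecL l i ^ m = wt l.1 := by
  by_cases h : l.1 < i
  · have h1 : vecL l i = (l.2 ⟨i, h⟩ : ℂ) := by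
      unfold vecL
      rw [dif_pos h]
    rw [h1]
    exact (mem_rts hm _ _ _).mp (l.2 ⟨i, h⟩).2
  · by_cases h2 : i = l.1
    · right
      rw [h2, vecL_self, one_pow, mul_one]
    · left
      exact vecL_lt l i (lt_of_le_of_ne (not_lt.mp h) h2)

theorem vecL_surj {m : ℕ} (hm : 0 < m) (v : V n) (t : Fin (n + 1)) (h1 : v t = 1)
    (h2 : ∀ i, i < t → v i = 0) (h3 : ∀ i, v i = 0 ∨ wt i * v i ^ m = wt t) :
    ∃ l : Lam n m, vecL l = v ∧ l.1 = t := by
  refine ⟨⟨t, fun i => ⟨v i.1, (mem_rts hm _ _ _).mpr (h3 i.1)⟩⟩, ?_, rfl⟩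
  funext i
  unfold vecL
  simp only
  split_ifs with h4 h5
  · rfl
  · rw [h5, h1]
  · exact (h2 i (lt_of_le_of_ne (not_lt.mp h4) h5)).symm

theorem exists_base (n : ℕ) (hd : 3 ≤ d) :
    ∃ (c0 : Fin (D n d) → Fin (n + 1)) (e0 : Fin (D n d) → V n),
      (∀ j, e0 j (c0 j) = 1) ∧ (∀ j i, e0 j i = 0 ∨ wt i * e0 j i ^ (d - 2) = wt (c0 j)) ∧
      (∀ v : V n, v ≠ 0 → (∀ a b, v a * (wt b * v b ^ (d - 1)) = v b * (wt a * v a ^ (d - 1))) →
        ∃ j, ∃ s : ℂ, v = s • e0 j) ∧
      (∀ j j', (∃ s : ℂ, e0 j = s • e0 j') → j = j') := by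
  classical
  have hm : 0 < d - 2 := by omega
  obtain ⟨E⟩ : Nonempty (Fin (D n d) ≃ Lam n (d - 2)) :=
    ⟨(Fintype.equivFinOfCardEq (card_Lam hd)).symm⟩
  refine ⟨fun j => (E j).1, fun j => vecL (E j), fun j => vecL_self _, fun j i => vecL_mem hm _ i,
    ?_, ?_⟩
  · intro v hv h
    -- first nonzero coordinate
    have hex : ∃ t, v t ≠ 0 := by
      by_contra hcon
      push Not at hcon
      exact hv (funext hcon)
    let A : Finset (Fin (n + 1)) := Finset.univ.filter fun t => v t ≠ 0
    have hA : A.Nonempty := by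
      obtain ⟨t, ht⟩ := hex
      exact ⟨t, by simp [A, ht]⟩
    set t := A.min' hA with ht
    have htA : v t ≠ 0 := by
      have := A.min'_mem hA
      simpa [A] using this
    have hlt : ∀ i, i < t → v i = 0 := by
      intro i hi
      by_contra h0
      have : t ≤ i := A.min'_le i (by simp [A, h0])
      exact absurd hi (not_lt.mpr this)
    obtain ⟨l, hl1, hl2⟩ := vecL_surj hm ((v t)⁻¹ • v) t
      (by rw [Pi.smul_apply, smul_eq_mul, inv_mul_cancel₀ htA])
      (by intro i hi; rw [Pi.smul_apply, hlt i hi, smul_zero])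
      (by
        intro i
        by_cases h0 : v i = 0
        · left; rw [Pi.smul_apply, h0, smul_zero]
        · right
          have h1 := h t i
          rw [Pi.smul_apply, smul_eq_mul, mul_pow]
          have h2 : v i ^ (d - 1) = v i ^ (d - 2) * v i := by
            rw [← pow_succ]; congr 1; omega
          have h3 : v t ^ (d - 1) = v t ^ (d - 2) * v t := by
            rw [← pow_succ]; congr 1; omega
          rw [h2, h3] at h1
          have h4 : wt i * v i ^ (d - 2) = wt t * v t ^ (d - 2) := by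
            have : (v t * v i) * (wt i * v i ^ (d - 2)) = (v t * v i) * (wt t * v t ^ (d - 2)) := by
              linear_combination h1
            exact mul_left_cancel₀ (mul_ne_zero htA h0) this
          have h5 : ((v t)⁻¹) ^ (d - 2) * v t ^ (d - 2) = 1 := by
            rw [← mul_pow, inv_mul_cancel₀ htA, one_pow]
          calc wt i * ((v t)⁻¹ ^ (d - 2) * v i ^ (d - 2)) = (v t)⁻¹ ^ (d - 2) * (wt i * v i ^ (d - 2)) := by ring
            _ = (v t)⁻¹ ^ (d - 2) * (wt t * v t ^ (d - 2)) := by rw [h4]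
            _ = wt t * ((v t)⁻¹ ^ (d - 2) * v t ^ (d - 2)) := by ring
            _ = wt t := by rw [h5, mul_one])
    refine ⟨E.symm l, v t, ?_⟩
    show v = v t • vecL (E (E.symm l))
    rw [Equiv.apply_symm_apply, hl1, smul_smul, mul_inv_cancel₀ htA, one_smul]
  · rintro j j' ⟨s, hs⟩
    have hs0 : s ≠ 0 := by
      rintro rfl
      have := congrFun hs (E j).1
      simp only [vecL_self, zero_smul, Pi.zero_apply] at this
      exact one_ne_zero this
    have hs' : ∀ i, vecL (E j) i = s * vecL (E j') i := fun i => congrFun hs i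
    have htt : (E j).1 = (E j').1 := by
      rcases lt_trichotomy (E j).1 (E j').1 with h | h | h
      · have h1 := hs' (E j).1
        rw [vecL_self, vecL_lt (E j') _ h, mul_zero] at h1
        exact absurd h1 one_ne_zero
      · exact h
      · have h1 := hs' (E j').1
        rw [vecL_self, vecL_lt (E j) _ h, mul_one] at h1
        exact absurd h1.symm hs0
    have hs1 : s = 1 := by
      have h1 := hs' (E j).1
      rw [vecL_self, htt, vecL_self, mul_one] at h1
      exact h1.symm
    have hvec : vecL (E j) = vecL (E j') := by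
      funext i
      rw [hs' i, hs1, one_mul]
    apply E.injective
    revert htt hvec
    generalize E j = l
    generalize E j' = l'
    obtain ⟨t, f⟩ := l
    obtain ⟨t', f'⟩ := l'
    intro htt hvec
    simp only at htt
    subst htt
    congr 1
    funext i
    have := congrFun hvec i.1
    unfold vecL at this
    simp only [i.2, dif_pos] at this
    exact Subtype.ext this

end Pool.Agent.Helper834.EC
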