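import Mathlib
import Pool.Agent.Helper834.EC.Base2

namespace Pool.Agent.Helper834.EC

open Filter Topology

variable {n d : ℕ}

theorem deform (hd : 3 ≤ d) (c0 : Fin (D n d) → Fin (n + 1)) (e0 : Fin (D n d) → V n)
    (h1 : ∀ j, e0 j (c0 j) = 1) (h2 : ∀ j i, e0 j i = 0 ∨ wt i * e0 j i ^ (d - 2) = wt (c0 j))
    (h3 : ∀ v : V n, v ≠ 0 → (∀ a b, v a * (wt b * v b ^ (d - 1)) = v b * (wt a * v a ^ (d - 1))) →
        ∃ j, ∃ s : ℂ, v = s • e0 j)
    (h4 : ∀ j j', (∃ s : ℂ, e0 j = s • e0 j') → j = j') (k : Fin d) (ε : ℝ) (hε : 0 < ε) :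
    ∀ᶠ T in 𝓝 (T0 n d), ∃ y : Fin (D n d) → V n, (∀ j, y j (c0 j) = 1) ∧ (∀ j, IsEig T k (y j)) ∧
      (∀ v : V n, v ≠ 0 → IsEig T k v → ∃ j, ∃ s : ℂ, v = s • y j) ∧
      (∀ j j', (∃ s : ℂ, y j = s • y j') → j = j') ∧ (∀ j, dist (y j) (e0 j) < ε) := by
  have heig0 : ∀ v : V n, IsEig (T0 n d) k v ↔
      ∀ a b, v a * (wt b * v b ^ (d - 1)) = v b * (wt a * v a ^ (d - 1)) := by
    intro v
    unfold IsEig minorR
    simp only [contract_T0, sub_eq_zero]
  have hE0 : ∀ j, IsEig (T0 n d) k (e0 j) := by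
    intro j
    rw [heig0]
    have h5 : ∀ i, wt i * e0 j i ^ (d - 1) = wt (c0 j) * e0 j i := by
      intro i
      have h6 : e0 j i ^ (d - 1) = e0 j i ^ (d - 2) * e0 j i := by
        rw [← pow_succ]; congr 1; omega
      rw [h6]
      rcases h2 j i with h | h
      · rw [h]; ring
      · rw [← h]; ring
    intro a b
    rw [h5 a, h5 b]; ring
  have hift : ∀ j, ∃ φ : Tensor n d → V n, Tendsto φ (𝓝 (T0 n d)) (𝓝 (e0 j)) ∧
      ∀ᶠ p in 𝓝 ((T0 n d, e0 j) : Tensor n d × V n), (Phi k (c0 j) p = 0 ↔ φ p.1 = p.2) := by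
    intro j
    exact ift hd k (c0 j) (e0 j) (h1 j) (h2 j) ((Phi_eq_zero_iff _ _ _ _).mpr ⟨h1 j, hE0 j⟩)
  choose φ hφ1 hφ2 using hift
  -- each `φ j` solves the equations
  have hs : ∀ᶠ T in 𝓝 (T0 n d), ∀ j, Phi k (c0 j) (T, φ j T) = 0 := by
    rw [eventually_all]
    intro j
    have h5 : Tendsto (fun T => ((T, φ j T) : Tensor n d × V n)) (𝓝 (T0 n d)) (𝓝 (T0 n d, e0 j)) := by
      rw [nhds_prod_eq]
      exact Tendsto.prodMk tendsto_id (hφ1 j)
    filter_upwards [h5.eventually (hφ2 j)] with T hT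
    exact hT.mpr rfl
  have hdist : ∀ᶠ T in 𝓝 (T0 n d), ∀ j, dist (φ j T) (e0 j) < ε := by
    rw [eventually_all]
    intro j
    exact (hφ1 j).eventually (Metric.ball_mem_nhds _ hε)
  -- distinctness
  have hdis : ∀ᶠ T in 𝓝 (T0 n d), ∀ j j', (∃ s : ℂ, φ j T = s • φ j' T) → j = j' := by
    rw [eventually_all]
    intro j
    rw [eventually_all]
    intro j'
    by_cases hjj : j = j'
    · exact Eventually.of_forall fun T _ => hjj
    · have hex : ∃ a, e0 j a * e0 j' (c0 j') - e0 j (c0 j') * e0 j' a ≠ 0 := by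
        by_contra hcon
        push Not at hcon
        apply hjj
        apply h4
        refine ⟨e0 j (c0 j'), ?_⟩
        funext a
        have := hcon a
        rw [h1 j', mul_one, sub_eq_zero] at this
        exact this
      obtain ⟨a, ha⟩ := hex
      have h5 : Tendsto (fun T => φ j T a * φ j' T (c0 j') - φ j T (c0 j') * φ j' T a) (𝓝 (T0 n d))
          (𝓝 (e0 j a * e0 j' (c0 j') - e0 j (c0 j') * e0 j' a)) := by
        have hj := tendsto_pi_nhds.mp (hφ1 j)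
        have hj' := tendsto_pi_nhds.mp (hφ1 j')
        exact ((hj a).mul (hj' (c0 j'))).sub ((hj (c0 j')).mul (hj' a))
      filter_upwards [h5.eventually_ne ha] with T hT
      rintro ⟨s, hs⟩
      exfalso
      apply hT
      rw [hs]
      simp only [Pi.smul_apply, smul_eq_mul]
      ring
  -- completeness
  have hcomp : ∀ᶠ T in 𝓝 (T0 n d), ∀ v ∈ Metric.sphere (0 : V n) 1, IsEig T k v →
      ∃ j, ∃ s : ℂ, v = s • φ j T := by
    refine (isCompact_sphere (0 : V n) 1).eventually_forall_of_forall_eventually ?_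
    intro v0 hv0
    have hv0ne : v0 ≠ 0 := by
      rintro rfl
      simp at hv0
    by_cases hv : IsEig (T0 n d) k v0
    · obtain ⟨j, s, hjs⟩ := h3 v0 hv0ne ((heig0 v0).mp hv)
      have hs0 : s ≠ 0 := by
        rintro rfl
        exact hv0ne (by rw [hjs, zero_smul])
      have hvt : v0 (c0 j) = s := by
        rw [hjs, Pi.smul_apply, h1 j, smul_eq_mul, mul_one]
      have hvt0 : v0 (c0 j) ≠ 0 := by rw [hvt]; exact hs0
      have h6 : Tendsto (fun z : Tensor n d × V n => z.2 (c0 j)) (𝓝 (T0 n d, v0)) (𝓝 (v0 (c0 j))) := by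
        have : Continuous (fun z : Tensor n d × V n => z.2 (c0 j)) := by fun_prop
        exact this.continuousAt
      have h7 : Tendsto (fun z : Tensor n d × V n => ((z.1, (z.2 (c0 j))⁻¹ • z.2) : Tensor n d × V n))
          (𝓝 (T0 n d, v0)) (𝓝 (T0 n d, e0 j)) := by
        have h8 : e0 j = (v0 (c0 j))⁻¹ • v0 := by
          rw [hvt, hjs, smul_smul, inv_mul_cancel₀ hs0, one_smul]
        rw [h8]
        have h9 : Tendsto (fun z : Tensor n d × V n => (z.2 (c0 j))⁻¹ • z.2) (𝓝 (T0 n d, v0))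
            (𝓝 ((v0 (c0 j))⁻¹ • v0)) := (h6.inv₀ hvt0).smul continuousAt_snd
        exact continuousAt_fst.prodMk_nhds h9
      filter_upwards [h7.eventually (hφ2 j), h6.eventually_ne hvt0] with z hz1 hz2 hz3
      refine ⟨j, z.2 (c0 j), ?_⟩
      have h10 : Phi k (c0 j) (z.1, (z.2 (c0 j))⁻¹ • z.2) = 0 := by
        rw [Phi_eq_zero_iff]
        refine ⟨?_, isEig_smul _ _ _ _ hz3⟩
        rw [Pi.smul_apply, smul_eq_mul, inv_mul_cancel₀ hz2]
      have h11 : φ j z.1 = (z.2 (c0 j))⁻¹ • z.2 := hz1.mp h10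
      rw [h11, smul_smul, mul_inv_cancel₀ hz2, one_smul]
    · unfold IsEig at hv
      push Not at hv
      obtain ⟨a, b, hab⟩ := hv
      have h5 : Tendsto (fun z : Tensor n d × V n => minorR z.1 k z.2 a b) (𝓝 (T0 n d, v0))
          (𝓝 (minorR (T0 n d) k v0 a b)) :=
        (contDiff_minorR k a b).continuous.continuousAt
      filter_upwards [h5.eventually_ne hab] with z hz1 hz2
      exact absurd (hz2 a b) hz1
  filter_upwards [hs, hdist, hdis, hcomp] with T hT1 hT2 hT3 hT4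
  refine ⟨fun j => φ j T, ?_, ?_, ?_, hT3, hT2⟩
  · intro j
    exact ((Phi_eq_zero_iff _ _ _ _).mp (hT1 j)).1
  · intro j
    exact ((Phi_eq_zero_iff _ _ _ _).mp (hT1 j)).2
  · intro v hv hE
    have hnv : ‖v‖ ≠ 0 := norm_ne_zero_iff.mpr hv
    obtain ⟨j, s, hjs⟩ := hT4 (((‖v‖ : ℂ))⁻¹ • v) (by
      rw [mem_sphere_zero_iff_norm, norm_smul, norm_inv, Complex.norm_real, norm_norm,
        inv_mul_cancel₀ hnv]) (isEig_smul _ _ _ _ hE)
    refine ⟨j, (‖v‖ : ℂ) * s, ?_⟩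
    have hc : (‖v‖ : ℂ) ≠ 0 := by exact_mod_cast hnv
    rw [mul_smul, ← hjs, smul_smul, mul_inv_cancel₀ hc, one_smul]

end Pool.Agent.Helper834.EC
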