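import Mathlib
import Pool.Agent.Helper834.EC.Defs

namespace Pool.Agent.Helper834.EC

/-- The tuples `(X_1, ..., X_d)` of elements of the symmetric product for which there is a tensor
`T` such that, for all `k`, the support of `X_k` is the set of points of the `k`-th eigenscheme
of `T`; the multiplicities of the points of `X_k` are arbitrary. -/
def supportConfs (n d : ℕ) : Set (Conf n d) :=
  {X | ∃ T : Tensor n d, ∀ k p, p ∈ X k ↔ IsEigenpoint T k p}

end Pool.Agent.Helper834.EC
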