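import Mathlib

namespace Pool.Agent.Helper834.EC

open Order

/-- lifting chains upwards -/
theorem krullDim_le_of_lift_up {α β : Type*} [Preorder α] [Preorder β] (π : α → β)
    (hs : Function.Surjective π)
    (h : ∀ (a : α) (b : β), π a < b → ∃ a', a < a' ∧ π a' = b) :
    krullDim β ≤ krullDim α := by
  have key : ∀ p : LTSeries β, ∃ q : LTSeries α, q.length = p.length ∧ π q.last = p.last := by
    intro p
    induction p using RelSeries.inductionOn' with
    | singleton x =>
      obtain ⟨a, ha⟩ := hs x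
      exact ⟨RelSeries.singleton _ a, rfl, by simpa using ha⟩
    | snoc p x hx hp =>
      obtain ⟨q, hq1, hq2⟩ := hp
      obtain ⟨a', ha1, ha2⟩ := h q.last x (by rw [hq2]; exact hx)
      refine ⟨q.snoc a' ha1, by simp [hq1], by simp [ha2]⟩
  refine iSup_le fun p => ?_
  obtain ⟨q, hq1, -⟩ := key p
  rw [← hq1]
  exact LTSeries.length_le_krullDim q

/-- lifting chains downwards -/
theorem krullDim_le_of_lift_down {α β : Type*} [Preorder α] [Preorder β] (π : α → β)
    (hs : Function.Surjective π)
    (h : ∀ (a : α) (b : β), b < π a → ∃ a', a' < a ∧ π a' = b) :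
    krullDim β ≤ krullDim α := by
  rw [← krullDim_orderDual (α := α), ← krullDim_orderDual (α := β)]
  exact krullDim_le_of_lift_up (α := αᵒᵈ) (β := βᵒᵈ) π hs h

theorem ringKrullDim_le_of_integral {R S : Type*} [CommRing R] [CommRing S] [Algebra R S]
    [Algebra.IsIntegral R S] : ringKrullDim S ≤ ringKrullDim R := by
  refine krullDim_le_of_strictMono (PrimeSpectrum.comap (algebraMap R S)) ?_
  intro P Q hPQ
  have hle : P.asIdeal ≤ Q.asIdeal := hPQ.le
  have hne : ¬ Q.asIdeal ≤ P.asIdeal := fun h => hPQ.not_ge h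
  obtain ⟨x, hx1, hx2⟩ := Set.not_subset.mp hne
  have := Ideal.comap_lt_comap_of_integral_mem_sdiff (R := R) hle ⟨hx1, hx2⟩
    (Algebra.IsIntegral.isIntegral x)
  exact this

theorem ringKrullDim_ge_of_integral {R S : Type*} [CommRing R] [CommRing S] [Algebra R S]
    [Algebra.IsIntegral R S] (hinj : Function.Injective (algebraMap R S)) :
    ringKrullDim R ≤ ringKrullDim S := by
  refine krullDim_le_of_lift_up (PrimeSpectrum.comap (algebraMap R S)) ?_ ?_
  · intro P
    obtain ⟨Q, -, hQ, hQ2⟩ := Ideal.exists_ideal_over_prime_of_isIntegral (S := S) P.asIdeal ⊥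
      (by
        rw [← RingHom.ker_eq_comap_bot, (RingHom.injective_iff_ker_eq_bot _).mp hinj]
        exact bot_le)
    exact ⟨⟨Q, hQ⟩, PrimeSpectrum.ext hQ2⟩
  · intro P Q hPQ
    obtain ⟨Q', hQ'1, hQ'2, hQ'3⟩ := Ideal.exists_ideal_over_prime_of_isIntegral (S := S)
      Q.asIdeal P.asIdeal hPQ.le
    refine ⟨⟨Q', hQ'2⟩, lt_of_le_of_ne hQ'1 ?_, PrimeSpectrum.ext hQ'3⟩
    intro h
    rw [h] at hPQ
    exact hPQ.ne (PrimeSpectrum.ext hQ'3)

/-- f.g. domains: there is `s` with `ringKrullDim = s` and `trdeg = s`. -/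
theorem exists_ringKrullDim_eq_trdeg (k A : Type) [Field k] [CommRing A] [IsDomain A]
    [Algebra k A] [Algebra.FiniteType k A] :
    ∃ s : ℕ, ringKrullDim A = s ∧ Algebra.trdeg k A = s := by
  obtain ⟨s, g, hg1, hg2⟩ := exists_integral_inj_algHom_of_fg k A
  refine ⟨s, ?_, ?_⟩
  · letI : Algebra (MvPolynomial (Fin s) k) A := g.toRingHom.toAlgebra
    haveI : Algebra.IsIntegral (MvPolynomial (Fin s) k) A := ⟨hg2⟩
    have h1 : ringKrullDim A ≤ ringKrullDim (MvPolynomial (Fin s) k) := ringKrullDim_le_of_integral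
    have h2 : ringKrullDim (MvPolynomial (Fin s) k) ≤ ringKrullDim A :=
      ringKrullDim_ge_of_integral hg1
    rw [le_antisymm h1 h2, MvPolynomial.ringKrullDim_of_isNoetherianRing,
      ringKrullDim_eq_zero_of_field]
    simp
  · have hai : AlgebraicIndependent k (fun i => g (MvPolynomial.X i)) := by
      have : MvPolynomial.aeval (fun i => g (MvPolynomial.X i)) = g := by
        ext i; simp
      rw [AlgebraicIndependent, this]
      exact hg1
    have hb : IsTranscendenceBasis k (fun i => g (MvPolynomial.X i)) := by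
      rw [hai.isTranscendenceBasis_iff_isAlgebraic]
      refine ⟨fun x => ?_⟩
      obtain ⟨p, hp1, hp2⟩ := hg2 x
      have hr : ∀ q : MvPolynomial (Fin s) k, g q ∈ Algebra.adjoin k (Set.range fun i => g (MvPolynomial.X i)) := by
        intro q
        have h1 : g q = MvPolynomial.aeval (fun i => g (MvPolynomial.X i)) q := by
          have : MvPolynomial.aeval (fun i => g (MvPolynomial.X i)) = g := by
            ext i; simp
          rw [this]
        rw [h1, ← MvPolynomial.aeval_range]
        exact ⟨q, rfl⟩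
      let g' : MvPolynomial (Fin s) k →ₐ[k] Algebra.adjoin k (Set.range fun i => g (MvPolynomial.X i)) :=
        g.codRestrict _ hr
      refine ⟨p.map g'.toRingHom, (hp1.map _).ne_zero, ?_⟩
      rw [Polynomial.aeval_def, Polynomial.eval₂_map]
      exact hp2
    have := hb.lift_cardinalMk_eq_trdeg
    simpa using this.symm

end Pool.Agent.Helper834.EC
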