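import Mathlib
import Pool.Agent.Helper834.EC.Dim1

namespace Pool.Agent.Helper834.EC

open Order MvPolynomial

/-- clearing denominators -/
theorem clear_denom {R τ : Type} [CommRing R] [Algebra ℂ R] (p0 : R) (p : τ → R)
    (G : MvPolynomial τ ℂ) :
    ∃ (e : ℕ) (H : R), ∀ (K : Type) [Field K] [Algebra ℂ K] (φ : R →ₐ[ℂ] K), φ p0 ≠ 0 →
      φ H = (φ p0) ^ e * aeval (fun t => φ (p t) / φ p0) G := by
  induction G using MvPolynomial.induction_on with
  | C a =>
    refine ⟨0, algebraMap ℂ R a, ?_⟩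
    intro K _ _ φ hφ
    rw [AlgHom.commutes]
    simp
  | add G1 G2 h1 h2 =>
    obtain ⟨e1, H1, h1⟩ := h1
    obtain ⟨e2, H2, h2⟩ := h2
    refine ⟨e1 + e2, p0 ^ e2 * H1 + p0 ^ e1 * H2, ?_⟩
    intro K _ _ φ hφ
    simp only [map_add, map_mul, map_pow, h1 K φ hφ, h2 K φ hφ]
    ring
  | mul_X G t h =>
    obtain ⟨e, H, h⟩ := h
    refine ⟨e + 1, H * p t, ?_⟩
    intro K _ _ φ hφ
    simp only [map_mul, h K φ hφ, aeval_X]
    field_simp
    ring

/-- a point of `Z` on the component of a minimal prime, where `g` does not vanish -/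
theorem minprime_pt {ρ : Type} [Finite ρ] (Z : Set (ρ → ℂ)) (q : Ideal (MvPolynomial ρ ℂ))
    (hq : q ∈ (vanishingIdeal ℂ Z).minimalPrimes) (g : MvPolynomial ρ ℂ) (hg : g ∉ q) :
    ∃ z ∈ Z, (∀ f ∈ q, aeval z f = 0) ∧ aeval z g ≠ 0 := by
  classical
  have hqp : q.IsPrime := hq.1.1
  have hfin : (vanishingIdeal ℂ Z).minimalPrimes.Finite :=
    Ideal.finite_minimalPrimes_of_isNoetherianRing _ _
  have hex : ∀ q' ∈ (vanishingIdeal ℂ Z).minimalPrimes, q' ≠ q → ∃ h ∈ q', h ∉ q := by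
    intro q' hq' hne
    by_contra hcon
    push Not at hcon
    have hle : q' ≤ q := fun x hx => hcon x hx
    exact hne (le_antisymm hle (hq.2 hq'.1 hle))
  choose! h hh1 hh2 using hex
  set Sx : Finset (Ideal (MvPolynomial ρ ℂ)) := hfin.toFinset.erase q with hSx
  set hp : MvPolynomial ρ ℂ := ∏ q' ∈ Sx, h q' with hhp
  have hpq : hp ∉ q := by
    rw [hhp]
    intro hmem
    rw [hqp.prod_mem_iff] at hmem
    obtain ⟨q', hq', hm⟩ := hmem
    rw [hSx, Finset.mem_erase, Set.Finite.mem_toFinset] at hq'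
    exact hh2 q' hq'.2 hq'.1 hm
  have hgh : g * hp ∉ q := fun hmem => (hqp.mem_or_mem hmem).elim hg hpq
  have hghI : g * hp ∉ vanishingIdeal ℂ Z := fun hmem => hgh (hq.1.2 hmem)
  rw [mem_vanishingIdeal_iff] at hghI
  push Not at hghI
  obtain ⟨z, hz, hz2⟩ := hghI
  rw [map_mul] at hz2
  refine ⟨z, hz, ?_, left_ne_zero_of_mul hz2⟩
  intro f hf
  have hrad : (vanishingIdeal ℂ Z).radical = vanishingIdeal ℂ Z := by
    apply le_antisymm _ Ideal.le_radical
    intro x hx
    obtain ⟨n, hn⟩ := hx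
    intro y hy
    have := hn y hy
    rw [map_pow] at this
    exact eq_zero_of_pow_eq_zero this
  have hfh : f * hp ∈ vanishingIdeal ℂ Z := by
    rw [← hrad, ← Ideal.sInf_minimalPrimes, Ideal.mem_sInf]
    intro q' hq'
    by_cases hne : q' = q
    · rw [hne]; exact Ideal.mul_mem_right _ _ hf
    · refine Ideal.mul_mem_left _ _ ?_
      rw [hhp]
      refine Ideal.mem_of_dvd _ (Finset.dvd_prod_of_mem h ?_) (hh1 q' hq' hne)
      rw [hSx, Finset.mem_erase, Set.Finite.mem_toFinset]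
      exact ⟨hne, hq'⟩
  have := hfh z hz
  rw [map_mul] at this
  exact (mul_eq_zero.mp this).resolve_right (right_ne_zero_of_mul hz2)

/-- lower bound for the dimension -/
theorem dim_ge {σ τ : Type} [Finite σ] [Fintype τ] (S : Set (σ → ℂ)) (p0 : MvPolynomial σ ℂ)
    (p : τ → MvPolynomial σ ℂ) (U : Set (τ → ℂ))
    (hU : ∀ G : MvPolynomial τ ℂ, (∀ u ∈ U, aeval u G = 0) → G = 0)
    (h : ∀ u ∈ U, ∃ y ∈ S, aeval y p0 ≠ 0 ∧ ∀ t, aeval y (p t) = u t * aeval y p0) :
    ((Fintype.card τ : ℕ) : WithBot ℕ∞) ≤ ringKrullDim (MvPolynomial σ ℂ ⧸ vanishingIdeal ℂ S) := by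
  classical
  set I := vanishingIdeal ℂ S with hI
  have hfin : I.minimalPrimes.Finite := Ideal.finite_minimalPrimes_of_isNoetherianRing _ _
  -- key claim
  have key : ∃ P ∈ I.minimalPrimes, ∃ s : ℕ, Fintype.card τ ≤ s ∧
      ringKrullDim (MvPolynomial σ ℂ ⧸ P) = s := by
    by_contra hcon
    push Not at hcon
    have hex : ∀ P ∈ I.minimalPrimes, ∃ H ∈ P, ∃ G : MvPolynomial τ ℂ, G ≠ 0 ∧
        ∀ u : τ → ℂ, ∀ y : σ → ℂ, aeval y p0 ≠ 0 → (∀ t, aeval y (p t) = u t * aeval y p0) →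
          aeval y H = 0 → aeval u G = 0 := by
      intro P hP
      haveI hPp : P.IsPrime := hP.1.1
      by_cases hp0 : p0 ∈ P
      · exact ⟨p0, hp0, 1, one_ne_zero, fun u y h1 h2 h3 => absurd h3 h1⟩
      · set A := MvPolynomial σ ℂ ⧸ P with hA
        set K := FractionRing A with hK
        let φ : MvPolynomial σ ℂ →ₐ[ℂ] K :=
          (IsScalarTower.toAlgHom ℂ A K).comp (Ideal.Quotient.mkₐ ℂ P)
        have hφ : ∀ x, φ x = 0 ↔ x ∈ P := by
          intro x
          show algebraMap A K (Ideal.Quotient.mk P x) = 0 ↔ _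
          rw [map_eq_zero_iff _ (IsFractionRing.injective A K), Ideal.Quotient.eq_zero_iff_mem]
        by_cases hai : AlgebraicIndependent ℂ (fun t => φ (p t) / φ p0)
        · exfalso
          obtain ⟨s, hs1, hs2⟩ := exists_ringKrullDim_eq_trdeg ℂ A
          refine hcon P hP s ?_ hs1
          have h1 : Algebra.trdeg ℂ A + Algebra.trdeg A K = Algebra.trdeg ℂ K :=
            trdeg_add_eq ℂ A
          have h2 : Algebra.trdeg A K = 0 := by
            rw [trdeg_eq_zero_iff]
            exact IsLocalization.isAlgebraic (S := K) (nonZeroDivisors A)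
          have h3 := hai.cardinalMk_le_trdeg
          rw [← h1, h2, hs2, add_zero] at h3
          simpa using h3
        · rw [AlgebraicIndependent] at hai
          rw [injective_iff_map_eq_zero] at hai
          push Not at hai
          obtain ⟨G, hG1, hG2⟩ := hai
          obtain ⟨e, H, hH⟩ := clear_denom p0 p G
          refine ⟨H, ?_, G, hG2, ?_⟩
          · rw [← hφ, hH K φ (by rw [Ne, hφ]; exact hp0), hG1, mul_zero]
          · intro u y hy1 hy2 hy3
            have := hH ℂ (aeval y) hy1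
            rw [hy3] at this
            have h4 : (fun t => (aeval y) (p t) / (aeval y) p0) = u := by
              ext t
              rw [hy2 t]; field_simp
            rw [h4] at this
            exact (mul_eq_zero.mp this.symm).resolve_left (pow_ne_zero _ hy1)
    choose! H hH1 G hG1 hG2 using hex
    have hprod : ∏ P ∈ hfin.toFinset, G P ≠ 0 := by
      rw [Finset.prod_ne_zero_iff]
      intro P hP
      exact hG1 P (by simpa using hP)
    apply hprod
    apply hU
    intro u hu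
    obtain ⟨y, hy1, hy2, hy3⟩ := h u hu
    have hHI : ∏ P ∈ hfin.toFinset, H P ∈ I.radical := by
      rw [← Ideal.sInf_minimalPrimes, Ideal.mem_sInf]
      intro P hP
      exact P.mem_of_dvd (Finset.dvd_prod_of_mem H (by simpa using hP)) (hH1 P hP)
    obtain ⟨n, hn⟩ := hHI
    have h5 := hn y hy1
    rw [map_pow] at h5
    have h6 := eq_zero_of_pow_eq_zero h5
    rw [map_prod, Finset.prod_eq_zero_iff] at h6
    obtain ⟨P, hP1, hP2⟩ := h6
    rw [map_prod, Finset.prod_eq_zero_iff]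
    exact ⟨P, hP1, hG2 P (by simpa using hP1) u y hy2 hy3 hP2⟩
  obtain ⟨P, hP, s, hs1, hs2⟩ := key
  have h1 : ringKrullDim (MvPolynomial σ ℂ ⧸ P) ≤ ringKrullDim (MvPolynomial σ ℂ ⧸ I) :=
    ringKrullDim_le_of_surjective (Ideal.Quotient.factor hP.1.2) (Ideal.Quotient.factor_surjective _)
  rw [hs2] at h1
  refine le_trans ?_ h1
  exact_mod_cast hs1

end Pool.Agent.Helper834.EC
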