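import Mathlib
import Pool.Agent.Helper834.EC.Dim2

namespace Pool.Agent.Helper834.EC

open Order MvPolynomial

/-- The key algebraicity statement, from finiteness of fibres. -/
theorem alg_of_finite_fibre {σ τ : Type} [Finite σ] [Finite τ]
    (Z : Set (τ ⊕ σ → ℂ)) (q : Ideal (MvPolynomial (τ ⊕ σ) ℂ))
    (hq : q ∈ (vanishingIdeal ℂ Z).minimalPrimes)
    (h2 : ∀ z ∈ Z, {y : σ → ℂ | ∀ f ∈ q, aeval (Sum.elim (fun t => z (Sum.inl t)) y) f = 0}.Finite)
    (a : σ) (hq' : q.IsPrime) :
    IsAlgebraic (Algebra.adjoin ℂ (Set.range fun t : τ =>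
      (Ideal.Quotient.mk q (X (Sum.inl t)) : MvPolynomial (τ ⊕ σ) ℂ ⧸ q)))
      (Ideal.Quotient.mk q (X (Sum.inr a)) : MvPolynomial (τ ⊕ σ) ℂ ⧸ q) := by
  classical
  set R2 := MvPolynomial (τ ⊕ σ) ℂ with hR2
  set A := R2 ⧸ q with hA
  set s : τ → A := fun t => Ideal.Quotient.mk q (X (Sum.inl t)) with hs
  set ya : A := Ideal.Quotient.mk q (X (Sum.inr a)) with hya
  by_contra htr
  -- the map from `ℂ[τ][X]` to `A`
  let f0 : MvPolynomial τ ℂ →ₐ[ℂ] A := aeval s
  let f : Polynomial (MvPolynomial τ ℂ) →+* A := Polynomial.eval₂RingHom f0.toRingHom ya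
  have hmem : ∀ p : MvPolynomial τ ℂ, f0 p ∈ Algebra.adjoin ℂ (Set.range s) := by
    intro p
    rw [← MvPolynomial.aeval_range]
    exact ⟨p, rfl⟩
  let g0 : MvPolynomial τ ℂ →ₐ[ℂ] Algebra.adjoin ℂ (Set.range s) := f0.codRestrict _ hmem
  -- transcendence
  have htr' : ∀ b : Polynomial (MvPolynomial τ ℂ), f b = 0 → ∀ i, f0 (b.coeff i) = 0 := by
    intro b hb i
    by_contra hne
    apply htr
    refine ⟨b.map g0.toRingHom, ?_, ?_⟩
    · intro h0
      have := congrArg (fun p => Polynomial.coeff p i) h0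
      simp only [Polynomial.coeff_map, Polynomial.coeff_zero] at this
      apply hne
      have h3 := congrArg Subtype.val this
      exact h3
    · rw [Polynomial.aeval_def, Polynomial.eval₂_map]
      exact hb
  have hft : f.FiniteType := by
    have h1 : (algebraMap ℂ A).FiniteType := by
      rw [RingHom.finiteType_algebraMap]
      infer_instance
    have h2 : algebraMap ℂ A = f.comp (algebraMap ℂ (Polynomial (MvPolynomial τ ℂ))) := by
      ext x
      simp [f]
    rw [h2] at h1
    exact RingHom.FiniteType.of_comp_finiteType h1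
  have hfp : f.FinitePresentation := RingHom.FinitePresentation.of_finiteType.mp hft
  have hcon := PrimeSpectrum.isConstructible_range_comap hfp
  obtain ⟨SS, hSS⟩ := PrimeSpectrum.exists_constructibleSetData_iff.mpr hcon
  haveI : IsDomain A := Ideal.Quotient.isDomain q
  have hbot : PrimeSpectrum.comap f ⊥ ∈ Set.range (PrimeSpectrum.comap f) := ⟨_, rfl⟩
  rw [← hSS] at hbot
  simp only [PrimeSpectrum.ConstructibleSetData.toSet, Set.mem_iUnion] at hbot
  obtain ⟨CC, hC, hC2, hC3⟩ := hbot
  have hker : ∀ x, x ∈ (PrimeSpectrum.comap f ⊥).asIdeal ↔ f x = 0 := by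
    intro x
    simp only [PrimeSpectrum.comap_asIdeal, Ideal.mem_comap]
    exact Iff.rfl
  -- `b` is not in the kernel
  have hb : f CC.f ≠ 0 := by
    intro h0
    apply hC3
    rw [PrimeSpectrum.mem_zeroLocus, Set.singleton_subset_iff]
    exact (hker _).mpr h0
  have hbi : ∃ i, f0 (CC.f.coeff i) ≠ 0 := by
    by_contra hcon
    push Not at hcon
    apply hb
    show Polynomial.eval₂ f0.toRingHom ya CC.f = 0
    rw [Polynomial.eval₂_eq_sum_range]
    refine Finset.sum_eq_zero fun i _ => ?_
    have : f0.toRingHom (CC.f.coeff i) = 0 := hcon i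
    rw [this, zero_mul]
  obtain ⟨i0, hi0⟩ := hbi
  -- lift the coefficient to a polynomial not in q
  let r : MvPolynomial τ ℂ →ₐ[ℂ] R2 := rename Sum.inl
  have hr : ∀ p, Ideal.Quotient.mk q (r p) = f0 p := by
    intro p
    have : (Ideal.Quotient.mkₐ ℂ q).comp r = f0 := by
      ext t
      simp [r, f0, s]
    rw [← this]; rfl
  have hg : r (CC.f.coeff i0) ∉ q := by
    intro hmem
    apply hi0
    rw [← hr, Ideal.Quotient.eq_zero_iff_mem]
    exact hmem
  obtain ⟨z, hzZ, hz1, hz2⟩ := minprime_pt Z q hq _ hg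
  set s0 : τ → ℂ := fun t => z (Sum.inl t) with hs0
  have haev : ∀ p, aeval z (r p) = aeval s0 p := by
    intro p
    show aeval z (rename Sum.inl p) = _
    rw [aeval_rename]; rfl
  rw [haev] at hz2
  -- polynomial in one variable
  let ev0 : MvPolynomial τ ℂ →+* ℂ := (aeval s0 : MvPolynomial τ ℂ →ₐ[ℂ] ℂ).toRingHom
  set bw : Polynomial ℂ := CC.f.map ev0 with hbw
  have hbw0 : bw ≠ 0 := by
    intro h0
    have := congrArg (fun p => Polynomial.coeff p i0) h0
    simp only [hbw, Polynomial.coeff_map, Polynomial.coeff_zero] at this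
    exact hz2 this
  have hinf : (Set.univ \ (bw.rootSet ℂ)).Infinite := by
    apply Set.infinite_univ.sdiff
    exact Polynomial.rootSet_finite bw ℂ
  -- the finite fibre
  have hfin := h2 z hzZ
  have hsub : (Set.univ \ (bw.rootSet ℂ)) ⊆ (fun y : σ → ℂ => y a) ''
      {y : σ → ℂ | ∀ f ∈ q, aeval (Sum.elim s0 y) f = 0} := by
    intro w hw
    have hw0 : Polynomial.eval w bw ≠ 0 := by
      intro h0
      apply hw.2
      rw [Polynomial.mem_rootSet]
      exact ⟨hbw0, by simpa [Polynomial.aeval_def, Polynomial.eval₂_eq_eval_map] using h0⟩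
    -- hom from ℂ[τ][X] to ℂ
    let ψ : Polynomial (MvPolynomial τ ℂ) →+* ℂ := Polynomial.eval₂RingHom ev0 w
    have hψs : Function.Surjective ψ := by
      intro c
      refine ⟨Polynomial.C (MvPolynomial.C c), ?_⟩
      simp [ψ, ev0]
    have hmax : (RingHom.ker ψ).IsMaximal := RingHom.ker_isMaximal_of_surjective ψ hψs
    -- kernel of f is inside ker ψ
    have hfψ : ∀ x, f x = 0 → ψ x = 0 := by
      intro x hx
      show Polynomial.eval₂ ev0 w x = 0
      rw [Polynomial.eval₂_eq_sum_range]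
      refine Finset.sum_eq_zero fun i _ => ?_
      have h3 := htr' x hx i
      have h4 : ev0 (x.coeff i) = 0 := by
        show aeval s0 (x.coeff i) = 0
        rw [← haev]
        apply hz1
        rw [← Ideal.Quotient.eq_zero_iff_mem, hr]
        exact h3
      rw [h4, zero_mul]
    have hψb : ψ CC.f ≠ 0 := by
      intro h0
      apply hw0
      have : ψ CC.f = Polynomial.eval w bw := by
        show Polynomial.eval₂ ev0 w CC.f = _
        rw [hbw, Polynomial.eval_map]
      rw [← this, h0]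
    have hin : (⟨RingHom.ker ψ, hmax.isPrime⟩ : PrimeSpectrum _) ∈ Set.range (PrimeSpectrum.comap f) := by
      rw [← hSS]
      simp only [PrimeSpectrum.ConstructibleSetData.toSet, Set.mem_iUnion]
      refine ⟨CC, hC, ?_, ?_⟩
      · rw [PrimeSpectrum.mem_zeroLocus]
        intro x hx
        have := hC2 hx
        exact hfψ x ((hker x).mp this)
      · rw [PrimeSpectrum.mem_zeroLocus, Set.singleton_subset_iff]
        exact hψb
    obtain ⟨Q, hQ⟩ := hin
    obtain ⟨M, hM1, hM2⟩ := Ideal.exists_le_maximal Q.asIdeal Q.isPrime.ne_top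
    -- pull back to R2
    have hMmax : (M.comap (Ideal.Quotient.mk q)).IsMaximal :=
      Ideal.comap_isMaximal_of_surjective _ Ideal.Quotient.mk_surjective
    obtain ⟨x, hx⟩ := eq_vanishingIdeal_singleton_of_isMaximal ℂ hMmax
    have hcomap : M.comap f = RingHom.ker ψ := by
      have h5 : RingHom.ker ψ ≤ M.comap f := by
        have : (PrimeSpectrum.comap f Q).asIdeal = RingHom.ker ψ := by rw [hQ]
        rw [← this]
        exact Ideal.comap_mono hM2
      exact (hmax.eq_of_le (by
        intro h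
        have : (1 : Polynomial (MvPolynomial τ ℂ)) ∈ M.comap f := by rw [h]; trivial
        rw [Ideal.mem_comap, map_one] at this
        exact hM1.ne_top ((Ideal.eq_top_iff_one _).mpr this)) h5).symm
    have hxmem : ∀ p : R2, Ideal.Quotient.mk q p ∈ M ↔ aeval x p = 0 := by
      intro p
      have : p ∈ M.comap (Ideal.Quotient.mk q) ↔ p ∈ (vanishingIdeal ℂ {x} : Ideal R2) := by rw [hx]
      rw [Ideal.mem_comap, mem_vanishingIdeal_singleton_iff] at this
      exact this
    have hxs : ∀ t, x (Sum.inl t) = s0 t := by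
      intro t
      have h6 : (Polynomial.C (X t - C (s0 t)) : Polynomial (MvPolynomial τ ℂ)) ∈ RingHom.ker ψ := by
        rw [RingHom.mem_ker]
        simp [ψ, ev0]
      rw [← hcomap, Ideal.mem_comap] at h6
      have h7 : f (Polynomial.C (X t - C (s0 t))) = Ideal.Quotient.mk q (X (Sum.inl t) - C (s0 t)) := by
        have : f (Polynomial.C (X t - MvPolynomial.C (s0 t))) = f0 (X t - MvPolynomial.C (s0 t)) := by
          simp [f]
        rw [this, ← hr]
        show Ideal.Quotient.mk q (rename Sum.inl (X t - MvPolynomial.C (s0 t))) = _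
        rw [map_sub, rename_X, rename_C]
      rw [h7, hxmem] at h6
      simp only [map_sub, aeval_X, MvPolynomial.aeval_C] at h6
      exact sub_eq_zero.mp h6
    have hxa : x (Sum.inr a) = w := by
      have h6 : (Polynomial.X - Polynomial.C (MvPolynomial.C w) : Polynomial (MvPolynomial τ ℂ)) ∈ RingHom.ker ψ := by
        rw [RingHom.mem_ker]
        simp [ψ, ev0]
      rw [← hcomap, Ideal.mem_comap] at h6
      have h7 : f (Polynomial.X - Polynomial.C (MvPolynomial.C w)) =
          Ideal.Quotient.mk q (X (Sum.inr a) - MvPolynomial.C w) := by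
        have : f (Polynomial.X - Polynomial.C (MvPolynomial.C w)) = ya - f0 (MvPolynomial.C w) := by
          simp [f]
        rw [this, ← hr]
        show ya - Ideal.Quotient.mk q (rename Sum.inl (MvPolynomial.C w)) = _
        rw [rename_C, map_sub]
      rw [h7, hxmem] at h6
      simp only [map_sub, aeval_X, MvPolynomial.aeval_C] at h6
      exact sub_eq_zero.mp h6
    refine ⟨fun i => x (Sum.inr i), ?_, hxa⟩
    intro p hp
    have h8 : Sum.elim s0 (fun i => x (Sum.inr i)) = x := by
      ext i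
      cases i with
      | inl t => simp [hxs]
      | inr i => simp
    rw [h8, ← hxmem, Ideal.Quotient.eq_zero_iff_mem.mpr hp]
    exact M.zero_mem
  exact hinf ((hfin.image _).subset hsub)

theorem ringKrullDim_quotient_le_of_primes {R : Type*} [CommRing R] (I : Ideal R)
    (m : WithBot ℕ∞) (h : ∀ P : Ideal R, P.IsPrime → I ≤ P → ringKrullDim (R ⧸ P) ≤ m) :
    ringKrullDim (R ⧸ I) ≤ m := by
  rw [ringKrullDim_quotient]
  refine iSup_le fun p => ?_
  set P0 : Ideal R := (p.head).1.asIdeal with hP0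
  refine le_trans ?_ (h P0 (p.head).1.isPrime (p.head).2)
  rw [ringKrullDim_quotient]
  let q : LTSeries (PrimeSpectrum.zeroLocus (P0 : Set R)) :=
    LTSeries.mk p.length (fun i => ⟨(p i).1, fun x hx => (p.head_le i) hx⟩)
      (fun i j hij => p.strictMono hij)
  exact LTSeries.length_le_krullDim q

/-- upper bound for the dimension -/
theorem dim_le {σ τ : Type} [Finite σ] [Finite τ] (Γ : Set (τ ⊕ σ → ℂ))
    (F : Set (MvPolynomial (τ ⊕ σ) ℂ))
    (h1 : ∀ z ∈ Γ, ∀ f ∈ F, aeval z f = 0)
    (h2 : ∀ z ∈ Γ, {y : σ → ℂ | ∀ f ∈ F, aeval (Sum.elim (fun t => z (Sum.inl t)) y) f = 0}.Finite)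
    (P : Ideal (MvPolynomial σ ℂ)) (hP : P.IsPrime)
    (hle : vanishingIdeal ℂ ((fun (z : τ ⊕ σ → ℂ) (i : σ) => z (Sum.inr i)) '' Γ) ≤ P) :
    ringKrullDim (MvPolynomial σ ℂ ⧸ P) ≤ ((Nat.card τ : ℕ) : WithBot ℕ∞) := by
  classical
  set J := vanishingIdeal ℂ Γ with hJ
  have hfin : J.minimalPrimes.Finite := Ideal.finite_minimalPrimes_of_isNoetherianRing _ _
  let r : MvPolynomial σ ℂ →ₐ[ℂ] MvPolynomial (τ ⊕ σ) ℂ := rename Sum.inr
  have hcomap : J.comap r ≤ P := by
    refine le_trans ?_ hle
    rintro x hx _ ⟨z, hz, rfl⟩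
    have := hx z hz
    have h3 : aeval z (rename Sum.inr x) = aeval (z ∘ Sum.inr) x := aeval_rename _ _ _
    exact h3.symm.trans this
  -- some minimal prime of J contracts into P
  have hex : ∃ q ∈ J.minimalPrimes, q.comap r ≤ P := by
    by_contra hcon
    push Not at hcon
    have hex : ∀ q ∈ J.minimalPrimes, ∃ x ∈ q.comap r, x ∉ P := by
      intro q hq
      exact Set.not_subset.mp (hcon q hq)
    choose! g hg1 hg2 using hex
    have hprod : ∏ q ∈ hfin.toFinset, g q ∉ P := by
      intro hmem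
      rw [hP.prod_mem_iff] at hmem
      obtain ⟨q, hq1, hq2⟩ := hmem
      exact hg2 q (by simpa using hq1) hq2
    apply hprod
    apply hcomap
    have hrad : J.radical = J := by
      apply le_antisymm _ Ideal.le_radical
      intro x hx
      obtain ⟨n, hn⟩ := hx
      intro y hy
      have := hn y hy
      rw [map_pow] at this
      exact eq_zero_of_pow_eq_zero this
    have hgoal : r (∏ q ∈ hfin.toFinset, g q) ∈ J.radical := by
      rw [← Ideal.sInf_minimalPrimes, Ideal.mem_sInf]
      intro q hq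
      rw [map_prod]
      exact q.mem_of_dvd (Finset.dvd_prod_of_mem (fun i => r (g i)) (by simpa using hq)) (hg1 q hq)
    rw [hrad] at hgoal
    exact hgoal
  obtain ⟨q, hq, hqP⟩ := hex
  haveI hqp : q.IsPrime := hq.1.1
  have h4 : ringKrullDim (MvPolynomial σ ℂ ⧸ P) ≤ ringKrullDim (MvPolynomial σ ℂ ⧸ q.comap r) :=
    ringKrullDim_le_of_surjective (Ideal.Quotient.factor hqP) (Ideal.Quotient.factor_surjective _)
  refine le_trans h4 ?_
  set A := MvPolynomial (τ ⊕ σ) ℂ ⧸ q with hA
  haveI : IsDomain A := Ideal.Quotient.isDomain q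
  haveI : (q.comap r).IsPrime := Ideal.comap_isPrime _ _
  haveI : IsDomain (MvPolynomial σ ℂ ⧸ q.comap r) := Ideal.Quotient.isDomain _
  obtain ⟨s, hs1, hs2⟩ := exists_ringKrullDim_eq_trdeg ℂ (MvPolynomial σ ℂ ⧸ q.comap r)
  rw [hs1]
  -- the injection of quotients
  let ι : (MvPolynomial σ ℂ ⧸ q.comap r) →ₐ[ℂ] A := Ideal.quotientMapₐ q r le_rfl
  have hι : Function.Injective ι := Ideal.quotientMap_injective
  have h5 : Algebra.trdeg ℂ (MvPolynomial σ ℂ ⧸ q.comap r) ≤ Algebra.trdeg ℂ A :=
    trdeg_le_of_injective ι hι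
  -- A is algebraic over the subalgebra generated by the `τ`-coordinates
  set sbar : τ → A := fun t => Ideal.Quotient.mk q (X (Sum.inl t)) with hsbar
  have halg : ∀ i : τ ⊕ σ, IsAlgebraic (Algebra.adjoin ℂ (Set.range sbar))
      (Ideal.Quotient.mk q (X i) : A) := by
    intro i
    cases i with
    | inl t =>
      have : sbar t ∈ Algebra.adjoin ℂ (Set.range sbar) := Algebra.subset_adjoin ⟨t, rfl⟩
      exact isAlgebraic_algebraMap (⟨sbar t, this⟩ : Algebra.adjoin ℂ (Set.range sbar))
    | inr a =>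
      refine alg_of_finite_fibre Γ q hq ?_ a hqp
      intro z hz
      refine (h2 z hz).subset ?_
      intro y hy f hf
      apply hy
      apply hq.1.2
      intro w hw
      exact h1 w hw f hf
  haveI hAalg : Algebra.IsAlgebraic (Algebra.adjoin ℂ (Set.range sbar)) A := by
    refine ⟨fun x => ?_⟩
    obtain ⟨x, rfl⟩ := Ideal.Quotient.mk_surjective x
    induction x using MvPolynomial.induction_on with
    | C a =>
      have h6 : (Ideal.Quotient.mk q (C a) : A) = algebraMap (Algebra.adjoin ℂ (Set.range sbar)) A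
          (algebraMap ℂ _ a) := rfl
      rw [h6]
      exact isAlgebraic_algebraMap _
    | add p1 p2 hp1 hp2 =>
      rw [map_add]; exact hp1.add hp2
    | mul_X p i hp =>
      rw [map_mul]; exact hp.mul (halg i)
  have h7 : Algebra.trdeg ℂ A ≤ Cardinal.mk (Set.range sbar) :=
    Algebra.IsAlgebraic.trdeg_le_cardinalMk ℂ (Set.range sbar)
  have h8 : Cardinal.mk (Set.range sbar) ≤ Cardinal.mk τ := Cardinal.mk_range_le
  have h9 : Cardinal.mk τ = (Nat.card τ : ℕ) := by
    rw [Nat.cast_card]
  rw [hs2] at h5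
  have h10 := (h5.trans h7).trans h8
  rw [h9] at h10
  have h11 : s ≤ Nat.card τ := by exact_mod_cast h10
  exact_mod_cast h11

end Pool.Agent.Helper834.EC
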