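import Mathlib
import Pool.Agent.Helper834.EC.Base1

namespace Pool.Agent.Helper834.EC

open MvPolynomial

section grid

variable {σ : Type} [Fintype σ] [DecidableEq σ]

theorem eq_single_of_degree {e : ℕ} (s : σ →₀ ℕ) (l : σ) (h1 : s.degree = e) (h2 : e ≤ s l) :
    s = Finsupp.single l e := by
  have h3 : s l = e := le_antisymm (h1 ▸ Finsupp.le_degree l s) h2
  ext i
  by_cases hi : i = l
  · rw [hi, h3, Finsupp.single_eq_same]
  · rw [Finsupp.single_eq_of_ne hi]
    by_contra h0
    have h4 : s l + s i ≤ s.degree := by
      rw [Finsupp.degree_eq_sum]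
      have h5 : ({l, i} : Finset σ) ⊆ Finset.univ := Finset.subset_univ _
      have h6 := Finset.sum_le_sum_of_subset (f := fun i => s i) h5
      rw [Finset.sum_pair (fun h => hi h.symm)] at h6
      exact h6
    omega

theorem coeff_line (e : ℕ) (a b : ℂ) (l : σ) (s : σ →₀ ℕ) :
    coeff s (X l ^ e + C a * X l + C b : MvPolynomial σ ℂ) =
      (if Finsupp.single l e = s then 1 else 0) + a * (if Finsupp.single l 1 = s then 1 else 0) +
      (if 0 = s then b else 0) := by
  rw [coeff_add, coeff_add, coeff_X_pow, coeff_C_mul, coeff_X, coeff_C]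

theorem grid_lemma {e : ℕ} (he : 1 ≤ e) (f : MvPolynomial σ ℂ) (hf : f.IsHomogeneous e)
    (L : Finset σ) (a b : σ → ℂ) (ha : 1 < e ∨ ∀ l, a l = 0) (S : σ → Finset ℂ)
    (hS1 : ∀ l ∈ L, e ≤ (S l).card) (hS2 : ∀ l ∈ L, ∀ x ∈ S l, x ^ e + a l * x + b l = 0)
    (hS3 : ∀ l, l ∉ L → e < (S l).card)
    (hev : ∀ x : σ → ℂ, (∀ l, x l ∈ S l) → eval x f = 0) :
    f = ∑ l ∈ L, C (coeff (Finsupp.single l e) f) * (X l ^ e + C (a l) * X l + C (b l)) := by
  rw [← sub_eq_zero]
  apply eq_zero_of_eval_zero_at_prod_finset _ S
  · intro l
    have hpos : 0 < (S l).card := by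
      by_cases hl : l ∈ L
      · exact lt_of_lt_of_le he (hS1 l hl)
      · exact lt_of_le_of_lt (Nat.zero_le _) (hS3 l hl)
    rw [degreeOf_lt_iff hpos]
    intro s hs
    by_contra hcon
    rw [not_lt] at hcon
    rw [mem_support_iff] at hs
    apply hs
    rw [coeff_sub, coeff_sum]
    simp only [coeff_C_mul, coeff_line]
    by_cases hl : l ∈ L
    · have hsl : e ≤ s l := (hS1 l hl).trans hcon
      have h0 : (0 : σ →₀ ℕ) ≠ s := by
        rintro rfl
        simp only [Finsupp.coe_zero, Pi.zero_apply, Nat.le_zero] at hsl
        omega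
      have h1 : ∀ l' ∈ L, a l' * (if Finsupp.single l' 1 = s then (1 : ℂ) else 0) = 0 := by
        intro l' _
        rcases ha with ha | ha
        · rw [if_neg, mul_zero]
          rintro rfl
          have : (Finsupp.single l' 1 : σ →₀ ℕ) l ≤ 1 := by
            rw [Finsupp.single_apply]; split_ifs <;> omega
          omega
        · rw [ha l', zero_mul]
      by_cases hse : s = Finsupp.single l e
      · rw [Finset.sum_eq_single l]
        · rw [if_pos hse.symm, h1 l hl, if_neg h0, hse]
          ring
        · intro l' hl' hne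
          rw [if_neg, h1 l' hl', if_neg h0]
          · ring
          · intro h
            rw [← h, Finsupp.single_eq_of_ne hne.symm] at hsl
            omega
        · intro h; exact absurd hl h
      · rw [hf.coeff_eq_zero, Finset.sum_eq_zero, sub_zero]
        · intro l' hl'
          rw [if_neg, h1 l' hl', if_neg h0]
          · ring
          · intro h
            by_cases hll : l' = l
            · apply hse
              rw [← h, hll]
            · rw [← h, Finsupp.single_eq_of_ne (Ne.symm hll)] at hsl
              omega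
        · intro hdeg
          exact hse (eq_single_of_degree s l hdeg hsl)
    · have hsl : e < s l := lt_of_lt_of_le (hS3 l hl) hcon
      rw [hf.coeff_eq_zero, Finset.sum_eq_zero, sub_zero]
      · intro l' hl'
        have hne : l' ≠ l := by
          rintro rfl
          exact hl hl'
        rw [if_neg, if_neg, if_neg]
        · ring
        · rintro rfl
          simp at hsl
        · rintro rfl
          rw [Finsupp.single_eq_of_ne hne.symm] at hsl
          omega
        · rintro rfl
          rw [Finsupp.single_eq_of_ne hne.symm] at hsl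
          omega
      · intro hdeg
        have := Finsupp.le_degree l s
        omega
  · intro x hx
    rw [map_sub, hev x hx, map_sum, zero_sub, neg_eq_zero]
    apply Finset.sum_eq_zero
    intro l hl
    simp only [map_mul, map_add, map_pow, eval_X, eval_C]
    rw [hS2 l hl (x l) (hx l), mul_zero]

omit [Fintype σ] in
theorem X_dvd_sub_subst (i : σ) (f : MvPolynomial σ ℂ) :
    X i ∣ f - aeval (fun l => if l = i then (0 : MvPolynomial σ ℂ) else X l) f := by
  induction f using MvPolynomial.induction_on with
  | C a =>
    have : aeval (fun l => if l = i then (0 : MvPolynomial σ ℂ) else X l) (C a) = C a := by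
      rw [aeval_C]; rfl
    rw [this, sub_self]
    exact dvd_zero _
  | add p q hp hq =>
    rw [map_add]
    have : p + q - (aeval (fun l => if l = i then (0 : MvPolynomial σ ℂ) else X l) p +
      aeval (fun l => if l = i then (0 : MvPolynomial σ ℂ) else X l) q) =
      (p - aeval (fun l => if l = i then (0 : MvPolynomial σ ℂ) else X l) p) +
      (q - aeval (fun l => if l = i then (0 : MvPolynomial σ ℂ) else X l) q) := by ring
    rw [this]
    exact dvd_add hp hq
  | mul_X p l hp =>
    rw [map_mul, aeval_X]
    by_cases hl : l = i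
    · rw [if_pos hl, mul_zero, sub_zero, hl]
      exact dvd_mul_left _ _
    · rw [if_neg hl, ← sub_mul]
      exact Dvd.dvd.mul_right hp _

omit [Fintype σ] in
theorem exists_homog_quot {m : ℕ} (i : σ) (f : MvPolynomial σ ℂ) (hf : f.IsHomogeneous (m + 1))
    (h : X i ∣ f) : ∃ l : MvPolynomial σ ℂ, f = X i * l ∧ l.IsHomogeneous m := by
  refine ⟨f.divMonomial (Finsupp.single i 1), ?_, ?_⟩
  · have h1 := divMonomial_add_modMonomial_single f i
    rw [X_dvd_iff_modMonomial_eq_zero] at h
    rw [h, add_zero] at h1
    exact h1.symm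
  · intro s hs
    rw [coeff_divMonomial] at hs
    have h2 := hf hs
    rw [Finsupp.weight_apply] at h2 ⊢
    rw [Finsupp.sum_add_index'] at h2
    · rw [Finsupp.sum_single_index] at h2
      · simp only [Pi.one_apply, smul_eq_mul, mul_one] at h2 ⊢
        omega
      · simp
    · intro; simp
    · intro a b c; rw [add_smul]

end grid

end Pool.Agent.Helper834.EC
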