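import Mathlib
import Pool.Agent.Helper834.EC.Rigid1

namespace Pool.Agent.Helper834.EC

open MvPolynomial

/-- roots of `w_l z^m = 1` -/
noncomputable def Rr {n : ℕ} (m : ℕ) (l : Fin (n + 1)) : Finset ℂ :=
  (Polynomial.nthRoots m (1 / wt l)).toFinset

theorem mem_Rr {n m : ℕ} (hm : 0 < m) (l : Fin (n + 1)) (z : ℂ) : z ∈ Rr m l ↔ wt l * z ^ m = 1 := by
  unfold Rr
  rw [Multiset.mem_toFinset, Polynomial.mem_nthRoots hm, eq_div_iff (wt_ne_zero l), mul_comm]

theorem card_Rr {n m : ℕ} (hm : 0 < m) (l : Fin (n + 1)) : (Rr m l).card = m := by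
  unfold Rr
  have hne : (1 / wt l : ℂ) ≠ 0 := div_ne_zero one_ne_zero (wt_ne_zero l)
  have hprim := Complex.isPrimitiveRoot_exp m hm.ne'
  have h1 := hprim.card_nthRoots (1 / wt l : ℂ)
  obtain ⟨z, hz⟩ := IsAlgClosed.exists_pow_nat_eq (1 / wt l : ℂ) hm
  rw [if_pos ⟨z, hz⟩] at h1
  rw [Multiset.toFinset_card_of_nodup]
  · exact h1
  · exact hprim.nthRoots_nodup hne

theorem card_Rr0 {n m : ℕ} (hm : 0 < m) (l : Fin (n + 1)) : (insert 0 (Rr m l)).card = m + 1 := by
  rw [Finset.card_insert_of_notMem, card_Rr hm]
  rw [mem_Rr hm, zero_pow hm.ne', mul_zero]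
  exact zero_ne_one

theorem rigid_poly {n m : ℕ} (hm : 1 ≤ m) (φ : Fin (n + 1) → MvPolynomial (Fin (n + 1)) ℂ)
    (hφ : ∀ j, (φ j).IsHomogeneous (m + 1))
    (h : ∀ x : Fin (n + 1) → ℂ, (∀ i, wt i * x i ^ (m + 1) = x i) →
      ∀ a b, x a * eval x (φ b) = x b * eval x (φ a)) :
    ∃ c : ℂ, ∀ a b, X a * φ b - X b * φ a =
      C c * (X a * (C (wt b) * X b ^ (m + 1)) - X b * (C (wt a) * X a ^ (m + 1))) := by
  classical
  -- membership in the grid
  have hgrid : ∀ (z : ℂ) (l : Fin (n + 1)), z ∈ insert 0 (Rr m l) → wt l * z ^ (m + 1) = z := by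
    intro z l hz
    rw [Finset.mem_insert, mem_Rr hm] at hz
    rcases hz with rfl | hz
    · rw [zero_pow (by omega), mul_zero]
    · rw [pow_succ, ← mul_assoc, hz, one_mul]
  -- step 1
  have step1 : ∀ i, aeval (fun l => if l = i then (0 : MvPolynomial (Fin (n + 1)) ℂ) else X l) (φ i) = 0 := by
    intro i
    set f := aeval (fun l => if l = i then (0 : MvPolynomial (Fin (n + 1)) ℂ) else X l) (φ i) with hf
    have hfh : f.IsHomogeneous (m + 1) := by
      have := (hφ i).aeval (fun l => if l = i then (0 : MvPolynomial (Fin (n + 1)) ℂ) else X l) (n := 1) (by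
        intro l
        split_ifs
        · exact isHomogeneous_zero _ _ _
        · exact isHomogeneous_X _ _)
      rwa [one_mul] at this
    have hev : ∀ x : Fin (n + 1) → ℂ, eval x f = eval (fun l => if l = i then 0 else x l) (φ i) := by
      intro x
      rw [hf]
      induction φ i using MvPolynomial.induction_on with
      | C a => simp
      | add p q hp hq => rw [map_add, map_add, map_add, hp, hq]
      | mul_X p l hp =>
        rw [map_mul, map_mul, map_mul, hp, aeval_X, eval_X]
        congr 1
        split_ifs
        · exact map_zero _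
        · exact eval_X _
    have hG := grid_lemma (e := m + 1) (by omega) f hfh Finset.univ (fun l => -(1 / wt l)) (fun _ => 0)
      (Or.inl (by omega)) (fun l => insert 0 (Rr m l)) (fun l _ => by rw [card_Rr0 hm]) (by
        intro l _ x hx
        have h1 := hgrid x l hx
        have h2 := wt_ne_zero l
        field_simp
        linear_combination h1) (fun l hl => absurd (Finset.mem_univ l) hl) (by
        intro x hx
        rw [hev]
        by_cases hx0 : ∃ j, j ≠ i ∧ x j ≠ 0
        · obtain ⟨j, hj, hxj⟩ := hx0
          have h1 := h (fun l => if l = i then 0 else x l) (by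
            intro l
            split_ifs with hl
            · rw [zero_pow (by omega), mul_zero]
            · exact hgrid _ _ (hx l)) j i
          simp only [if_neg hj, if_true, zero_mul] at h1
          exact (mul_eq_zero.mp h1).resolve_left hxj
        · push Not at hx0
          have h2 : (fun l => if l = i then 0 else x l) = (0 : Fin (n + 1) → ℂ) := by
            funext l
            split_ifs with hl
            · rfl
            · exact hx0 l hl
          rw [h2, MvPolynomial.eval_zero, constantCoeff_eq]
          exact (hφ i).coeff_eq_zero (by simp))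
    have hc : ∀ l, coeff (Finsupp.single l (m + 1)) f = 0 := by
      intro l
      have h1 := congrArg (coeff (Finsupp.single l 1)) hG
      rw [hfh.coeff_eq_zero (by rw [Finsupp.degree_single]; omega), coeff_sum] at h1
      simp only [coeff_C_mul, coeff_line] at h1
      rw [Finset.sum_eq_single l] at h1
      · rw [if_neg, if_pos rfl, if_neg] at h1
        · have h2 := wt_ne_zero l
          rcases mul_eq_zero.mp h1.symm with h3 | h3
          · exact h3
          · exfalso
            simp only [mul_one, zero_add, add_zero, neg_eq_zero, one_div, inv_eq_zero] at h3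
            exact h2 h3
        · intro h3
          have := congrArg Finsupp.degree h3
          rw [Finsupp.degree_single] at this
          simp at this
        · intro h3
          have := congrArg Finsupp.degree h3
          rw [Finsupp.degree_single, Finsupp.degree_single] at this
          omega
      · intro l' _ hl'
        rw [if_neg, if_neg, if_neg]
        · ring
        · intro h3
          have := congrArg Finsupp.degree h3
          rw [Finsupp.degree_single] at this
          simp at this
        · intro h3
          rw [Finsupp.single_left_inj one_ne_zero] at h3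
          exact hl' h3
        · intro h3
          have := congrArg Finsupp.degree h3
          rw [Finsupp.degree_single, Finsupp.degree_single] at this
          omega
      · intro h3; exact absurd (Finset.mem_univ _) h3
    rw [hG]
    apply Finset.sum_eq_zero
    intro l _
    rw [hc l, C_0, zero_mul]
  have step1' : ∀ i, ∃ l : MvPolynomial (Fin (n + 1)) ℂ, φ i = X i * l ∧ l.IsHomogeneous m := by
    intro i
    apply exists_homog_quot i (φ i) (hφ i)
    have := X_dvd_sub_subst i (φ i)
    rwa [step1 i, sub_zero] at this
  choose ell hell1 hell2 using step1'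
  have hm0 : 0 < m := hm
  -- step 2
  have step2 : ∀ i j, i ≠ j → ∃ c : ℂ, ell j - ell i =
      C c * (C (wt i) * X i ^ m - C (wt j) * X j ^ m) := by
    intro i j hij
    set g := ell j - ell i with hg
    have hgh : g.IsHomogeneous m := (hell2 j).sub (hell2 i)
    have hG := grid_lemma (e := m) hm g hgh {i, j} (fun _ => 0) (fun l => -(1 / wt l))
      (Or.inr fun _ => rfl) (fun l => if l = i ∨ l = j then Rr m l else insert 0 (Rr m l)) (by
        intro l hl
        rw [if_pos (by simpa using hl), card_Rr hm]) (by
        intro l hl x hx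
        rw [if_pos (by simpa using hl), mem_Rr hm] at hx
        have h2 := wt_ne_zero l
        simp only [zero_mul, add_zero]
        field_simp
        linear_combination hx) (by
        intro l hl
        rw [if_neg (by simpa using hl), card_Rr0 hm]
        omega) (by
        intro x hx
        have hxg : ∀ l, x l ∈ insert 0 (Rr m l) := by
          intro l
          have := hx l
          split_ifs at this with hl
          · exact Finset.mem_insert_of_mem this
          · exact this
        have hxi : x i ≠ 0 := by
          intro h0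
          have := hx i
          rw [if_pos (Or.inl rfl), mem_Rr hm, h0, zero_pow hm0.ne', mul_zero] at this
          exact zero_ne_one this
        have hxj : x j ≠ 0 := by
          intro h0
          have := hx j
          rw [if_pos (Or.inr rfl), mem_Rr hm, h0, zero_pow hm0.ne', mul_zero] at this
          exact zero_ne_one this
        have h1 := h x (fun l => hgrid _ _ (hxg l)) i j
        rw [hell1 i, hell1 j, map_mul, map_mul, eval_X, eval_X] at h1
        rw [hg, map_sub]
        have h2 : (x i * x j) * (eval x (ell j) - eval x (ell i)) = 0 := by linear_combination h1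
        exact (mul_eq_zero.mp h2).resolve_left (mul_ne_zero hxi hxj))
    rw [Finset.sum_pair hij] at hG
    set ci := coeff (Finsupp.single i m) g with hci
    set cj := coeff (Finsupp.single j m) g with hcj
    have hcon : ci / wt i + cj / wt j = 0 := by
      have h1 := congrArg (coeff 0) hG
      have h5 : ∀ (l : Fin (n + 1)) (e : ℕ), 0 < e → ¬ (Finsupp.single l e = (0 : Fin (n + 1) →₀ ℕ)) := by
        intro l e he h3
        have := congrArg Finsupp.degree h3
        rw [Finsupp.degree_single] at this
        simp at this
        omega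
      rw [hgh.coeff_eq_zero (by simpa using hm0.ne), coeff_add, coeff_C_mul, coeff_C_mul, coeff_line,
        coeff_line] at h1
      simp only [if_neg (h5 _ m hm0), if_neg (h5 _ 1 one_pos), if_true] at h1
      have h2 := wt_ne_zero i
      have h3 := wt_ne_zero j
      linear_combination h1
    refine ⟨ci / wt i, ?_⟩
    rw [hG]
    have h2 := wt_ne_zero i
    have h3 := wt_ne_zero j
    have e1 : ci = ci / wt i * wt i := by field_simp
    have e2 : cj = -(ci / wt i) * wt j := by
      have : cj / wt j = -(ci / wt i) := by linear_combination hcon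
      rw [← this]; field_simp
    have e3 : ci * (1 / wt i) + cj * (1 / wt j) = 0 := by linear_combination hcon
    have e4 : (C ci : MvPolynomial (Fin (n + 1)) ℂ) = C (ci / wt i) * C (wt i) := by
      rw [← C_mul, ← e1]
    have e5 : (C cj : MvPolynomial (Fin (n + 1)) ℂ) = -(C (ci / wt i)) * C (wt j) := by
      rw [← C_neg, ← C_mul, ← e2]
    have e6 : (C ci * C (1 / wt i) + C cj * C (1 / wt j) : MvPolynomial (Fin (n + 1)) ℂ) = 0 := by
      rw [← C_mul, ← C_mul, ← C_add, e3, C_0]
    have e7 : (C (-(1 / wt i)) : MvPolynomial (Fin (n + 1)) ℂ) = - C (1 / wt i) := C_neg _ _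
    have e8 : (C (-(1 / wt j)) : MvPolynomial (Fin (n + 1)) ℂ) = - C (1 / wt j) := C_neg _ _
    rw [e7, e8, C_0]
    linear_combination (-1 : MvPolynomial (Fin (n + 1)) ℂ) * e6 + X i ^ m * e4 + X j ^ m * e5
  choose! cc hcc using step2
  -- coefficient relations
  have hco : ∀ i j k, i ≠ j → coeff (Finsupp.single k m) (ell j) - coeff (Finsupp.single k m) (ell i) =
      cc i j * (wt i * (if i = k then 1 else 0) - wt j * (if j = k then 1 else 0)) := by
    intro i j k hij
    have h1 := congrArg (coeff (Finsupp.single k m)) (hcc i j hij)
    rw [coeff_sub, coeff_C_mul, coeff_sub, coeff_C_mul, coeff_C_mul, coeff_X_pow, coeff_X_pow] at h1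
    simp only [Finsupp.single_left_inj hm0.ne'] at h1
    exact h1
  have hS : ∀ i j, i ≠ j → cc i j = cc j i := by
    intro i j hij
    have h1 := hco i j i hij
    have h2 := hco j i i hij.symm
    rw [if_pos rfl, if_neg (Ne.symm hij)] at h1
    rw [if_neg (Ne.symm hij), if_pos rfl] at h2
    have h3 := wt_ne_zero i
    have h4 : wt i * cc i j = wt i * cc j i := by linear_combination -h1 - h2
    exact mul_left_cancel₀ h3 h4
  have hT : ∀ i j j', i ≠ j → i ≠ j' → cc i j = cc i j' := by
    intro i j j' hj hj'
    by_cases hjj : j = j'
    · rw [hjj]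
    · have h1 := hco i j i hj
      have h2 := hco i j' i hj'
      have h3 := hco j j' i hjj
      rw [if_pos rfl, if_neg (Ne.symm hj)] at h1
      rw [if_pos rfl, if_neg (Ne.symm hj')] at h2
      rw [if_neg (Ne.symm hj), if_neg (Ne.symm hj')] at h3
      have h4 : wt i * cc i j = wt i * cc i j' := by linear_combination -h1 + h2 - h3
      exact mul_left_cancel₀ (wt_ne_zero i) h4
  have hex : ∃ c : ℂ, ∀ i j, i ≠ j → cc i j = c := by
    by_cases h01 : ∃ i j : Fin (n + 1), i ≠ j
    · obtain ⟨i0, j0, hij0⟩ := h01
      refine ⟨cc i0 j0, ?_⟩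
      intro i j hij
      by_cases hi : i = i0
      · subst hi
        exact hT i j j0 hij hij0
      · rw [hT i j i0 hij hi, hS i i0 hi]
        exact hT i0 i j0 (Ne.symm hi) hij0
    · refine ⟨0, fun i j hij => absurd ⟨i, j, hij⟩ h01⟩
  obtain ⟨c, hc⟩ := hex
  refine ⟨-c, ?_⟩
  intro a b
  by_cases hab : a = b
  · subst hab
    ring
  · have h1 := hcc a b hab
    rw [hc a b hab] at h1
    rw [hell1 a, hell1 b, C_neg]
    linear_combination (X a * X b) * h1

end Pool.Agent.Helper834.EC
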