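import Mathlib
import Pool.Agent.Helper834.EC.Rigid2

namespace Pool.Agent.Helper834.EC

open MvPolynomial

variable {n d : ℕ}

theorem isHomogeneous_contractR (T : Tensor n d) (k : Fin d) (j : Fin (n + 1)) :
    (contractR (fun i => (C (T i) : MvPolynomial (Fin (n + 1)) ℂ)) k X j).IsHomogeneous (d - 1) := by
  unfold contractR
  apply IsHomogeneous.sum
  intro i _
  split_ifs
  · have h1 : (∏ m ∈ Finset.univ.erase k, (X (i m) : MvPolynomial (Fin (n + 1)) ℂ)).IsHomogeneous
        (∑ m ∈ Finset.univ.erase k, 1) :=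
      IsHomogeneous.prod _ _ _ fun m _ => isHomogeneous_X _ _
    rw [Finset.sum_const, Finset.card_erase_of_mem (Finset.mem_univ k), Finset.card_univ,
      Fintype.card_fin, smul_eq_mul, mul_one] at h1
    have h2 := (isHomogeneous_C (Fin (n + 1)) (T i)).mul h1
    rwa [zero_add] at h2
  · exact isHomogeneous_zero _ _ _

theorem eval_contractR (T : Tensor n d) (k : Fin d) (j : Fin (n + 1)) (x : V n) :
    eval x (contractR (fun i => (C (T i) : MvPolynomial (Fin (n + 1)) ℂ)) k X j) =
      contractR T k x j := by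
  rw [map_contractR]
  congr 1
  · funext i
    exact eval_C _
  · funext a
    exact eval_X _

theorem sum_mul_contractR (T : Tensor n d) (k : Fin d) (x : V n) :
    ∑ j, x j * contractR T k x j = ∑ i : Fin d → Fin (n + 1), T i * ∏ m, x (i m) := by
  unfold contractR
  simp only [Finset.mul_sum]
  rw [Finset.sum_comm]
  refine Finset.sum_congr rfl fun i _ => ?_
  rw [Finset.sum_eq_single (i k)]
  · rw [if_pos rfl, ← Finset.mul_prod_erase Finset.univ (fun m => x (i m)) (Finset.mem_univ k)]
    ring
  · intro b _ hb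
    rw [if_neg (Ne.symm hb), mul_zero]
  · intro h; exact absurd (Finset.mem_univ _) h

theorem one_ne_zero_fin (hn : 1 ≤ n) : (1 : Fin (n + 1)) ≠ 0 := by
  intro h
  have := congrArg Fin.val h
  rw [Fin.val_one', Fin.val_zero, Nat.mod_eq_of_lt (by omega)] at this
  omega

/-- an isotropic vector -/
noncomputable def iso (n : ℕ) : V n := fun a => if a = 0 then 1 else if a = 1 then Complex.I else 0

theorem sum_iso (hn : 1 ≤ n) (f : Fin (n + 1) → ℂ → ℂ) (hf : ∀ a, f a 0 = 0) :
    ∑ a, f a (iso n a) = f 0 1 + f 1 Complex.I := by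
  rw [Fintype.sum_eq_add 0 1 (one_ne_zero_fin hn).symm]
  · unfold iso
    rw [if_pos rfl, if_neg (one_ne_zero_fin hn), if_pos rfl]
  · rintro x ⟨h1, h2⟩
    unfold iso
    rw [if_neg h1, if_neg h2, hf]

theorem form_iso_eq_zero (hn : 1 ≤ n) (T : Tensor n d) (k : Fin d) (h : IsEig T k (iso n)) :
    ∑ i : Fin d → Fin (n + 1), T i * ∏ m, iso n (i m) = 0 := by
  rw [← sum_mul_contractR T k]
  have h0 : iso n 0 = 1 := by unfold iso; rw [if_pos rfl]
  have h1 : ∀ j, contractR T k (iso n) j = iso n j * contractR T k (iso n) 0 := by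
    intro j
    have := h 0 j
    unfold minorR at this
    rw [h0, one_mul] at this
    exact sub_eq_zero.mp this
  have h2 : ∀ j, iso n j * contractR T k (iso n) j =
      (fun _ z => z ^ 2 * contractR T k (iso n) 0 : Fin (n + 1) → ℂ → ℂ) j (iso n j) := by
    intro j
    show iso n j * contractR T k (iso n) j = iso n j ^ 2 * contractR T k (iso n) 0
    rw [h1 j]; ring
  rw [Finset.sum_congr rfl fun j _ => h2 j,
    sum_iso hn (fun _ z => z ^ 2 * contractR T k (iso n) 0 : Fin (n + 1) → ℂ → ℂ)]
  · simp only [one_pow, Complex.I_sq]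
    ring
  · intro a
    simp

theorem form_T0_iso (hn : 1 ≤ n) (hd : 1 ≤ d) :
    ∑ i : Fin d → Fin (n + 1), T0 n d i * ∏ m, iso n (i m) ≠ 0 := by
  rw [← sum_mul_contractR (T0 n d) ⟨0, hd⟩]
  have h2 : ∀ j, iso n j * contractR (T0 n d) ⟨0, hd⟩ (iso n) j =
      (fun a z => wt a * z ^ d : Fin (n + 1) → ℂ → ℂ) j (iso n j) := by
    intro j
    rw [contract_T0]
    show iso n j * (wt j * iso n j ^ (d - 1)) = wt j * iso n j ^ d
    have : iso n j ^ d = iso n j ^ (d - 1) * iso n j := by
      rw [← pow_succ]; congr 1; omega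
    rw [this]; ring
  rw [Finset.sum_congr rfl fun j _ => h2 j,
    sum_iso hn (fun a z => wt a * z ^ d : Fin (n + 1) → ℂ → ℂ)]
  · unfold wt
    rw [if_pos rfl, if_neg (one_ne_zero_fin hn), one_pow, mul_one, one_mul]
    intro h
    have h3 : Complex.I ^ d = -2 := by linear_combination h
    have h4 := congrArg norm h3
    rw [norm_pow, Complex.norm_I, one_pow, norm_neg] at h4
    norm_num at h4
  · intro a
    show wt a * 0 ^ d = 0
    rw [zero_pow (by omega), mul_zero]

theorem rigid (hn : 1 ≤ n) (hd : 3 ≤ d) (T : Tensor n d)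
    (h : ∀ k (x : V n), (∀ a b, x a * (wt b * x b ^ (d - 1)) = x b * (wt a * x a ^ (d - 1))) →
      IsEig T k x) : ∃ c : ℂ, T - c • T0 n d ∈ K0 n d := by
  have h1 : ∀ k : Fin d, ∃ c : ℂ, ∀ x, IsEig (T - c • T0 n d) k x := by
    intro k
    obtain ⟨c, hc⟩ := rigid_poly (n := n) (m := d - 2) (by omega)
      (fun j => contractR (fun i => (C (T i) : MvPolynomial (Fin (n + 1)) ℂ)) k X j)
      (by
        intro j
        have := isHomogeneous_contractR T k j
        have hd1 : d - 2 + 1 = d - 1 := by omega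
        rwa [hd1]) (by
        intro x hx a b
        have hd1 : d - 2 + 1 = d - 1 := by omega
        rw [hd1] at hx
        have h2 := h k x (by
          intro a b
          rw [hx a, hx b]; ring) a b
        rw [eval_contractR, eval_contractR]
        unfold minorR at h2
        exact sub_eq_zero.mp h2)
    refine ⟨c, ?_⟩
    intro x a b
    have hd1 : d - 2 + 1 = d - 1 := by omega
    have h2 := congrArg (eval x) (hc a b)
    simp only [map_sub, map_mul, map_pow, eval_X, eval_C, eval_contractR] at h2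
    rw [hd1] at h2
    have h3 : T - c • T0 n d = T + (-c) • T0 n d := by rw [neg_smul, sub_eq_add_neg]
    rw [h3, minorR_add, minorR_smul]
    unfold minorR
    rw [contract_T0, contract_T0]
    linear_combination h2
  choose c hc using h1
  set F : Tensor n d → ℂ := fun T => ∑ i : Fin d → Fin (n + 1), T i * ∏ m, iso n (i m) with hF
  have hF0 : F (T0 n d) ≠ 0 := form_T0_iso hn (by omega)
  have hck : ∀ k, c k = F T / F (T0 n d) := by
    intro k
    have h2 := form_iso_eq_zero hn (T - c k • T0 n d) k (hc k _)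
    have h3 : F T - c k * F (T0 n d) = 0 := by
      rw [← h2, hF]
      simp only [Pi.sub_apply, Pi.smul_apply, smul_eq_mul, sub_mul, Finset.sum_sub_distrib,
        Finset.mul_sum, mul_assoc]
    rw [eq_div_iff hF0]
    linear_combination -h3
  refine ⟨F T / F (T0 n d), ?_⟩
  intro k x
  rw [← hck k]
  exact hc k x

end Pool.Agent.Helper834.EC
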