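import Mathlib
import Pool.Agent.Helper834.EC.Rigid3

namespace Pool.Agent.Helper834.EC

open MvPolynomial

variable {n d : ℕ}

/-- the polynomial contraction -/
noncomputable def phiP (k : Fin d) (j : Fin (n + 1)) :
    Tensor n d →ₗ[ℂ] MvPolynomial (Fin (n + 1)) ℂ where
  toFun T := contractR (fun i => C (T i)) k X j
  map_add' T T' := by
    rw [← contractR_add]
    congr 1
    funext i
    show C (T i + T' i) = C (T i) + C (T' i)
    rw [C_add]
  map_smul' c T := by
    have h := contractR_smul (C c) (fun i => (C (T i) : MvPolynomial (Fin (n + 1)) ℂ)) k X j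
    rw [RingHom.id_apply, smul_eq_C_mul, ← h]
    congr 1
    funext i
    show C (c * T i) = C c * C (T i)
    rw [C_mul]

/-- the associated form -/
noncomputable def formP (n d : ℕ) : Tensor n d →ₗ[ℂ] MvPolynomial (Fin (n + 1)) ℂ where
  toFun T := ∑ i : Fin d → Fin (n + 1), C (T i) * ∏ m, X (i m)
  map_add' T T' := by
    rw [← Finset.sum_add_distrib]
    refine Finset.sum_congr rfl fun i _ => ?_
    rw [Pi.add_apply, C_add, add_mul]
  map_smul' c T := by
    rw [RingHom.id_apply, smul_eq_C_mul, Finset.mul_sum]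
    refine Finset.sum_congr rfl fun i _ => ?_
    rw [Pi.smul_apply, smul_eq_mul, C_mul, mul_assoc]

theorem phiP_apply (k : Fin d) (j : Fin (n + 1)) (T : Tensor n d) :
    phiP k j T = contractR (fun i => C (T i)) k X j := rfl

theorem formP_apply (T : Tensor n d) :
    formP n d T = ∑ i : Fin d → Fin (n + 1), C (T i) * ∏ m, X (i m) := rfl

theorem eval_phiP (k : Fin d) (j : Fin (n + 1)) (T : Tensor n d) (x : V n) :
    eval x (phiP k j T) = contractR T k x j := eval_contractR T k j x

theorem phiP_homog (k : Fin d) (j : Fin (n + 1)) (T : Tensor n d) :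
    (phiP k j T).IsHomogeneous (d - 1) := isHomogeneous_contractR T k j

theorem sum_X_phiP (k : Fin d) (T : Tensor n d) : ∑ j, X j * phiP k j T = formP n d T := by
  rw [formP_apply]
  simp only [phiP_apply]
  unfold contractR
  simp only [Finset.mul_sum]
  rw [Finset.sum_comm]
  refine Finset.sum_congr rfl fun i _ => ?_
  rw [Finset.sum_eq_single (i k)]
  · rw [if_pos rfl, ← Finset.mul_prod_erase Finset.univ
      (fun m => (X (i m) : MvPolynomial (Fin (n + 1)) ℂ)) (Finset.mem_univ k)]
    ring
  · intro b _ hb
    rw [if_neg (Ne.symm hb), mul_zero]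
  · intro h; exact absurd (Finset.mem_univ _) h

theorem pderiv_prod {ι : Type*} [DecidableEq ι] (s : Finset ι)
    (f : ι → MvPolynomial (Fin (n + 1)) ℂ) (j : Fin (n + 1)) :
    pderiv j (∏ m ∈ s, f m) = ∑ k ∈ s, pderiv j (f k) * ∏ m ∈ s.erase k, f m := by
  induction s using Finset.induction_on with
  | empty => simp
  | insert a s ha ih =>
    rw [Finset.prod_insert ha, pderiv_mul, ih, Finset.sum_insert ha, Finset.erase_insert ha]
    congr 1
    rw [Finset.mul_sum]
    refine Finset.sum_congr rfl fun k hk => ?_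
    have hka : k ≠ a := fun h => ha (h ▸ hk)
    rw [Finset.erase_insert_of_ne hka.symm, Finset.prod_insert]
    · ring
    · intro h
      exact ha (Finset.mem_of_mem_erase h)

theorem pderiv_formP (j : Fin (n + 1)) (T : Tensor n d) :
    pderiv j (formP n d T) = ∑ k, phiP k j T := by
  rw [formP_apply, map_sum]
  simp only [phiP_apply]
  unfold contractR
  rw [Finset.sum_comm]
  refine Finset.sum_congr rfl fun i _ => ?_
  rw [pderiv_C_mul, pderiv_prod, Finset.mul_sum]
  refine Finset.sum_congr rfl fun k _ => ?_
  rw [pderiv_X]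
  split_ifs with h
  · rw [h, Pi.single_eq_same, one_mul]
  · rw [Pi.single_eq_of_ne h, zero_mul, mul_zero]

/-- the tensors all of whose contractions vanish -/
noncomputable def K00 (n d : ℕ) : Submodule ℂ (Tensor n d) := ⨅ k, ⨅ j, LinearMap.ker (phiP k j)

theorem mem_K00 (T : Tensor n d) : T ∈ K00 n d ↔ ∀ k j, phiP k j T = 0 := by
  unfold K00
  simp only [Submodule.mem_iInf, LinearMap.mem_ker]

theorem mem_K0_iff (T : Tensor n d) :
    T ∈ K0 n d ↔ ∀ k a b, X a * phiP k b T = X b * phiP k a T := by
  constructor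
  · intro h k a b
    apply MvPolynomial.funext
    intro x
    rw [map_mul, map_mul, eval_X, eval_X, eval_phiP, eval_phiP]
    have := h k x a b
    unfold minorR at this
    exact sub_eq_zero.mp this
  · intro h k x a b
    have := congrArg (eval x) (h k a b)
    rw [map_mul, map_mul, eval_X, eval_X, eval_phiP, eval_phiP] at this
    unfold minorR
    rw [this, sub_self]

theorem K00_le_K0 : K00 n d ≤ K0 n d := by
  intro T hT
  rw [mem_K00] at hT
  rw [mem_K0_iff]
  intro k a b
  rw [hT, hT, mul_zero, mul_zero]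

end Pool.Agent.Helper834.EC
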