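import Mathlib
import Pool.Agent.Helper834.EC.Dim1

namespace Pool.Agent.Helper834.EC

open Order TopologicalSpace Topology

/-- irreducible closed sets lift along closed maps from Noetherian spaces -/
theorem exists_irred_lift {A B : Type*} [TopologicalSpace A] [TopologicalSpace B]
    [NoetherianSpace A] (q : A → B) (hc : Continuous q) (hcl : IsClosedMap q)
    (K : Set A) (hK : IsClosed K) (Z : IrreducibleCloseds B) (hZ : (Z : Set B) ⊆ q '' K) :
    ∃ C : IrreducibleCloseds A, (C : Set A) ⊆ K ∧ q '' (C : Set A) = Z := by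
  classical
  have hcl2 : IsClosed (K ∩ q ⁻¹' (Z : Set B)) := hK.inter (Z.isClosed.preimage hc)
  obtain ⟨S, hSf, hSc, hSi, hSU⟩ := NoetherianSpace.exists_finite_set_isClosed_irreducible hcl2
  have himg : (Z : Set B) = ⋃₀ ((fun t => q '' t) '' S) := by
    apply Set.Subset.antisymm
    · intro z hz
      obtain ⟨x, hx, rfl⟩ := hZ hz
      have : x ∈ K ∩ q ⁻¹' (Z : Set B) := ⟨hx, hz⟩
      rw [hSU] at this
      obtain ⟨t, ht, hxt⟩ := this
      exact ⟨q '' t, ⟨t, ht, rfl⟩, ⟨x, hxt, rfl⟩⟩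
    · rintro z ⟨_, ⟨t, ht, rfl⟩, ⟨x, hxt, rfl⟩⟩
      have : x ∈ K ∩ q ⁻¹' (Z : Set B) := by rw [hSU]; exact ⟨t, ht, hxt⟩
      exact this.2
  have hfin : ((fun t => q '' t) '' S).Finite := hSf.image _
  obtain ⟨z, hz, hz2⟩ := (isIrreducible_iff_sUnion_isClosed.mp Z.isIrreducible) hfin.toFinset
    (by
      intro z hz
      rw [Set.Finite.mem_toFinset] at hz
      obtain ⟨t, ht, rfl⟩ := hz
      exact hcl t (hSc t ht))
    (by rw [Set.Finite.coe_toFinset, ← himg])
  rw [Set.Finite.mem_toFinset] at hz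
  obtain ⟨t, ht, rfl⟩ := hz
  have htsub : t ⊆ K ∩ q ⁻¹' (Z : Set B) := by
    rw [hSU]; exact Set.subset_sUnion_of_mem ht
  refine ⟨⟨t, hSi t ht, hSc t ht⟩, fun x hx => (htsub hx).1, ?_⟩
  apply Set.Subset.antisymm
  · rintro _ ⟨x, hx, rfl⟩
    exact (htsub hx).2
  · exact hz2

theorem dim_le_of_closed_surj {A B : Type*} [TopologicalSpace A] [TopologicalSpace B]
    [NoetherianSpace A] (q : A → B) (hc : Continuous q) (hcl : IsClosedMap q)
    (hs : Function.Surjective q) : topologicalKrullDim B ≤ topologicalKrullDim A := by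
  let π : IrreducibleCloseds A → IrreducibleCloseds B := fun C =>
    ⟨q '' (C : Set A), C.isIrreducible.image q hc.continuousOn, hcl _ C.isClosed⟩
  refine krullDim_le_of_lift_down π ?_ ?_
  · intro Z
    obtain ⟨C, -, hC⟩ := exists_irred_lift q hc hcl Set.univ isClosed_univ Z
      (by rw [Set.image_univ, hs.range_eq]; exact Set.subset_univ _)
    exact ⟨C, IrreducibleCloseds.ext hC⟩
  · intro C Z hZ
    obtain ⟨C', hC'1, hC'2⟩ := exists_irred_lift q hc hcl (C : Set A) C.isClosed Z hZ.le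
    refine ⟨C', lt_of_le_of_ne hC'1 ?_, IrreducibleCloseds.ext hC'2⟩
    intro h
    apply hZ.ne
    apply IrreducibleCloseds.ext
    rw [← hC'2, h]
    rfl

theorem dim_le_of_finite_quot {A B G : Type*} [TopologicalSpace A] [TopologicalSpace B]
    [Finite G] (q : A → B) (hc : Continuous q) (hcl : IsClosedMap q)
    (φ : G → A → A) (hφc : ∀ g, Continuous (φ g))
    (hord : ∀ g, ∃ m : ℕ, 0 < m ∧ (φ g)^[m] = id)
    (hq : ∀ x y, q x = q y → ∃ g, φ g x = y) :
    topologicalKrullDim A ≤ topologicalKrullDim B := by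
  classical
  let π : IrreducibleCloseds A → IrreducibleCloseds B := fun C =>
    ⟨q '' (C : Set A), C.isIrreducible.image q hc.continuousOn, hcl _ C.isClosed⟩
  refine krullDim_le_of_strictMono π ?_
  intro C0 C1 h01
  have hle : (C0 : Set A) ⊆ C1 := h01.le
  refine lt_of_le_of_ne (show (q '' (C0 : Set A)) ⊆ q '' (C1 : Set A) from Set.image_mono hle) ?_
  intro heq
  have heq' : q '' (C0 : Set A) = q '' (C1 : Set A) := congrArg (fun Z : IrreducibleCloseds B => (Z : Set B)) heq
  -- cover of C1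
  haveI := Fintype.ofFinite G
  have hcov : (C1 : Set A) ⊆ ⋃₀ ((Finset.univ.image fun g : G => φ g ⁻¹' (C0 : Set A) : Finset (Set A)) : Set (Set A)) := by
    intro x hx
    have : q x ∈ q '' (C0 : Set A) := by rw [heq']; exact ⟨x, hx, rfl⟩
    obtain ⟨y, hy, hyx⟩ := this
    obtain ⟨g, hg⟩ := hq x y hyx.symm
    refine ⟨φ g ⁻¹' (C0 : Set A), ?_, ?_⟩
    · simp
    · show φ g x ∈ (C0 : Set A)
      rw [hg]; exact hy
  obtain ⟨z, hz, hz2⟩ := (isIrreducible_iff_sUnion_isClosed.mp C1.isIrreducible) _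
    (by
      intro z hz
      rw [Finset.mem_image] at hz
      obtain ⟨g, -, rfl⟩ := hz
      exact C0.isClosed.preimage (hφc g)) hcov
  rw [Finset.mem_image] at hz
  obtain ⟨g, -, rfl⟩ := hz
  have hmap : ∀ x ∈ (C1 : Set A), φ g x ∈ (C0 : Set A) := fun x hx => hz2 hx
  obtain ⟨m, hm, hm2⟩ := hord g
  have hiter : ∀ k : ℕ, ∀ x ∈ (C1 : Set A), (φ g)^[k + 1] x ∈ (C0 : Set A) := by
    intro k
    induction k with
    | zero => intro x hx; simpa using hmap x hx
    | succ k ih =>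
      intro x hx
      rw [Function.iterate_succ_apply']
      exact hmap _ (hle (ih x hx))
  have hsub : (C1 : Set A) ⊆ C0 := by
    intro x hx
    have := hiter (m - 1) x hx
    rw [Nat.sub_add_cancel hm, hm2] at this
    exact this
  exact h01.not_ge hsub

theorem dim_le_of_charts {A C : Type*} [TopologicalSpace A] (m : WithBot ℕ∞) (B : C → Type*)
    [∀ c, TopologicalSpace (B c)] (f : ∀ c, B c → A) (hf : ∀ c, IsOpenEmbedding (f c))
    (hcov : ∀ x, ∃ c, x ∈ Set.range (f c)) (h : ∀ c, topologicalKrullDim (B c) ≤ m) :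
    topologicalKrullDim A ≤ m := by
  refine iSup_le fun p => ?_
  obtain ⟨x, hx⟩ := (p.head).isIrreducible.nonempty
  obtain ⟨c, y, hy⟩ := hcov x
  refine le_trans ?_ (h c)
  have hmem : ∀ i, (f c ⁻¹' (p i : Set A)).Nonempty := by
    intro i
    refine ⟨y, ?_⟩
    show f c y ∈ (p i : Set A)
    rw [hy]
    exact (p.head_le i) hx
  let q : LTSeries {V : IrreducibleCloseds A | (f c ⁻¹' (V : Set A)).Nonempty} :=
    LTSeries.mk p.length (fun i => ⟨p i, hmem i⟩) (fun i j hij => p.strictMono hij)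
  let e := IrreducibleCloseds.orderIsoOfIsOpenEmbedding (f c) (hf c)
  have h1 : (q.length : WithBot ℕ∞) ≤ krullDim {V : IrreducibleCloseds A | (f c ⁻¹' (V : Set A)).Nonempty} :=
    LTSeries.length_le_krullDim q
  have h2 := krullDim_eq_of_orderIso e
  rw [← h2] at h1
  exact h1

end Pool.Agent.Helper834.EC
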