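import Mathlib
import Pool.Agent.Helper834.EC.Defs
import Pool.Agent.Helper834.EC.Topo1
import Pool.Agent.Helper834.EC.Dim2

namespace Pool.Agent.Helper834.EC

open Order TopologicalSpace Topology MvPolynomial

theorem aff_isClosed_iff {σ : Type} (Z : Set (Aff σ)) :
    IsClosed Z ↔ ∃ S : Set (MvPolynomial σ ℂ), Z = zeros S := by
  rw [← isOpen_compl_iff]
  show Zᶜᶜ ∈ {Z | ∃ S : Set (MvPolynomial σ ℂ), Z = zeros S} ↔ _
  rw [compl_compl]
  exact Iff.rfl

theorem isClosed_zeros {σ : Type} (S : Set (MvPolynomial σ ℂ)) : IsClosed (zeros S) :=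
  (aff_isClosed_iff _).mpr ⟨S, rfl⟩

theorem aff_continuous {σ τ : Type} (F : Aff σ → Aff τ) (P : τ → MvPolynomial σ ℂ)
    (h : ∀ x t, F x t = eval (fun i => x i) (P t)) : Continuous F := by
  rw [continuous_iff_isClosed]
  intro Z hZ
  obtain ⟨S, rfl⟩ := (aff_isClosed_iff Z).mp hZ
  rw [aff_isClosed_iff]
  refine ⟨(fun f => bind₁ P f) '' S, ?_⟩
  ext x
  have key : ∀ f : MvPolynomial τ ℂ, eval (fun i => x i) (bind₁ P f) = eval (fun i => F x i) f := by
    intro f
    have h1 : (fun i => F x i) = fun i => eval (fun i => x i) (P i) := funext fun i => h x i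
    rw [h1]
    simp only [← MvPolynomial.coe_aeval_eq_eval, RingHom.coe_coe]
    rw [aeval_bind₁]
  constructor
  · rintro hx _ ⟨f, hf, rfl⟩
    rw [key]
    exact hx f hf
  · intro hx f hf
    show eval (fun i => F x i) f = 0
    rw [← key]
    exact hx _ ⟨f, hf, rfl⟩

/-- the ideal of a subset -/
noncomputable def idl {σ : Type} (S : Set (Aff σ)) : Ideal (MvPolynomial σ ℂ) :=
  vanishingIdeal ℂ (K := ℂ) (σ := σ) S

theorem mem_idl {σ : Type} (S : Set (Aff σ)) (f : MvPolynomial σ ℂ) :
    f ∈ idl S ↔ ∀ x ∈ S, eval (fun i => x i) f = 0 := by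
  show (∀ x ∈ S, aeval (R := ℂ) (S₁ := ℂ) (fun i => x i) f = 0) ↔ _
  simp only [MvPolynomial.aeval_eq_eval]

theorem closure_eq_zeros {σ : Type} (S : Set (Aff σ)) : closure S = zeros (idl S : Set (MvPolynomial σ ℂ)) := by
  apply Set.Subset.antisymm
  · refine closure_minimal ?_ (isClosed_zeros _)
    intro x hx f hf
    exact (mem_idl S f).mp hf x hx
  · intro x hx
    rw [closure, Set.mem_sInter]
    rintro t ⟨ht, hSt⟩
    obtain ⟨T, rfl⟩ := (aff_isClosed_iff t).mp ht
    intro f hf
    apply hx
    rw [SetLike.mem_coe, mem_idl]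
    intro y hy
    exact hSt hy f hf

theorem idl_isPrime_of_irreducible {σ : Type} (Z : Set (Aff σ)) (hZ : IsIrreducible Z) :
    (idl Z).IsPrime := by
  constructor
  · intro h
    obtain ⟨x, hx⟩ := hZ.nonempty
    have : (1 : MvPolynomial σ ℂ) ∈ idl Z := by rw [h]; trivial
    rw [mem_idl] at this
    simpa using this x hx
  · intro f g hfg
    have h1 := (isPreirreducible_iff_isClosed_union_isClosed.mp hZ.isPreirreducible)
      (zeros {f}) (zeros {g}) (isClosed_zeros _) (isClosed_zeros _) (by
        intro x hx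
        have := (mem_idl Z _).mp hfg x hx
        rw [map_mul] at this
        rcases mul_eq_zero.mp this with h | h
        · left; intro k hk; rw [Set.mem_singleton_iff.mp hk]; exact h
        · right; intro k hk; rw [Set.mem_singleton_iff.mp hk]; exact h)
    rcases h1 with h | h
    · left; rw [mem_idl]; intro x hx; exact h hx f rfl
    · right; rw [mem_idl]; intro x hx; exact h hx g rfl

theorem idl_zeros_prime {σ : Type} [Finite σ] (P : Ideal (MvPolynomial σ ℂ)) (hP : P.IsPrime) :
    idl (zeros (P : Set (MvPolynomial σ ℂ))) = P := by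
  have h1 := IsPrime.vanishingIdeal_zeroLocus (k := ℂ) (K := ℂ) P
  have h2 : (zeroLocus ℂ P : Set (σ → ℂ)) = (zeros (P : Set (MvPolynomial σ ℂ)) : Set (Aff σ)) := by
    ext x
    show (∀ p ∈ P, aeval x p = 0) ↔ (∀ p ∈ P, eval (fun i => x i) p = 0)
    simp only [MvPolynomial.aeval_eq_eval]
  rw [h2] at h1
  exact h1

theorem dim_closure_le {σ : Type} (S : Set (Aff σ)) :
    topologicalKrullDim (closure S) ≤ ringKrullDim (MvPolynomial σ ℂ ⧸ idl S) := by
  rw [ringKrullDim_quotient, ← krullDim_orderDual]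
  let f : IrreducibleCloseds (closure S) →
      (PrimeSpectrum.zeroLocus ((idl S : Ideal (MvPolynomial σ ℂ)) : Set (MvPolynomial σ ℂ)))ᵒᵈ := fun Z =>
    OrderDual.toDual ⟨⟨idl (Subtype.val '' (Z : Set (closure S))), idl_isPrime_of_irreducible _
      (Z.isIrreducible.image _ continuous_subtype_val.continuousOn)⟩, by
        intro p hp
        show p ∈ idl _
        rw [mem_idl]
        rintro _ ⟨x, hx, rfl⟩
        have h1 : (x : Aff σ) ∈ zeros (idl S : Set (MvPolynomial σ ℂ)) :=
          (closure_eq_zeros S) ▸ x.2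
        exact h1 p hp⟩
  refine krullDim_le_of_strictMono f ?_
  have hzero : ∀ Z : IrreducibleCloseds (closure S),
      zeros ((idl (Subtype.val '' (Z : Set (closure S))) : Ideal (MvPolynomial σ ℂ)) : Set (MvPolynomial σ ℂ))
        = Subtype.val '' (Z : Set (closure S)) := by
    intro Z
    rw [← closure_eq_zeros]
    exact (isClosed_closure.isClosedEmbedding_subtypeVal.isClosedMap _ Z.isClosed).closure_eq
  intro Z W hZW
  refine lt_of_le_of_ne ?_ ?_
  · show idl (Subtype.val '' (W : Set (closure S))) ≤ idl (Subtype.val '' (Z : Set (closure S)))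
    intro p hp
    rw [mem_idl] at hp ⊢
    rintro _ ⟨x, hx, rfl⟩
    exact hp _ ⟨x, hZW.le hx, rfl⟩
  · intro heq
    have h1 : idl (Subtype.val '' (Z : Set (closure S))) = idl (Subtype.val '' (W : Set (closure S))) := by
      have := congrArg (fun P => (OrderDual.ofDual P).1.asIdeal) heq
      exact this
    have h2 : Subtype.val '' (Z : Set (closure S)) = Subtype.val '' (W : Set (closure S)) := by
      rw [← hzero Z, ← hzero W, h1]
    have h3 := Subtype.val_injective.image_injective h2
    exact hZW.ne (IrreducibleCloseds.ext h3)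

theorem le_dim_closure {σ : Type} [Finite σ] (S : Set (Aff σ)) :
    ringKrullDim (MvPolynomial σ ℂ ⧸ idl S) ≤ topologicalKrullDim (closure S) := by
  rw [ringKrullDim_quotient, ← krullDim_orderDual]
  -- the closed set of a prime
  have hsub : ∀ P : PrimeSpectrum.zeroLocus ((idl S : Ideal (MvPolynomial σ ℂ)) : Set (MvPolynomial σ ℂ)),
      zeros (P.1.asIdeal : Set (MvPolynomial σ ℂ)) ⊆ closure S := by
    intro P x hx
    rw [closure_eq_zeros]
    intro f hf
    exact hx f (P.2 hf)
  have hirr : ∀ P : PrimeSpectrum.zeroLocus ((idl S : Ideal (MvPolynomial σ ℂ)) : Set (MvPolynomial σ ℂ)),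
      IsIrreducible (Subtype.val ⁻¹' (zeros (P.1.asIdeal : Set (MvPolynomial σ ℂ))) : Set (closure S)) := by
    intro P
    have hPp := P.1.isPrime
    constructor
    · by_contra hne
      rw [Set.not_nonempty_iff_eq_empty] at hne
      have h1 : zeros (P.1.asIdeal : Set (MvPolynomial σ ℂ)) = ∅ := by
        rw [Set.eq_empty_iff_forall_notMem] at hne ⊢
        intro x hx
        exact hne ⟨x, hsub P hx⟩ hx
      have h2 := idl_zeros_prime P.1.asIdeal hPp
      rw [h1] at h2
      apply hPp.ne_top
      rw [← h2, Ideal.eq_top_iff_one, mem_idl]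
      intro x hx
      exact absurd hx (Set.notMem_empty x)
    · rw [isPreirreducible_iff_isClosed_union_isClosed]
      intro Z1 Z2 hZ1 hZ2 hcov
      by_contra hcon
      rw [not_or] at hcon
      obtain ⟨hc1, hc2⟩ := hcon
      rw [isClosed_induced_iff] at hZ1 hZ2
      obtain ⟨W1, hW1, rfl⟩ := hZ1
      obtain ⟨W2, hW2, rfl⟩ := hZ2
      obtain ⟨T1, rfl⟩ := (aff_isClosed_iff _).mp hW1
      obtain ⟨T2, rfl⟩ := (aff_isClosed_iff _).mp hW2
      have hex : ∀ T : Set (MvPolynomial σ ℂ),
          ¬ ((Subtype.val ⁻¹' (zeros (P.1.asIdeal : Set (MvPolynomial σ ℂ))) : Set (closure S)) ⊆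
            Subtype.val ⁻¹' (zeros T)) → ∃ f ∈ T, f ∉ P.1.asIdeal := by
        intro T hT
        by_contra hcon
        push Not at hcon
        apply hT
        intro x hx f hf
        exact hx f (hcon f hf)
      obtain ⟨f1, hf1, hf1'⟩ := hex T1 hc1
      obtain ⟨f2, hf2, hf2'⟩ := hex T2 hc2
      have h12 : f1 * f2 ∉ P.1.asIdeal := fun h => (hPp.mem_or_mem h).elim hf1' hf2'
      rw [← idl_zeros_prime P.1.asIdeal hPp, mem_idl] at h12
      push Not at h12
      obtain ⟨x, hx, hx2⟩ := h12
      rw [map_mul] at hx2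
      rcases hcov (show (⟨x, hsub P hx⟩ : closure S) ∈ Subtype.val ⁻¹' (zeros (P.1.asIdeal : Set (MvPolynomial σ ℂ))) from hx) with h | h
      · exact (left_ne_zero_of_mul hx2) (h f1 hf1)
      · exact (right_ne_zero_of_mul hx2) (h f2 hf2)
  let g : (PrimeSpectrum.zeroLocus ((idl S : Ideal (MvPolynomial σ ℂ)) : Set (MvPolynomial σ ℂ)))ᵒᵈ →
      IrreducibleCloseds (closure S) := fun P =>
    ⟨Subtype.val ⁻¹' (zeros ((OrderDual.ofDual P).1.asIdeal : Set (MvPolynomial σ ℂ))), hirr _,
      (isClosed_zeros _).preimage continuous_subtype_val⟩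
  refine krullDim_le_of_strictMono g ?_
  intro P Q hPQ
  have hle : (OrderDual.ofDual Q).1.asIdeal ≤ (OrderDual.ofDual P).1.asIdeal := hPQ.le
  refine lt_of_le_of_ne ?_ ?_
  · intro x hx f hf
    exact hx f (hle hf)
  · intro heq
    have h1 : (Subtype.val ⁻¹' (zeros ((OrderDual.ofDual P).1.asIdeal : Set (MvPolynomial σ ℂ))) : Set (closure S))
        = Subtype.val ⁻¹' (zeros ((OrderDual.ofDual Q).1.asIdeal : Set (MvPolynomial σ ℂ))) :=
      congrArg (fun Z : IrreducibleCloseds (closure S) => (Z : Set (closure S))) heq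
    have h2 : zeros ((OrderDual.ofDual P).1.asIdeal : Set (MvPolynomial σ ℂ)) =
        zeros ((OrderDual.ofDual Q).1.asIdeal : Set (MvPolynomial σ ℂ)) := by
      ext x
      constructor
      · intro hx
        have : (⟨x, hsub _ hx⟩ : closure S) ∈ (Subtype.val ⁻¹' (zeros ((OrderDual.ofDual P).1.asIdeal : Set (MvPolynomial σ ℂ))) : Set (closure S)) := hx
        rw [h1] at this
        exact this
      · intro hx
        have : (⟨x, hsub _ hx⟩ : closure S) ∈ (Subtype.val ⁻¹' (zeros ((OrderDual.ofDual Q).1.asIdeal : Set (MvPolynomial σ ℂ))) : Set (closure S)) := hx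
        rw [← h1] at this
        exact this
    have h3 : (OrderDual.ofDual P).1.asIdeal = (OrderDual.ofDual Q).1.asIdeal := by
      rw [← idl_zeros_prime _ (OrderDual.ofDual P).1.isPrime, h2,
        idl_zeros_prime _ (OrderDual.ofDual Q).1.isPrime]
    exact hPQ.ne (by
      apply OrderDual.ofDual.injective
      exact Subtype.ext (PrimeSpectrum.ext h3))

instance {σ : Type} [Finite σ] : NoetherianSpace (Aff σ) := by
  have : IsInducing (fun x : Aff σ => (pointToPoint (k := ℂ) (K := ℂ) (σ := σ) x : PrimeSpectrum (MvPolynomial σ ℂ))) := by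
    rw [isInducing_iff]
    apply TopologicalSpace.ext_isClosed
    intro Z
    rw [isClosed_induced_iff, aff_isClosed_iff]
    constructor
    · rintro ⟨S, rfl⟩
      refine ⟨PrimeSpectrum.zeroLocus S, PrimeSpectrum.isClosed_zeroLocus S, ?_⟩
      ext x
      show (S ⊆ _) ↔ _
      constructor
      · intro h f hf
        have := h hf
        have h2 := (mem_vanishingIdeal_singleton_iff (k := ℂ) (K := ℂ) x f).mp this
        simpa [MvPolynomial.aeval_eq_eval] using h2
      · intro h f hf
        refine (mem_vanishingIdeal_singleton_iff (k := ℂ) (K := ℂ) x f).mpr ?_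
        have := h f hf
        simpa [MvPolynomial.aeval_eq_eval] using this
    · rintro ⟨W, hW, rfl⟩
      obtain ⟨S, rfl⟩ := (PrimeSpectrum.isClosed_iff_zeroLocus W).mp hW
      refine ⟨S, ?_⟩
      ext x
      show (S ⊆ _) ↔ _
      constructor
      · intro h f hf
        have := h hf
        have h2 := (mem_vanishingIdeal_singleton_iff (k := ℂ) (K := ℂ) x f).mp this
        simpa [MvPolynomial.aeval_eq_eval] using h2
      · intro h f hf
        refine (mem_vanishingIdeal_singleton_iff (k := ℂ) (K := ℂ) x f).mpr ?_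
        have := h f hf
        simpa [MvPolynomial.aeval_eq_eval] using this
  exact this.noetherianSpace

end Pool.Agent.Helper834.EC
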