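import Mathlib
import Pool.Agent.Helper834.EC.Topo2

namespace Pool.Agent.Helper834.EC

open Order TopologicalSpace Topology MvPolynomial
open scoped LinearAlgebra.Projectivization

section charts

variable {ι κ : Type} [Fintype ι] [Fintype κ] [DecidableEq ι] [DecidableEq κ]

/-- coordinates -/
abbrev YY (ι κ : Type) : Type := {y : Aff (ι × κ) // ∀ i, (fun a => y (i, a)) ≠ (0 : κ → ℂ)}

/-- ordered tuples of points -/
def XX (ι κ : Type) : Type := ι → ℙ ℂ (κ → ℂ)

noncomputable def toX (y : YY ι κ) : XX ι κ := fun i =>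
  Projectivization.mk ℂ (fun a => y.1 (i, a)) (y.2 i)

noncomputable instance (ι κ : Type) : TopologicalSpace (XX ι κ) :=
  TopologicalSpace.coinduced toX inferInstance

omit [Fintype ι] [Fintype κ] [DecidableEq ι] [DecidableEq κ] in
theorem toX_continuous : Continuous (toX : YY ι κ → XX ι κ) := continuous_coinduced_rng

omit [Fintype ι] [Fintype κ] [DecidableEq ι] [DecidableEq κ] in
theorem toX_surjective : Function.Surjective (toX : YY ι κ → XX ι κ) := by
  intro x
  refine ⟨⟨fun p => (x p.1).rep p.2, fun i => (x i).rep_nonzero⟩, ?_⟩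
  funext i
  exact (x i).mk_rep

/-- affine charts -/
abbrev Ac (c : ι → κ) : Type := {y : Aff (ι × κ) // ∀ i, y (i, c i) = 1}

def acToY (c : ι → κ) (y : Ac c) : YY ι κ := ⟨y.1, fun i h => by
  have := congrFun h (c i)
  simp only [y.2 i, Pi.zero_apply] at this
  exact one_ne_zero this⟩

noncomputable def jc (c : ι → κ) (y : Ac c) : XX ι κ := toX (acToY c y)

omit [Fintype ι] [Fintype κ] [DecidableEq ι] [DecidableEq κ] in
theorem jc_continuous (c : ι → κ) : Continuous (jc c) := by
  refine toX_continuous.comp ?_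
  exact Continuous.subtype_mk continuous_subtype_val _

omit [Fintype ι] [Fintype κ] [DecidableEq ι] [DecidableEq κ] in
theorem toX_eq_jc_iff (c : ι → κ) (y : YY ι κ) (z : Ac c) :
    toX y = jc c z ↔ (∀ i, y.1 (i, c i) ≠ 0) ∧ ∀ i a, z.1 (i, a) = y.1 (i, a) / y.1 (i, c i) := by
  constructor
  · intro h
    have h1 : ∀ i, ∃ l : ℂˣ, l • (fun a => z.1 (i, a)) = fun a => y.1 (i, a) := by
      intro i
      have := congrFun h i
      exact (Projectivization.mk_eq_mk_iff ℂ _ _ _ _).mp this
    have h2 : ∀ i, ∀ l : ℂˣ, (l • (fun a => z.1 (i, a)) = fun a => y.1 (i, a)) → (l : ℂ) = y.1 (i, c i) := by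
      intro i l hl
      have := congrFun hl (c i)
      simp only [Pi.smul_apply, z.2 i, Units.smul_def, smul_eq_mul, mul_one] at this
      exact this
    constructor
    · intro i
      obtain ⟨l, hl⟩ := h1 i
      rw [← h2 i l hl]
      exact l.ne_zero
    · intro i a
      obtain ⟨l, hl⟩ := h1 i
      rw [← h2 i l hl]
      have := congrFun hl a
      simp only [Pi.smul_apply, Units.smul_def, smul_eq_mul] at this
      rw [← this, mul_div_cancel_left₀ _ l.ne_zero]
  · rintro ⟨h1, h2⟩
    funext i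
    refine (Projectivization.mk_eq_mk_iff' ℂ _ _ _ _).mpr ⟨y.1 (i, c i), ?_⟩
    funext a
    show y.1 (i, c i) * z.1 (i, a) = y.1 (i, a)
    rw [h2, mul_div_cancel₀ _ (h1 i)]

omit [Fintype ι] [Fintype κ] [DecidableEq ι] [DecidableEq κ] in
theorem jc_injective (c : ι → κ) : Function.Injective (jc c) := by
  intro y z h
  have := (toX_eq_jc_iff c (acToY c y) z).mp h
  apply Subtype.ext
  funext p
  have h2 := this.2 p.1 p.2
  have h3 : (acToY c y).1 (p.1, c p.1) = 1 := y.2 p.1
  rw [h3, div_one] at h2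
  exact h2.symm

omit [Fintype κ] [DecidableEq κ] in
theorem jc_open (c : ι → κ) : IsOpenMap (jc c) := by
  intro U hU
  show IsOpen (toX ⁻¹' (jc c '' U))
  obtain ⟨U', hU', rfl⟩ := isOpen_induced_iff.mp hU
  obtain ⟨T, hT⟩ := (aff_isClosed_iff _).mp hU'.isClosed_compl
  -- clear denominators
  let p0 : MvPolynomial (ι × κ) ℂ := ∏ i, X (i, c i)
  let p : ι × κ → MvPolynomial (ι × κ) ℂ := fun q => X q * ∏ i ∈ Finset.univ.erase q.1, X (i, c i)
  have hcd : ∀ f : MvPolynomial (ι × κ) ℂ, ∃ (e : ℕ) (H : MvPolynomial (ι × κ) ℂ), ∀ y : ι × κ → ℂ,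
      (∀ i, y (i, c i) ≠ 0) → aeval y H = (aeval y p0) ^ e * aeval (fun q => y q / y (q.1, c q.1)) f := by
    intro f
    obtain ⟨e, H, h⟩ := clear_denom p0 p f
    refine ⟨e, H, ?_⟩
    intro y hy
    have hp0 : aeval (R := ℂ) y p0 = ∏ i, y (i, c i) := by simp [p0]
    have hp0' : aeval (R := ℂ) y p0 ≠ 0 := by
      rw [hp0, Finset.prod_ne_zero_iff]
      intro i _
      exact hy i
    rw [h ℂ (aeval y) hp0']
    congr 2
    congr 1
    funext q
    have h1 : aeval (R := ℂ) y (p q) = y q * ∏ i ∈ Finset.univ.erase q.1, y (i, c i) := by simp [p]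
    rw [h1, hp0, ← Finset.mul_prod_erase Finset.univ _ (Finset.mem_univ q.1)]
    have h2 : ∏ i ∈ Finset.univ.erase q.1, y (i, c i) ≠ 0 := by
      rw [Finset.prod_ne_zero_iff]
      intro i _
      exact hy i
    field_simp [hy q.1]
  choose e H hH using hcd
  have hset : toX ⁻¹' (jc c '' (Subtype.val ⁻¹' U')) =
      ⋃ f ∈ T, {y : YY ι κ | eval (fun i => y.1 i) (p0 * H f) ≠ 0} := by
    ext y
    simp only [Set.mem_preimage, Set.mem_image, Set.mem_iUnion, exists_prop]
    constructor
    · rintro ⟨z, hz, hzy⟩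
      obtain ⟨h1, h2⟩ := (toX_eq_jc_iff c y z).mp hzy.symm
      have hz' : (z : Aff (ι × κ)) ∉ zeros T := by
        rw [← hT]
        exact fun h => h hz
      obtain ⟨f, hf⟩ := not_forall.mp hz'
      obtain ⟨hf1, hf2⟩ := not_forall.mp hf
      refine ⟨f, hf1, ?_⟩
      have h3 := hH f y.1 h1
      have h4 : (fun q : ι × κ => y.1 q / y.1 (q.1, c q.1)) = fun q => z.1 q := by
        funext q
        exact (h2 q.1 q.2).symm
      rw [h4] at h3
      have hp0' : aeval (R := ℂ) y.1 p0 ≠ 0 := by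
        have hp0 : aeval (R := ℂ) y.1 p0 = ∏ i, y.1 (i, c i) := by simp [p0]
        rw [hp0, Finset.prod_ne_zero_iff]
        intro i _
        exact h1 i
      show eval (fun i => y.1 i) (p0 * H f) ≠ 0
      rw [← MvPolynomial.aeval_eq_eval, map_mul]
      refine mul_ne_zero hp0' ?_
      have h5 : (aeval (R := ℂ) (fun i => y.1 i)) (H f) = aeval (R := ℂ) y.1 p0 ^ e f * aeval (fun q => z.1 q) f := h3
      rw [h5]
      refine mul_ne_zero (pow_ne_zero _ hp0') ?_
      rw [MvPolynomial.aeval_eq_eval]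
      exact hf2
    · rintro ⟨f, hf, hy⟩
      have hy' : eval (fun i => y.1 i) (p0 * H f) ≠ 0 := hy
      rw [← MvPolynomial.aeval_eq_eval, map_mul] at hy'
      have hp0 : aeval (R := ℂ) (fun i => y.1 i) p0 = ∏ i, y.1 (i, c i) := by simp [p0]
      have hp0' := left_ne_zero_of_mul hy'
      rw [hp0, Finset.prod_ne_zero_iff] at hp0'
      have h1 : ∀ i, y.1 (i, c i) ≠ 0 := fun i => hp0' i (Finset.mem_univ i)
      let z : Ac c := ⟨fun q => y.1 q / y.1 (q.1, c q.1), fun i => div_self (h1 i)⟩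
      refine ⟨z, ?_, ?_⟩
      · have h3 := hH f y.1 h1
        have h4 : (aeval (R := ℂ) (fun i => y.1 i)) (H f) ≠ 0 := right_ne_zero_of_mul hy'
        have h5 : aeval (R := ℂ) (fun q : ι × κ => y.1 q / y.1 (q.1, c q.1)) f ≠ 0 := by
          intro h0
          apply h4
          have h6 : (aeval (R := ℂ) (fun i => y.1 i)) (H f) = _ := h3
          rw [h6, h0, mul_zero]
        by_contra hcon
        have h7 : (z : Aff (ι × κ)) ∈ zeros T := by
          rw [← hT]; exact hcon
        apply h5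
        rw [MvPolynomial.aeval_eq_eval]
        exact h7 f hf
      · exact ((toX_eq_jc_iff c y z).mpr ⟨h1, fun i a => rfl⟩).symm
  rw [hset]
  refine isOpen_iUnion fun f => isOpen_iUnion fun _ => ?_
  have h8 : IsOpen {x : Aff (ι × κ) | eval (fun i => x i) (p0 * H f) ≠ 0} := by
    rw [← isClosed_compl_iff, aff_isClosed_iff]
    refine ⟨{p0 * H f}, ?_⟩
    ext x
    simp only [Set.mem_compl_iff]
    constructor
    · intro h g hg
      rw [Set.mem_singleton_iff.mp hg]
      by_contra hcon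
      exact h hcon
    · intro h h2
      exact h2 (h _ rfl)
  exact h8.preimage continuous_subtype_val

omit [Fintype κ] [DecidableEq κ] in
theorem jc_openEmbedding (c : ι → κ) : IsOpenEmbedding (jc c) :=
  IsOpenEmbedding.of_continuous_injective_isOpenMap (jc_continuous c) (jc_injective c) (jc_open c)

omit [Fintype ι] [Fintype κ] [DecidableEq ι] [DecidableEq κ] in
theorem jc_cover (x : XX ι κ) : ∃ c : ι → κ, x ∈ Set.range (jc c) := by
  obtain ⟨y, rfl⟩ := toX_surjective x
  have h : ∀ i, ∃ a, y.1 (i, a) ≠ 0 := by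
    intro i
    by_contra hcon
    push Not at hcon
    exact y.2 i (funext hcon)
  choose c hc using h
  refine ⟨c, ⟨⟨fun q => y.1 q / y.1 (q.1, c q.1), fun i => div_self (hc i)⟩, ?_⟩⟩
  exact ((toX_eq_jc_iff c y _).mpr ⟨hc, fun i a => rfl⟩).symm

omit [Fintype ι] [Fintype κ] [DecidableEq ι] [DecidableEq κ] in
theorem xx_noetherian [Finite ι] [Finite κ] : NoetherianSpace (XX ι κ) := by
  haveI : NoetherianSpace (YY ι κ) := IsInducing.subtypeVal.noetherianSpace
  exact noetherianSpace_of_surjective toX toX_continuous toX_surjective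

end charts

end Pool.Agent.Helper834.EC
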