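import Mathlib
import Pool.Agent.Helper834.EC.Topo3

namespace Pool.Agent.Helper834.EC

open Order TopologicalSpace Topology MvPolynomial
open scoped LinearAlgebra.Projectivization

section quot

variable {n d : ℕ}

abbrev Ix (n d : ℕ) : Type := Fin d × Fin (D n d)

/-- forget the order -/
def qq (x : XX (Ix n d) (Fin (n + 1))) : Conf n d := fun k =>
  ⟨Finset.univ.val.map fun j : Fin (D n d) => x (k, j), by simp⟩

theorem toConf_eq (y : Coord n d) : toConf y = qq (toX (ι := Ix n d) (κ := Fin (n + 1)) y) := rfl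

theorem conf_top : (inferInstance : TopologicalSpace (Conf n d)) =
    TopologicalSpace.coinduced qq (inferInstance : TopologicalSpace (XX (Ix n d) (Fin (n + 1)))) := by
  show TopologicalSpace.coinduced toConf inferInstance =
    TopologicalSpace.coinduced qq (TopologicalSpace.coinduced toX inferInstance)
  rw [coinduced_compose]
  rfl

theorem qq_continuous : Continuous (qq (n := n) (d := d)) := by
  rw [continuous_iff_coinduced_le, ← conf_top]

theorem isClosed_qq_iff (Z : Set (Conf n d)) : IsClosed Z ↔ IsClosed (qq ⁻¹' Z) := by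
  have h : IsClosed Z ↔ @IsClosed _ (TopologicalSpace.coinduced (qq (n := n) (d := d)) inferInstance) Z := by
    rw [← conf_top]
  rw [h, isClosed_coinduced]

theorem exists_perm_of_map_eq {m : ℕ} {α : Type*} (f g : Fin m → α)
    (h : Multiset.map f Finset.univ.val = Multiset.map g Finset.univ.val) :
    ∃ σ : Equiv.Perm (Fin m), ∀ j, f (σ j) = g j := by
  classical
  have hcard : ∀ a : α, Nat.card {j // g j = a} = Nat.card {j // f j = a} := by
    intro a
    have h1 := congrArg (Multiset.count a) h
    rw [Multiset.count_map, Multiset.count_map] at h1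
    rw [Nat.card_eq_fintype_card, Nat.card_eq_fintype_card, Fintype.card_subtype,
      Fintype.card_subtype]
    have h2 : ∀ k : Fin m → α, (Finset.univ.filter fun j => k j = a).card =
        (Multiset.filter (fun j => a = k j) Finset.univ.val).card := by
      intro k
      rw [Finset.card_def, Finset.filter_val]
      congr 1
      apply Multiset.filter_congr
      intro x _
      exact eq_comm
    rw [h2, h2, h1]
  have he : ∀ a, Nonempty ({j // g j = a} ≃ {j // f j = a}) := fun a => Finite.card_eq.mp (hcard a)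
  exact ⟨Equiv.ofFiberEquiv (fun a => (he a).some), fun j =>
    Equiv.ofFiberEquiv_map (fun a => (he a).some) j⟩

/-- permuting points -/
def phi (σ : Fin d → Equiv.Perm (Fin (D n d))) (x : XX (Ix n d) (Fin (n + 1))) :
    XX (Ix n d) (Fin (n + 1)) := fun i => x (i.1, σ i.1 i.2)

theorem qq_phi (σ : Fin d → Equiv.Perm (Fin (D n d))) (x : XX (Ix n d) (Fin (n + 1))) :
    qq (phi σ x) = qq x := by
  funext k
  apply Subtype.ext
  show Multiset.map (fun j => x (k, σ k j)) Finset.univ.val = Multiset.map (fun j => x (k, j)) Finset.univ.val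
  have : (fun j => x (k, σ k j)) = (fun j => x (k, j)) ∘ (σ k) := rfl
  rw [this, ← Multiset.map_map, Multiset.map_univ_val_equiv]

theorem exists_phi {x y : XX (Ix n d) (Fin (n + 1))} (h : qq x = qq y) : ∃ σ, phi σ x = y := by
  have h1 : ∀ k, ∃ σ : Equiv.Perm (Fin (D n d)), ∀ j, x (k, σ j) = y (k, j) := by
    intro k
    apply exists_perm_of_map_eq (fun j => x (k, j)) (fun j => y (k, j))
    exact congrArg Subtype.val (congrFun h k)
  choose σ hσ using h1
  exact ⟨σ, funext fun i => hσ i.1 i.2⟩

theorem phi_continuous (σ : Fin d → Equiv.Perm (Fin (D n d))) :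
    Continuous (phi (n := n) σ) := by
  let ψ : YY (Ix n d) (Fin (n + 1)) → YY (Ix n d) (Fin (n + 1)) := fun y =>
    ⟨fun p => y.1 ((p.1.1, σ p.1.1 p.1.2), p.2), fun i => y.2 (i.1, σ i.1 i.2)⟩
  have hψ : Continuous ψ := by
    refine Continuous.subtype_mk ?_ _
    refine (aff_continuous (fun (y : Aff (Ix n d × Fin (n + 1))) =>
      (fun p => y ((p.1.1, σ p.1.1 p.1.2), p.2) : Aff (Ix n d × Fin (n + 1))))
      (fun p => X ((p.1.1, σ p.1.1 p.1.2), p.2)) ?_).comp continuous_subtype_val
    intro x t
    simp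
  rw [continuous_coinduced_dom]
  have h : phi σ ∘ toX = toX ∘ ψ := rfl
  rw [h]
  exact toX_continuous.comp hψ

theorem phi_order (σ : Fin d → Equiv.Perm (Fin (D n d))) :
    ∃ m : ℕ, 0 < m ∧ (phi (n := n) σ)^[m] = id := by
  refine ⟨orderOf σ, orderOf_pos σ, ?_⟩
  have h1 : ∀ m : ℕ, ∀ x : XX (Ix n d) (Fin (n + 1)), (phi σ)^[m] x = phi (σ ^ m) x := by
    intro m
    induction m with
    | zero => intro x; rfl
    | succ m ih =>
      intro x
      rw [Function.iterate_succ_apply, ih, pow_succ']
      rfl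
  funext x
  rw [h1, pow_orderOf_eq_one]
  rfl

theorem preimage_image_qq (C : Set (XX (Ix n d) (Fin (n + 1)))) :
    qq ⁻¹' (qq '' C) = ⋃ σ, phi σ ⁻¹' C := by
  ext x
  simp only [Set.mem_preimage, Set.mem_image, Set.mem_iUnion]
  constructor
  · rintro ⟨y, hy, hyx⟩
    obtain ⟨σ, hσ⟩ := exists_phi hyx.symm
    exact ⟨σ, by rw [hσ]; exact hy⟩
  · rintro ⟨σ, hσ⟩
    exact ⟨phi σ x, hσ, qq_phi σ x⟩

theorem qq_closed : IsClosedMap (qq (n := n) (d := d)) := by
  intro C hC
  rw [isClosed_qq_iff, preimage_image_qq]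
  exact isClosed_iUnion_of_finite fun σ => hC.preimage (phi_continuous σ)

theorem qq_open : IsOpenMap (qq (n := n) (d := d)) := by
  intro U hU
  rw [← isClosed_compl_iff, isClosed_qq_iff, Set.preimage_compl, isClosed_compl_iff,
    preimage_image_qq]
  exact isOpen_iUnion fun σ => hU.preimage (phi_continuous σ)

theorem qq_surjective : Function.Surjective (qq (n := n) (d := d)) := by
  intro X
  have h : ∀ k, ∃ f : Fin (D n d) → ℙ ℂ (V n), Finset.univ.val.map f = (X k).1 := by
    intro k
    obtain ⟨l, hl⟩ := Quotient.exists_rep (X k).1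
    have hlen : l.length = D n d := by
      have := (X k).2
      rw [← hl] at this
      exact this
    refine ⟨fun j => l.get (Fin.cast hlen.symm j), ?_⟩
    rw [← hl]
    have h1 : Finset.univ.val.map (fun j : Fin (D n d) => l.get (Fin.cast hlen.symm j)) =
        ((List.ofFn fun j : Fin (D n d) => l.get (Fin.cast hlen.symm j) : List _) : Multiset _) := by
      rw [Fin.univ_val_map]
    rw [h1]
    congr 1
    apply List.ext_getElem
    · simp [hlen]
    · intro i h1 h2
      simp
  choose f hf using h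
  exact ⟨fun i => f i.1 i.2, funext fun k => Subtype.ext (hf k)⟩

/-- normalised coordinates of the points of `S` in the chart `c` -/
def Sc (S : Set (Conf n d)) (c : Ix n d → Fin (n + 1)) : Set (Aff (Ix n d × Fin (n + 1))) :=
  {y | ∃ h : ∀ i, y (i, c i) = 1, qq (jc c ⟨y, h⟩) ∈ S}

theorem dim_closure_le_of_charts (S : Set (Conf n d)) (m : WithBot ℕ∞)
    (h : ∀ c, ringKrullDim (MvPolynomial (Ix n d × Fin (n + 1)) ℂ ⧸ idl (Sc S c)) ≤ m) :
    topologicalKrullDim (closure S) ≤ m := by
  set E := closure S with hE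
  haveI : NoetherianSpace (XX (Ix n d) (Fin (n + 1))) := xx_noetherian
  have h1 : topologicalKrullDim E ≤ topologicalKrullDim (qq ⁻¹' E) := by
    refine dim_le_of_closed_surj (E.restrictPreimage qq) ?_ ?_ ?_
    · exact qq_continuous.restrictPreimage
    · exact qq_closed.restrictPreimage E
    · exact Set.restrictPreimage_surjective E qq_surjective
  refine h1.trans ?_
  refine dim_le_of_charts m (fun c : Ix n d → Fin (n + 1) => (jc c ⁻¹' (qq ⁻¹' E) : Set (Ac c)))
    (fun c => (qq ⁻¹' E).restrictPreimage (jc c)) ?_ ?_ ?_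
  · intro c
    exact (jc_openEmbedding c).restrictPreimage _
  · rintro ⟨x, hx⟩
    obtain ⟨c, y, rfl⟩ := jc_cover x
    exact ⟨c, ⟨y, hx⟩, rfl⟩
  · intro c
    refine le_trans ?_ (h c)
    refine le_trans ?_ (dim_closure_le (Sc S c))
    have hmem : ∀ y : (jc c ⁻¹' (qq ⁻¹' E) : Set (Ac c)), y.1.1 ∈ closure (Sc S c) := by
      rintro ⟨y, hy⟩
      have hop : IsOpenMap (qq ∘ jc c) := qq_open.comp (jc_open c)
      have hco : Continuous (qq ∘ jc c) := qq_continuous.comp (jc_continuous c)
      have h2 : y ∈ (qq ∘ jc c) ⁻¹' closure S := hy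
      rw [hop.preimage_closure_eq_closure_preimage hco] at h2
      have h3 : (y : Aff (Ix n d × Fin (n + 1))) ∈ closure (Subtype.val '' ((qq ∘ jc c) ⁻¹' S)) := by
        exact image_closure_subset_closure_image continuous_subtype_val ⟨y, h2, rfl⟩
      refine closure_mono ?_ h3
      rintro _ ⟨z, hz, rfl⟩
      exact ⟨z.2, hz⟩
    let g : (jc c ⁻¹' (qq ⁻¹' E) : Set (Ac c)) → closure (Sc S c) := fun y => ⟨y.1.1, hmem y⟩
    have hg : IsInducing g := by
      have h4 : IsInducing ((Subtype.val : closure (Sc S c) → _) ∘ g) := by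
        show IsInducing (fun y : (jc c ⁻¹' (qq ⁻¹' E) : Set (Ac c)) => y.1.1)
        exact IsInducing.subtypeVal.comp IsInducing.subtypeVal
      exact IsInducing.of_comp_iff IsInducing.subtypeVal |>.mp h4
    exact hg.topologicalKrullDim_le

theorem le_dim_closure_of_chart (S : Set (Conf n d)) (c : Ix n d → Fin (n + 1)) :
    ringKrullDim (MvPolynomial (Ix n d × Fin (n + 1)) ℂ ⧸ idl (Sc S c)) ≤
      topologicalKrullDim (closure S) := by
  set E := closure S with hE
  have hac : ∀ y ∈ closure (Sc S c), ∀ i, y (i, c i) = 1 := by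
    intro y hy i
    have hcl : IsClosed {y : Aff (Ix n d × Fin (n + 1)) | y (i, c i) = 1} := by
      rw [aff_isClosed_iff]
      refine ⟨{X (i, c i) - C 1}, ?_⟩
      ext x
      constructor
      · intro hx f hf
        rw [Set.mem_singleton_iff.mp hf]
        have : x (i, c i) = 1 := hx
        simp [this]
      · intro hx
        have := hx _ rfl
        simp only [map_sub, eval_X, eval_C] at this
        exact sub_eq_zero.mp this
    have : closure (Sc S c) ⊆ {y : Aff (Ix n d × Fin (n + 1)) | y (i, c i) = 1} :=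
      closure_minimal (fun z hz => hz.1 i) hcl
    exact this hy
  refine (le_dim_closure (Sc S c)).trans ?_
  -- closure of the chart part embeds into the preimage of E
  let incl : closure (Sc S c) → Ac c := fun y => ⟨y.1, hac y.1 y.2⟩
  have hincl : IsInducing incl := by
    have h4 : IsInducing ((Subtype.val : Ac c → _) ∘ incl) := IsInducing.subtypeVal
    exact IsInducing.of_comp_iff IsInducing.subtypeVal |>.mp h4
  have hmem : ∀ y : closure (Sc S c), qq (jc c (incl y)) ∈ E := by
    intro y
    have hco : Continuous (qq ∘ jc c) := qq_continuous.comp (jc_continuous c)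
    have h5 : incl y ∈ closure (Subtype.val ⁻¹' (Sc S c) : Set (Ac c)) := by
      rw [IsInducing.subtypeVal.closure_eq_preimage_closure_image]
      show y.1 ∈ closure (Subtype.val '' (Subtype.val ⁻¹' (Sc S c) : Set (Ac c)))
      have h6 : (Subtype.val '' (Subtype.val ⁻¹' (Sc S c) : Set (Ac c))) = Sc S c := by
        ext z
        constructor
        · rintro ⟨w, hw, rfl⟩
          exact hw
        · intro hz
          exact ⟨⟨z, hz.1⟩, hz, rfl⟩
      rw [h6]
      exact y.2
    have h7 : (qq ∘ jc c) (incl y) ∈ closure ((qq ∘ jc c) '' (Subtype.val ⁻¹' (Sc S c) : Set (Ac c))) :=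
      image_closure_subset_closure_image hco ⟨_, h5, rfl⟩
    refine closure_mono ?_ h7
    rintro _ ⟨z, hz, rfl⟩
    exact hz.2
  let g : closure (Sc S c) → (qq ⁻¹' E : Set (XX (Ix n d) (Fin (n + 1)))) := fun y =>
    ⟨jc c (incl y), hmem y⟩
  have hg : IsInducing g := by
    have h4 : IsInducing ((Subtype.val : (qq ⁻¹' E : Set (XX (Ix n d) (Fin (n + 1)))) → _) ∘ g) :=
      (jc_openEmbedding c).isInducing.comp hincl
    exact IsInducing.of_comp_iff IsInducing.subtypeVal |>.mp h4
  refine hg.topologicalKrullDim_le.trans ?_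
  refine dim_le_of_finite_quot (G := Fin d → Equiv.Perm (Fin (D n d))) (E.restrictPreimage qq)
    qq_continuous.restrictPreimage (qq_closed.restrictPreimage E)
    (fun σ x => ⟨phi σ x.1, by
      show qq (phi σ x.1) ∈ E
      rw [qq_phi]; exact x.2⟩) ?_ ?_ ?_
  · intro σ
    exact Continuous.subtype_mk ((phi_continuous σ).comp continuous_subtype_val) _
  · intro σ
    obtain ⟨m, hm, hm2⟩ := phi_order (n := n) σ
    refine ⟨m, hm, ?_⟩
    funext x
    apply Subtype.ext
    have h8 : ∀ k : ℕ, ∀ x : (qq ⁻¹' E : Set (XX (Ix n d) (Fin (n + 1)))),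
        (((fun x : (qq ⁻¹' E : Set (XX (Ix n d) (Fin (n + 1)))) => (⟨phi σ x.1, by
      show qq (phi σ x.1) ∈ E
      rw [qq_phi]; exact x.2⟩ : (qq ⁻¹' E : Set (XX (Ix n d) (Fin (n + 1))))))^[k]) x).1 = (phi σ)^[k] x.1 := by
      intro k
      induction k with
      | zero => intro x; rfl
      | succ k ih =>
        intro x
        rw [Function.iterate_succ_apply, Function.iterate_succ_apply, ih]
    rw [h8, hm2]
    rfl
  · rintro ⟨x, hx⟩ ⟨y, hy⟩ hxy
    have h9 : qq x = qq y := congrArg Subtype.val hxy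
    obtain ⟨σ, hσ⟩ := exists_phi h9
    exact ⟨σ, Subtype.ext hσ⟩

end quot

end Pool.Agent.Helper834.EC
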