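import Mathlib
import Pool.Agent.Helper834.EC.Dimf1
import Pool.Agent.Helper834.EC.Topo4

namespace Pool.Agent.Helper834.EC

open MvPolynomial

variable {n d : ℕ}

/-- type of an index tuple -/
def ty (i : Fin d → Fin (n + 1)) : Sym (Fin (n + 1)) d := ⟨Finset.univ.val.map i, by simp⟩

/-- exponent vector of a type -/
noncomputable def fs (ν : Sym (Fin (n + 1)) d) : Fin (n + 1) →₀ ℕ := Multiset.toFinsupp (ν : Multiset (Fin (n + 1)))

theorem fs_injective : Function.Injective (fs (n := n) (d := d)) := by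
  intro a b h
  exact Subtype.ext (Multiset.toFinsupp.injective h)

theorem fs_ty (i : Fin d → Fin (n + 1)) : fs (ty i) = ∑ m, Finsupp.single (i m) 1 := by
  show Multiset.toFinsupp (Finset.univ.val.map i) = _
  ext a
  rw [Multiset.toFinsupp_apply, Multiset.count_map, Finsupp.finsetSum_apply]
  simp only [Finsupp.single_apply]
  rw [Finset.sum_boole]
  simp only [Nat.cast_id]
  rw [Finset.card_def, Finset.filter_val]
  congr 1
  apply Multiset.filter_congr
  intro m _
  exact eq_comm

theorem ty_surjective : Function.Surjective (ty (n := n) (d := d)) := by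
  intro ν
  obtain ⟨l, hl⟩ := Quotient.exists_rep ν.1
  have hlen : l.length = d := by
    have := ν.2
    rw [← hl] at this
    exact this
  refine ⟨fun j => l.get (Fin.cast hlen.symm j), ?_⟩
  apply Subtype.ext
  show Finset.univ.val.map (fun j : Fin d => l.get (Fin.cast hlen.symm j)) = ν.1
  rw [← hl]
  have h1 : Finset.univ.val.map (fun j : Fin d => l.get (Fin.cast hlen.symm j)) =
      ((List.ofFn fun j : Fin d => l.get (Fin.cast hlen.symm j) : List _) : Multiset _) := by
    rw [Fin.univ_val_map]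
  rw [h1]
  congr 1
  apply List.ext_getElem
  · simp [hlen]
  · intro i h1 h2
    simp

theorem mem_ty (i : Fin d → Fin (n + 1)) (j : Fin (n + 1)) : j ∈ ty i ↔ ∃ k, i k = j := by
  show j ∈ Finset.univ.val.map i ↔ _
  rw [Multiset.mem_map]
  simp

theorem ty_comp (i : Fin d → Fin (n + 1)) (σ : Equiv.Perm (Fin d)) : ty (i ∘ σ) = ty i := by
  apply Subtype.ext
  show Multiset.map (i ∘ σ) Finset.univ.val = Multiset.map i Finset.univ.val
  rw [← Multiset.map_map, Multiset.map_univ_val_equiv]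

theorem fs_ne_zero_iff (ν : Sym (Fin (n + 1)) d) (j : Fin (n + 1)) : fs ν j ≠ 0 ↔ j ∈ ν := by
  unfold fs
  rw [Multiset.toFinsupp_apply, Multiset.count_ne_zero]
  rfl

theorem degree_fs (ν : Sym (Fin (n + 1)) d) : (fs ν).degree = d := by
  obtain ⟨i, rfl⟩ := ty_surjective ν
  rw [fs_ty, map_sum]
  simp

theorem exists_fs (μ : Fin (n + 1) →₀ ℕ) (h : μ.degree = d) : ∃ ν : Sym (Fin (n + 1)) d, fs ν = μ := by
  refine ⟨⟨Finsupp.toMultiset μ, ?_⟩, ?_⟩
  · rw [Finsupp.card_toMultiset, ← h]
    rfl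
  · show Multiset.toFinsupp (Finsupp.toMultiset μ) = μ
    exact Finsupp.toMultiset_toFinsupp μ

theorem exists_index (ν : Sym (Fin (n + 1)) d) (k l : Fin d) (hkl : k ≠ l) (j j0 : Fin (n + 1))
    (hj : j ∈ ν) (hj0 : j0 ∈ ν) (hne : j ≠ j0) :
    ∃ i : Fin d → Fin (n + 1), ty i = ν ∧ i k = j ∧ i l = j0 := by
  obtain ⟨i0, rfl⟩ := ty_surjective ν
  obtain ⟨a, ha⟩ := (mem_ty i0 j).mp hj
  set i1 := i0 ∘ Equiv.swap a k with hi1
  have h1 : i1 k = j := by
    rw [hi1, Function.comp_apply, Equiv.swap_apply_right, ha]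
  have h2 : ty i1 = ty i0 := ty_comp i0 _
  rw [← h2, mem_ty] at hj0
  obtain ⟨b, hb⟩ := hj0
  have hbk : b ≠ k := by
    rintro rfl
    rw [h1] at hb
    exact hne hb
  refine ⟨i1 ∘ Equiv.swap b l, ?_, ?_, ?_⟩
  · rw [ty_comp, h2]
  · rw [Function.comp_apply, Equiv.swap_apply_of_ne_of_ne hbk.symm hkl, h1]
  · rw [Function.comp_apply, Equiv.swap_apply_right, hb]

/-- a chosen element of each type -/
noncomputable def jz (hd : 1 ≤ d) (ν : Sym (Fin (n + 1)) d) : Fin (n + 1) :=
  (ty_surjective ν).choose ⟨0, hd⟩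

theorem jz_mem (hd : 1 ≤ d) (ν : Sym (Fin (n + 1)) d) : jz hd ν ∈ ν := by
  have h := (ty_surjective ν).choose_spec
  have h2 : jz hd ν ∈ ty (ty_surjective ν).choose := (mem_ty _ _).mpr ⟨_, rfl⟩
  rwa [h] at h2

/-- pairs of a type and a non-chosen letter in it -/
abbrev Pr (n : ℕ) {d : ℕ} (hd : 1 ≤ d) : Type :=
  {p : Sym (Fin (n + 1)) d × Fin (n + 1) // p.2 ∈ p.1 ∧ p.2 ≠ jz hd p.1}

/-- index set of the coordinates of `V^{⊗d}/K00` -/
abbrev JJ (n : ℕ) {d : ℕ} (hd : 1 ≤ d) (l : Fin d) : Type :=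
  Sym (Fin (n + 1)) d ⊕ ({k : Fin d // k ≠ l} × Pr n hd)

/-- the coordinates -/
noncomputable def Th (n : ℕ) {d : ℕ} (hd : 1 ≤ d) (l : Fin d) :
    Tensor n d →ₗ[ℂ] (JJ n hd l → ℂ) :=
  LinearMap.pi fun q => match q with
    | Sum.inl ν => (lcoeff ℂ (fs ν)).comp (formP n d)
    | Sum.inr r => (lcoeff ℂ (fs r.2.1.1 - Finsupp.single r.2.1.2 1)).comp (phiP r.1.1 r.2.1.2)

theorem Th_inl (hd : 1 ≤ d) (l : Fin d) (T : Tensor n d) (ν : Sym (Fin (n + 1)) d) :
    Th n hd l T (Sum.inl ν) = coeff (fs ν) (formP n d T) := rfl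

theorem Th_inr (hd : 1 ≤ d) (l : Fin d) (T : Tensor n d) (r : {k : Fin d // k ≠ l} × Pr n hd) :
    Th n hd l T (Sum.inr r) = coeff (fs r.2.1.1 - Finsupp.single r.2.1.2 1) (phiP r.1.1 r.2.1.2 T) :=
  rfl

theorem formP_homog (hd : 1 ≤ d) (T : Tensor n d) : (formP n d T).IsHomogeneous d := by
  rw [← sum_X_phiP ⟨0, hd⟩]
  apply IsHomogeneous.sum
  intro j _
  have := (isHomogeneous_X ℂ j).mul (phiP_homog ⟨0, hd⟩ j T)
  have h2 : 1 + (d - 1) = d := by omega
  rwa [h2] at this

theorem ker_Th (hd : 1 ≤ d) (l : Fin d) : LinearMap.ker (Th n hd l) = K00 n d := by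
  ext T
  rw [LinearMap.mem_ker, mem_K00]
  constructor
  · intro h
    have hF : formP n d T = 0 := by
      ext μ
      rw [coeff_zero]
      by_cases hμ : μ.degree = d
      · obtain ⟨ν, rfl⟩ := exists_fs μ hμ
        exact congrFun h (Sum.inl ν)
      · exact (formP_homog hd T).coeff_eq_zero hμ
    have hk : ∀ k, k ≠ l → ∀ j, phiP k j T = 0 := by
      intro k hk j
      ext μ
      rw [coeff_zero]
      by_cases hμ : μ.degree = d - 1
      · obtain ⟨ν, hν⟩ := exists_fs (d := d) (μ + Finsupp.single j 1) (by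
          rw [map_add, hμ, Finsupp.degree_single]; omega)
        have hj : j ∈ ν := by
          rw [← fs_ne_zero_iff, hν]
          simp
        have hμ' : μ = fs ν - Finsupp.single j 1 := by
          rw [hν, add_tsub_cancel_right]
        by_cases hjj : j = jz hd ν
        · -- use the relation
          have h1 := congrArg (coeff (fs ν)) (sum_X_phiP k T)
          rw [hF, coeff_zero, coeff_sum, Finset.sum_eq_single j] at h1
          · rw [coeff_X_mul', if_pos (by rw [Finsupp.mem_support_iff, fs_ne_zero_iff]; exact hj),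
              ← hμ'] at h1
            exact h1
          · intro b _ hb
            rw [coeff_X_mul']
            split_ifs with hbs
            · rw [Finsupp.mem_support_iff, fs_ne_zero_iff] at hbs
              exact congrFun h (Sum.inr (⟨k, hk⟩, ⟨(ν, b), hbs, fun h => hb (h.trans hjj.symm)⟩))
            · rfl
          · intro h2; exact absurd (Finset.mem_univ _) h2
        · rw [hμ']
          exact congrFun h (Sum.inr (⟨k, hk⟩, ⟨(ν, j), hj, hjj⟩))
      · exact (phiP_homog k j T).coeff_eq_zero hμ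
    intro k j
    by_cases hkl : k = l
    · have h1 := pderiv_formP j T
      rw [hF, map_zero, Finset.sum_eq_single l] at h1
      · rw [hkl]; exact h1.symm
      · intro b _ hb
        exact hk b hb j
      · intro h2; exact absurd (Finset.mem_univ _) h2
    · exact hk k hkl j
  · intro h
    funext q
    cases q with
    | inl ν =>
      rw [Th_inl, ← sum_X_phiP l]
      rw [Finset.sum_eq_zero (fun j _ => by rw [h, mul_zero]), coeff_zero]
      rfl
    | inr r =>
      rw [Th_inr, h, coeff_zero]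
      rfl

end Pool.Agent.Helper834.EC
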