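import Mathlib
import Pool.Agent.Helper834.EC.Dimf2

namespace Pool.Agent.Helper834.EC

open MvPolynomial

variable {n d : ℕ}

/-- elementary tensor -/
noncomputable def eT (i : Fin d → Fin (n + 1)) : Tensor n d := Pi.single i 1

theorem prod_X_eq {ι : Type*} (s : Finset ι) (i : ι → Fin (n + 1)) :
    (∏ m ∈ s, X (i m) : MvPolynomial (Fin (n + 1)) ℂ) = monomial (∑ m ∈ s, Finsupp.single (i m) 1) 1 := by
  rw [monomial_sum_one]
  rfl

theorem formP_eT (i : Fin d → Fin (n + 1)) : formP n d (eT i) = monomial (fs (ty i)) 1 := by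
  rw [formP_apply, Finset.sum_eq_single i]
  · unfold eT
    rw [Pi.single_eq_same, C_1, one_mul, prod_X_eq, fs_ty]
  · intro b _ hb
    unfold eT
    rw [Pi.single_eq_of_ne hb, C_0, zero_mul]
  · intro h; exact absurd (Finset.mem_univ _) h

theorem phiP_eT (i : Fin d → Fin (n + 1)) (k : Fin d) (j : Fin (n + 1)) :
    phiP k j (eT i) = if i k = j then monomial (fs (ty i) - Finsupp.single j 1) 1 else 0 := by
  rw [phiP_apply]
  unfold contractR
  rw [Finset.sum_eq_single i]
  · split_ifs with h
    · unfold eT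
      show C ((Pi.single i 1 : Tensor n d) i) * _ = _
      rw [Pi.single_eq_same, C_1, one_mul, prod_X_eq, fs_ty,
        ← Finset.add_sum_erase Finset.univ (fun m => Finsupp.single (i m) 1) (Finset.mem_univ k), h,
        add_tsub_cancel_left]
    · rfl
  · intro b _ hb
    unfold eT
    show (if b k = j then C ((Pi.single i 1 : Tensor n d) b) * _ else 0) = _
    rw [Pi.single_eq_of_ne hb, C_0, zero_mul, ite_self]
  · intro h; exact absurd (Finset.mem_univ _) h

theorem Th_eT_inl (hd : 1 ≤ d) (l : Fin d) (i : Fin d → Fin (n + 1)) (ν : Sym (Fin (n + 1)) d) :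
    Th n hd l (eT i) (Sum.inl ν) = if ty i = ν then 1 else 0 := by
  rw [Th_inl, formP_eT, coeff_monomial]
  by_cases h : ty i = ν
  · rw [if_pos h, if_pos (by rw [h])]
  · rw [if_neg h, if_neg (fun h2 => h (fs_injective h2))]

theorem Th_eT_inr (hd : 1 ≤ d) (l : Fin d) (i : Fin d → Fin (n + 1))
    (r : {k : Fin d // k ≠ l} × Pr n hd) :
    Th n hd l (eT i) (Sum.inr r) = if i r.1.1 = r.2.1.2 ∧ ty i = r.2.1.1 then 1 else 0 := by
  rw [Th_inr, phiP_eT]
  by_cases h : i r.1.1 = r.2.1.2
  · rw [if_pos h, coeff_monomial]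
    by_cases h2 : ty i = r.2.1.1
    · rw [if_pos (by rw [h2]), if_pos ⟨h, h2⟩]
    · rw [if_neg, if_neg (fun h3 => h2 h3.2)]
      intro h3
      apply h2
      apply fs_injective
      have h4 : ∀ ν : Sym (Fin (n + 1)) d, r.2.1.2 ∈ ν →
          fs ν = (fs ν - Finsupp.single r.2.1.2 1) + Finsupp.single r.2.1.2 1 := by
        intro ν hν
        rw [tsub_add_cancel_of_le]
        rw [Finsupp.single_le_iff]
        exact Nat.one_le_iff_ne_zero.mpr ((fs_ne_zero_iff _ _).mpr hν)
      rw [h4 _ ((mem_ty _ _).mpr ⟨_, h⟩), h3, ← h4 _ r.2.2.1]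
  · rw [if_neg h, coeff_zero, if_neg (fun h3 => h h3.1)]

theorem single_inr_mem (hd : 1 ≤ d) (l : Fin d) (r : {k : Fin d // k ≠ l} × Pr n hd) :
    Pi.single (Sum.inr r : JJ n hd l) (1 : ℂ) ∈ LinearMap.range (Th n hd l) := by
  obtain ⟨⟨k, hk⟩, ⟨⟨ν, j⟩, hj, hjz⟩⟩ := r
  simp only at hj hjz
  obtain ⟨i, hi1, hi2, hi3⟩ := exists_index ν k l hk j (jz hd ν) hj (jz_mem hd ν) hjz
  refine ⟨eT i - eT (i ∘ Equiv.swap k l), ?_⟩
  rw [map_sub]
  funext q
  cases q with
  | inl ν' =>
    rw [Pi.sub_apply, Th_eT_inl, Th_eT_inl, ty_comp, sub_self, Pi.single_eq_of_ne]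
    exact Sum.inl_ne_inr
  | inr r' =>
    obtain ⟨⟨k', hk'⟩, ⟨⟨ν', j'⟩, hj', hjz'⟩⟩ := r'
    simp only at hj' hjz'
    rw [Pi.sub_apply, Th_eT_inr, Th_eT_inr, ty_comp, Function.comp_apply]
    simp only
    by_cases hν : ty i = ν'
    · have hνν : ν = ν' := by rw [← hi1, hν]
      subst hνν
      by_cases hkk : k' = k
      · subst hkk
        rw [Equiv.swap_apply_left, hi2, hi3]
        by_cases hjj : j = j'
        · subst hjj
          rw [if_pos ⟨rfl, hi1⟩, if_neg (fun h => hjz h.1.symm), sub_zero, Pi.single_eq_same]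
        · rw [if_neg (fun h => hjj h.1), if_neg (fun h => hjz' h.1.symm), sub_zero,
            Pi.single_eq_of_ne]
          intro h
          have h2 := Sum.inr_injective h
          exact hjj (congrArg (fun r : {k : Fin d // k ≠ l} × Pr n hd => r.2.1.2) h2).symm
      · rw [Equiv.swap_apply_of_ne_of_ne hkk hk', sub_self, Pi.single_eq_of_ne]
        intro h
        have h2 := Sum.inr_injective h
        exact hkk (congrArg (fun r : {k : Fin d // k ≠ l} × Pr n hd => r.1.1) h2)
    · rw [if_neg (fun h => hν h.2), if_neg (fun h => hν h.2), sub_self, Pi.single_eq_of_ne]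
      intro h
      have h2 := Sum.inr_injective h
      apply hν
      rw [hi1]
      exact (congrArg (fun r : {k : Fin d // k ≠ l} × Pr n hd => r.2.1.1) h2).symm

theorem Th_surjective (hd : 1 ≤ d) (l : Fin d) : LinearMap.range (Th n hd l) = ⊤ := by
  classical
  have hinl : ∀ ν, Pi.single (Sum.inl ν : JJ n hd l) (1 : ℂ) ∈ LinearMap.range (Th n hd l) := by
    intro ν
    obtain ⟨i, rfl⟩ := ty_surjective ν
    have h1 : Pi.single (Sum.inl (ty i) : JJ n hd l) (1 : ℂ) = Th n hd l (eT i) -
        ∑ r, Th n hd l (eT i) (Sum.inr r) • Pi.single (Sum.inr r : JJ n hd l) (1 : ℂ) := by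
      funext q
      rw [Pi.sub_apply, Finset.sum_apply]
      cases q with
      | inl ν' =>
        rw [Finset.sum_eq_zero, sub_zero, Th_eT_inl]
        · by_cases h : ty i = ν'
          · subst h
            rw [if_pos rfl, Pi.single_eq_same]
          · rw [if_neg h, Pi.single_eq_of_ne]
            intro h2
            exact h (Sum.inl_injective h2).symm
        · intro r _
          rw [Pi.smul_apply, Pi.single_eq_of_ne (Sum.inl_ne_inr), smul_zero]
      | inr r' =>
        rw [Finset.sum_eq_single r']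
        · rw [Pi.smul_apply, Pi.single_eq_same, smul_eq_mul, mul_one, sub_self, Pi.single_eq_of_ne]
          exact Sum.inr_ne_inl
        · intro b _ hb
          rw [Pi.smul_apply, Pi.single_eq_of_ne, smul_zero]
          intro h
          exact hb (Sum.inr_injective h).symm
        · intro h; exact absurd (Finset.mem_univ _) h
    rw [h1]
    refine Submodule.sub_mem _ ⟨_, rfl⟩ (Submodule.sum_mem _ fun r _ => ?_)
    exact Submodule.smul_mem _ _ (single_inr_mem hd l r)
  rw [eq_top_iff, ← (Pi.basisFun ℂ (JJ n hd l)).span_eq, Submodule.span_le]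
  rintro _ ⟨q, rfl⟩
  rw [Pi.basisFun_apply]
  cases q with
  | inl ν => exact hinl ν
  | inr r => exact single_inr_mem hd l r

theorem finrank_K00 (hd : 1 ≤ d) (l : Fin d) :
    Fintype.card (JJ n hd l) + Module.finrank ℂ (K00 n d) = Module.finrank ℂ (Tensor n d) := by
  classical
  have h := LinearMap.finrank_range_add_finrank_ker (Th n hd l)
  rw [Th_surjective, ker_Th, finrank_top, Module.finrank_fintype_fun_eq_card] at h
  exact h

section count

theorem card_Pr (n e : ℕ) : Fintype.card (Pr n (d := e + 1) (Nat.succ_pos e)) +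
    Fintype.card (Sym (Fin (n + 1)) (e + 1)) =
    (n + 1) * Fintype.card (Sym (Fin (n + 1)) e) := by
  classical
  have h1 : Fintype.card {p : Sym (Fin (n + 1)) (e + 1) × Fin (n + 1) // p.2 ∈ p.1} =
      (n + 1) * Fintype.card (Sym (Fin (n + 1)) e) := by
    have E : {p : Sym (Fin (n + 1)) (e + 1) × Fin (n + 1) // p.2 ∈ p.1} ≃
        Fin (n + 1) × Sym (Fin (n + 1)) e :=
      { toFun := fun p => (p.1.2, p.1.1.erase p.1.2 p.2)
        invFun := fun q => ⟨(q.1 ::ₛ q.2, q.1), Sym.mem_cons_self _ _⟩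
        left_inv := by
          rintro ⟨⟨s, a⟩, h⟩
          apply Subtype.ext
          simp only
          rw [Sym.cons_erase]
        right_inv := by
          rintro ⟨a, s⟩
          simp only
          rw [Sym.erase_cons_head] }
    rw [Fintype.card_congr E, Fintype.card_prod, Fintype.card_fin]
  have h2 : Fintype.card {p : Sym (Fin (n + 1)) (e + 1) × Fin (n + 1) //
      p.2 ∈ p.1 ∧ p.2 = jz (Nat.succ_pos e) p.1} = Fintype.card (Sym (Fin (n + 1)) (e + 1)) := by
    apply Fintype.card_congr
    exact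
      { toFun := fun p => p.1.1
        invFun := fun s => ⟨(s, jz (Nat.succ_pos e) s), jz_mem _ _, rfl⟩
        left_inv := by
          rintro ⟨⟨s, a⟩, h1, h2⟩
          apply Subtype.ext
          simp only at h2 ⊢
          rw [h2]
        right_inv := fun s => rfl }
  rw [← h1, ← h2, Fintype.card_subtype, Fintype.card_subtype, Fintype.card_subtype]
  rw [← Finset.card_filter_add_card_filter_not (s := Finset.univ.filter
    fun p : Sym (Fin (n + 1)) (e + 1) × Fin (n + 1) => p.2 ∈ p.1)
    (fun p => p.2 = jz (Nat.succ_pos e) p.1), Finset.filter_filter, Finset.filter_filter, add_comm]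

theorem card_JJ (n : ℕ) (hd : 1 ≤ d) (l : Fin d) : Fintype.card (JJ n hd l) =
    (n + d).choose d + (d - 1) ^ 2 * (n + d - 1).choose d := by
  classical
  obtain ⟨e, rfl⟩ : ∃ e, d = e + 1 := ⟨d - 1, by omega⟩
  have h1 := card_Pr n e
  have hA : Fintype.card (Sym (Fin (n + 1)) (e + 1)) = (n + (e + 1)).choose (e + 1) := by
    rw [Sym.card_sym_eq_choose, Fintype.card_fin]
    congr 1
    omega
  have hB : Fintype.card (Sym (Fin (n + 1)) e) = (n + e).choose e := by
    rw [Sym.card_sym_eq_choose, Fintype.card_fin]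
    congr 1
    omega
  have hC : Fintype.card {k : Fin (e + 1) // k ≠ l} = e := by
    rw [Fintype.card_subtype_compl, Fintype.card_fin, Fintype.card_subtype_eq]
    omega
  rw [hA, hB] at h1
  rw [Fintype.card_sum, Fintype.card_prod, hA, hC]
  have hpas : (n + (e + 1)).choose (e + 1) = (n + e).choose e + (n + e).choose (e + 1) :=
    Nat.choose_succ_succ (n + e) e
  have hsucc : (n + e).choose (e + 1) * (e + 1) = (n + e).choose e * n := by
    have := Nat.choose_succ_right_eq (n + e) e
    rwa [Nat.add_sub_cancel] at this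
  have hsub : n + (e + 1) - 1 = n + e := by omega
  have hsub2 : e + 1 - 1 = e := by omega
  rw [hsub, hsub2]
  have hPr : Fintype.card (Pr n (d := e + 1) hd) = e * (n + e).choose (e + 1) := by
    have : Fintype.card (Pr n (d := e + 1) hd) + ((n + e).choose e + (n + e).choose (e + 1)) =
        (n + 1) * (n + e).choose e := by rw [← hpas]; exact h1
    nlinarith [this, hsucc]
  rw [hPr]
  ring

end count

end Pool.Agent.Helper834.EC
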