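import Mathlib
import Pool.Agent.Helper834.EC.Dimf3

namespace Pool.Agent.Helper834.EC

open MvPolynomial

variable {n d : ℕ}

/-- the quadratic form -/
noncomputable def qP (n : ℕ) : MvPolynomial (Fin (n + 1)) ℂ := ∑ j, X j ^ 2

theorem X_not_dvd_X {a b : Fin (n + 1)} (hab : a ≠ b) :
    ¬ (X a : MvPolynomial (Fin (n + 1)) ℂ) ∣ X b := by
  rintro ⟨r, hr⟩
  have := congrArg (eval (fun l => if l = b then (1 : ℂ) else 0)) hr
  rw [map_mul, eval_X, eval_X, if_pos rfl, if_neg hab, zero_mul] at this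
  exact one_ne_zero this

theorem X_not_dvd_qP (hn : 1 ≤ n) : ¬ (X 0 : MvPolynomial (Fin (n + 1)) ℂ) ∣ qP n := by
  rintro ⟨r, hr⟩
  have := congrArg (eval (fun l : Fin (n + 1) => if l = 1 then (1 : ℂ) else 0)) hr
  rw [map_mul, eval_X, if_neg (one_ne_zero_fin hn).symm, zero_mul] at this
  unfold qP at this
  rw [map_sum, Finset.sum_eq_single 1] at this
  · rw [map_pow, eval_X, if_pos rfl, one_pow] at this
    exact one_ne_zero this
  · intro b _ hb
    rw [map_pow, eval_X, if_neg hb]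
    simp
  · intro h; exact absurd (Finset.mem_univ _) h

theorem qP_ne_zero (n : ℕ) : qP n ≠ 0 := by
  intro h
  have := congrArg (eval (fun l : Fin (n + 1) => if l = 0 then (1 : ℂ) else 0)) h
  unfold qP at this
  rw [map_sum, Finset.sum_eq_single 0] at this
  · rw [map_pow, eval_X, if_pos rfl, one_pow, map_zero] at this
    exact one_ne_zero this
  · intro b _ hb
    rw [map_pow, eval_X, if_neg hb]
    simp
  · intro h; exact absurd (Finset.mem_univ _) h

theorem qP_not_isUnit (n : ℕ) : ¬ IsUnit (qP n) := by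
  intro h
  have h1 := h.map (eval (0 : Fin (n + 1) → ℂ))
  have h2 : eval (0 : Fin (n + 1) → ℂ) (qP n) = 0 := by
    unfold qP
    rw [map_sum]
    apply Finset.sum_eq_zero
    intro j _
    rw [map_pow, eval_X]
    simp
  rw [h2] at h1
  exact not_isUnit_zero h1

theorem pderiv_qP (j : Fin (n + 1)) : pderiv j (qP n) = 2 * X j := by
  unfold qP
  rw [map_sum, Finset.sum_eq_single j]
  · rw [pderiv_pow, pderiv_X_self]
    simp
  · intro b _ hb
    rw [pderiv_pow, pderiv_X_of_ne hb, mul_zero]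
  · intro h; exact absurd (Finset.mem_univ _) h

theorem qP_dvd_of_mul (hn : 1 ≤ n) (h : MvPolynomial (Fin (n + 1)) ℂ) (hd : qP n ∣ X 0 * h) :
    qP n ∣ h := by
  obtain ⟨g, hg⟩ := hd
  have h1 : (X 0 : MvPolynomial (Fin (n + 1)) ℂ) ∣ qP n * g := ⟨h, hg.symm⟩
  rcases X_prime.dvd_or_dvd h1 with h2 | h2
  · exact absurd h2 (X_not_dvd_qP hn)
  · obtain ⟨g', rfl⟩ := h2
    refine ⟨g', ?_⟩
    have h3 : X 0 * h = X 0 * (qP n * g') := by rw [hg]; ring
    exact mul_left_cancel₀ (X_ne_zero 0) h3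

theorem const_of_pderiv_eq_zero (h : MvPolynomial (Fin (n + 1)) ℂ) (hd : ∀ j, pderiv j h = 0) :
    ∃ c, h = C c := by
  refine ⟨coeff 0 h, ?_⟩
  ext μ
  rw [coeff_C]
  split_ifs with h0
  · rw [h0]
  · have hex : ∃ j, μ j ≠ 0 := by
      by_contra hcon
      push Not at hcon
      apply h0
      ext j
      exact (hcon j).symm
    obtain ⟨j, hj⟩ := hex
    have h1 := coeff_pderiv (i := j) h (μ - Finsupp.single j 1)
    rw [hd j, coeff_zero, tsub_add_cancel_of_le] at h1
    · rcases mul_eq_zero.mp h1.symm with h2 | h2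
      · exact h2
      · exfalso
        have h3 : ((((μ - Finsupp.single j 1 : Fin (n + 1) →₀ ℕ) j + 1 : ℕ)) : ℂ) = 0 := by
          exact_mod_cast h2
        have := Nat.cast_eq_zero.mp h3
        omega
    · rw [Finsupp.single_le_iff]
      omega

theorem X_mul_of_K0 (T : Tensor n d) (hT : T ∈ K0 n d) (k : Fin d) (hn : 1 ≤ n) :
    ∃ h : MvPolynomial (Fin (n + 1)) ℂ, ∀ j, phiP k j T = X j * h := by
  rw [mem_K0_iff] at hT
  have h1 : ∀ a, ∃ h, phiP k a T = X a * h := by
    intro a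
    have hex : ∃ b : Fin (n + 1), a ≠ b := by
      by_cases h0 : a = 0
      · exact ⟨1, by rw [h0]; exact (one_ne_zero_fin hn).symm⟩
      · exact ⟨0, h0⟩
    obtain ⟨b, hab⟩ := hex
    have h2 : (X a : MvPolynomial (Fin (n + 1)) ℂ) ∣ X b * phiP k a T := ⟨_, (hT k a b).symm⟩
    rcases X_prime.dvd_or_dvd h2 with h3 | h3
    · exact absurd h3 (X_not_dvd_X hab)
    · exact h3
  choose h hh using h1
  refine ⟨h 0, fun j => ?_⟩
  rw [hh j]
  congr 1
  have h2 := hT k 0 j
  rw [hh 0, hh j] at h2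
  have h3 : (X 0 * X j : MvPolynomial (Fin (n + 1)) ℂ) * h j = (X 0 * X j) * h 0 := by
    linear_combination h2
  exact mul_left_cancel₀ (mul_ne_zero (X_ne_zero 0) (X_ne_zero j)) h3

theorem h_of_K0 (hn : 1 ≤ n) (hd : 1 ≤ d) (T : Tensor n d) (hT : T ∈ K0 n d) :
    ∃ h : MvPolynomial (Fin (n + 1)) ℂ, (∀ k j, phiP k j T = X j * h) ∧
      ∀ j, C ((d : ℂ) - 2) * (X j * h) = qP n * pderiv j h := by
  have h1 := fun k => X_mul_of_K0 T hT k hn
  choose h hh using h1
  have hF : ∀ k, formP n d T = qP n * h k := by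
    intro k
    rw [← sum_X_phiP k T]
    unfold qP
    rw [Finset.sum_mul]
    refine Finset.sum_congr rfl fun j _ => ?_
    rw [hh k j]; ring
  have heq : ∀ k, h k = h ⟨0, hd⟩ := by
    intro k
    have := (hF k).symm.trans (hF ⟨0, hd⟩)
    exact mul_left_cancel₀ (qP_ne_zero n) this
  refine ⟨h ⟨0, hd⟩, fun k j => by rw [hh k j, heq k], fun j => ?_⟩
  have h2 := pderiv_formP j T
  rw [hF ⟨0, hd⟩, pderiv_mul, pderiv_qP] at h2
  rw [Finset.sum_congr rfl fun k _ => by rw [hh k j, heq k], Finset.sum_const, Finset.card_univ,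
    Fintype.card_fin, nsmul_eq_mul] at h2
  have h3 : (C ((d : ℂ) - 2) : MvPolynomial (Fin (n + 1)) ℂ) = (d : MvPolynomial (Fin (n + 1)) ℂ) - 2 := by
    rw [map_sub, map_natCast, map_ofNat]
  rw [h3]
  linear_combination -h2

theorem h_form (hn : 1 ≤ n) (h : MvPolynomial (Fin (n + 1)) ℂ)
    (hh : ∀ j, C ((d : ℂ) - 2) * (X j * h) = qP n * pderiv j h) (h0 : h ≠ 0) :
    ∃ e : ℕ, d = 2 * e + 2 ∧ ∃ c : ℂ, c ≠ 0 ∧ h = C c * qP n ^ e := by
  have hfm : FiniteMultiplicity (qP n) h := FiniteMultiplicity.of_not_isUnit (qP_not_isUnit n) h0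
  obtain ⟨h', hh', hnd⟩ := hfm.exists_eq_pow_mul_and_not_dvd
  set e := multiplicity (qP n) h with he
  have key : ∀ j, C ((d : ℂ) - 2 - 2 * e) * (X j * h') = qP n * pderiv j h' := by
    intro j
    have h1 := hh j
    rw [hh', pderiv_mul, pderiv_pow, pderiv_qP] at h1
    have h2 : (C ((d : ℂ) - 2 - 2 * e) : MvPolynomial (Fin (n + 1)) ℂ) = C ((d : ℂ) - 2) - 2 * (e : MvPolynomial (Fin (n + 1)) ℂ) := by
      rw [map_sub C ((d : ℂ) - 2), map_mul, map_natCast, map_ofNat]
    have h3 : qP n * ((e : MvPolynomial (Fin (n + 1)) ℂ) * qP n ^ (e - 1)) = e * qP n ^ e := by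
      rcases Nat.eq_zero_or_pos e with h4 | h4
      · rw [h4]; simp
      · have : qP n ^ e = qP n ^ (e - 1) * qP n := by
          rw [← pow_succ]; congr 1; omega
        rw [this]; ring
    have h5 : qP n ^ e * (C ((d : ℂ) - 2 - 2 * e) * (X j * h')) = qP n ^ e * (qP n * pderiv j h') := by
      rw [h2]
      linear_combination h1 + 2 * X j * h' * h3
    exact mul_left_cancel₀ (pow_ne_zero _ (qP_ne_zero n)) h5
  have hde : (d : ℂ) - 2 - 2 * e = 0 := by
    by_contra hne
    apply hnd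
    apply qP_dvd_of_mul hn
    have h1 := key 0
    refine ⟨C ((d : ℂ) - 2 - 2 * e)⁻¹ * pderiv 0 h', ?_⟩
    have h2 : (C (((d : ℂ) - 2 - 2 * e)⁻¹) * C ((d : ℂ) - 2 - 2 * e) : MvPolynomial (Fin (n + 1)) ℂ) = 1 := by
      rw [← C_mul, inv_mul_cancel₀ hne, C_1]
    calc X 0 * h' = (C (((d : ℂ) - 2 - 2 * e)⁻¹) * C ((d : ℂ) - 2 - 2 * e)) * (X 0 * h') := by
          rw [h2, one_mul]
      _ = C (((d : ℂ) - 2 - 2 * e)⁻¹) * (C ((d : ℂ) - 2 - 2 * e) * (X 0 * h')) := by ring
      _ = C (((d : ℂ) - 2 - 2 * e)⁻¹) * (qP n * pderiv 0 h') := by rw [h1]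
      _ = qP n * (C (((d : ℂ) - 2 - 2 * e)⁻¹) * pderiv 0 h') := by ring
  refine ⟨e, ?_, ?_⟩
  · have h1 : (d : ℂ) = ((2 * e + 2 : ℕ) : ℂ) := by
      push_cast
      linear_combination hde
    exact Nat.cast_injective h1
  · have h1 : ∀ j, pderiv j h' = 0 := by
      intro j
      have h2 := key j
      rw [hde, C_0, zero_mul] at h2
      exact (mul_eq_zero.mp h2.symm).resolve_left (qP_ne_zero n)
    obtain ⟨c, hc⟩ := const_of_pderiv_eq_zero h' h1
    refine ⟨c, ?_, ?_⟩
    · rintro rfl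
      apply h0
      rw [hh', hc, C_0, mul_zero]
    · rw [hh', hc, mul_comm]

theorem K0_odd (hn : 1 ≤ n) (hd : 1 ≤ d) (hodd : ¬ Even d) : K0 n d = K00 n d := by
  apply le_antisymm _ K00_le_K0
  intro T hT
  obtain ⟨h, h1, h2⟩ := h_of_K0 hn hd T hT
  by_cases h0 : h = 0
  · rw [mem_K00]
    intro k j
    rw [h1 k j, h0, mul_zero]
  · obtain ⟨e, he, _⟩ := h_form hn h h2 h0
    exact absurd ⟨e + 1, by omega⟩ hodd

/-- a tensor with all vectors eigenvectors -/
noncomputable def Tq (n d : ℕ) : Tensor n d := fun i => if ∀ m, i (Fin.rev m) = i m then 1 else 0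

theorem Tq_mem (heven : Even d) : Tq n d ∈ K0 n d := by
  classical
  intro k v
  have hrev : Fin.rev k ≠ k := by
    intro h
    have := congrArg Fin.val h
    rw [Fin.val_rev] at this
    obtain ⟨e, he⟩ := heven
    have hk := k.2
    omega
  let S : Fin (n + 1) → ℂ := fun j =>
    ∑ i ∈ Finset.univ.filter (fun i : Fin d → Fin (n + 1) => i k = j ∧ ∀ m, i (Fin.rev m) = i m),
      ∏ m ∈ (Finset.univ.erase k).erase (Fin.rev k), v (i m)
  have h1 : ∀ j, contractR (Tq n d) k v j = v j * S j := by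
    intro j
    show _ = v j * ∑ i ∈ Finset.univ.filter (fun i : Fin d → Fin (n + 1) => i k = j ∧ ∀ m, i (Fin.rev m) = i m),
      ∏ m ∈ (Finset.univ.erase k).erase (Fin.rev k), v (i m)
    rw [Finset.mul_sum, Finset.sum_filter]
    unfold contractR
    refine Finset.sum_congr rfl fun i _ => ?_
    unfold Tq
    by_cases h2 : i k = j
    · by_cases h3 : ∀ m, i (Fin.rev m) = i m
      · rw [if_pos h2, if_pos h3, if_pos ⟨h2, h3⟩, one_mul,
          ← Finset.mul_prod_erase (Finset.univ.erase k) (fun m => v (i m))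
            (Finset.mem_erase.mpr ⟨hrev, Finset.mem_univ _⟩), h3 k, h2]
      · rw [if_pos h2, if_neg h3, if_neg (fun h => h3 h.2), zero_mul]
    · rw [if_neg h2, if_neg (fun h => h2 h.1)]
  have h2 : ∀ j j', S j = S j' := by
    intro j j'
    have hmap : ∀ a b : Fin (n + 1), ∀ i : Fin d → Fin (n + 1),
        (i k = a ∧ ∀ m, i (Fin.rev m) = i m) →
        ((fun m => if m = k ∨ m = Fin.rev k then b else i m) k = b ∧
          ∀ m, (fun m => if m = k ∨ m = Fin.rev k then b else i m) (Fin.rev m) =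
            (fun m => if m = k ∨ m = Fin.rev k then b else i m) m) := by
      intro a b i hi
      refine ⟨by simp, fun m => ?_⟩
      show (if Fin.rev m = k ∨ Fin.rev m = Fin.rev k then b else i (Fin.rev m)) =
        (if m = k ∨ m = Fin.rev k then b else i m)
      rw [hi.2 m]
      congr 1
      apply propext
      rw [Fin.rev_inj, or_comm]
      have : Fin.rev m = k ↔ m = Fin.rev k := by
        constructor
        · rintro rfl; rw [Fin.rev_rev]
        · rintro rfl; rw [Fin.rev_rev]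
      rw [this]
    have hinv : ∀ a b : Fin (n + 1), ∀ i : Fin d → Fin (n + 1),
        (i k = a ∧ ∀ m, i (Fin.rev m) = i m) →
        (fun m => if m = k ∨ m = Fin.rev k then a else
          (fun m => if m = k ∨ m = Fin.rev k then b else i m) m) = i := by
      intro a b i hi
      funext m
      by_cases hm : m = k ∨ m = Fin.rev k
      · show (if m = k ∨ m = Fin.rev k then a else _) = i m
        rw [if_pos hm]
        rcases hm with rfl | rfl
        · exact hi.1.symm
        · rw [hi.2 k, hi.1]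
      · show (if m = k ∨ m = Fin.rev k then a else (if m = k ∨ m = Fin.rev k then b else i m)) = i m
        rw [if_neg hm, if_neg hm]
    refine Finset.sum_nbij' (fun i m => if m = k ∨ m = Fin.rev k then j' else i m)
      (fun i m => if m = k ∨ m = Fin.rev k then j else i m) ?_ ?_ ?_ ?_ ?_
    · intro i hi
      rw [Finset.mem_filter] at hi ⊢
      exact ⟨Finset.mem_univ _, hmap j j' i hi.2⟩
    · intro i hi
      rw [Finset.mem_filter] at hi ⊢
      exact ⟨Finset.mem_univ _, hmap j' j i hi.2⟩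
    · intro i hi
      rw [Finset.mem_filter] at hi
      exact hinv j j' i hi.2
    · intro i hi
      rw [Finset.mem_filter] at hi
      exact hinv j' j i hi.2
    · intro i hi
      refine Finset.prod_congr rfl fun m hm => ?_
      rw [Finset.mem_erase, Finset.mem_erase] at hm
      show v (i m) = v (if m = k ∨ m = Fin.rev k then j' else i m)
      rw [if_neg]
      rintro (h | h)
      · exact hm.2.1 h
      · exact hm.1 h
  intro a b
  unfold minorR
  rw [h1 a, h1 b, h2 b a]
  ring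

theorem Tq_not_mem (hd : 1 ≤ d) : Tq n d ∉ K00 n d := by
  rw [mem_K00]
  intro h
  have h1 := congrArg (eval (fun a : Fin (n + 1) => if a = 0 then (1 : ℂ) else 0)) (h ⟨0, hd⟩ 0)
  rw [eval_phiP, map_zero] at h1
  unfold contractR at h1
  rw [Finset.sum_eq_single (fun _ => 0)] at h1
  · rw [if_pos rfl] at h1
    unfold Tq at h1
    rw [if_pos (fun _ => rfl), one_mul, Finset.prod_congr rfl fun m _ => if_pos rfl,
      Finset.prod_const_one] at h1
    exact one_ne_zero h1
  · intro i _ hi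
    by_cases h2 : i ⟨0, hd⟩ = 0
    · rw [if_pos h2]
      have hex : ∃ m, i m ≠ 0 := by
        by_contra hcon
        push Not at hcon
        exact hi (funext hcon)
      obtain ⟨m, hm⟩ := hex
      have hmk : m ≠ ⟨0, hd⟩ := by
        rintro rfl
        exact hm h2
      rw [Finset.prod_eq_zero (Finset.mem_erase.mpr ⟨hmk, Finset.mem_univ m⟩) (if_neg hm), mul_zero]
    · rw [if_neg h2]
  · intro h; exact absurd (Finset.mem_univ _) h

theorem K0_even (hn : 1 ≤ n) (hd : 1 ≤ d) (heven : Even d) :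
    K0 n d = K00 n d ⊔ Submodule.span ℂ {Tq n d} := by
  apply le_antisymm
  · intro T hT
    obtain ⟨h, h1, h2⟩ := h_of_K0 hn hd T hT
    obtain ⟨g, g1, g2⟩ := h_of_K0 hn hd (Tq n d) (Tq_mem heven)
    have hg0 : g ≠ 0 := by
      rintro rfl
      apply Tq_not_mem (n := n) hd
      rw [mem_K00]
      intro k j
      rw [g1 k j, mul_zero]
    obtain ⟨e, he, c, hc, hge⟩ := h_form hn g g2 hg0
    have hex : ∃ a : ℂ, h = C a * g := by
      by_cases h0 : h = 0
      · exact ⟨0, by rw [h0, C_0, zero_mul]⟩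
      · obtain ⟨e', he', c', hc', hhe⟩ := h_form hn h h2 h0
        have hee : e' = e := by omega
        refine ⟨c' / c, ?_⟩
        rw [hhe, hge, hee, ← mul_assoc, ← C_mul, div_mul_cancel₀ _ hc]
    obtain ⟨a, ha⟩ := hex
    have h3 : T = (T - a • Tq n d) + a • Tq n d := by abel
    rw [h3]
    refine Submodule.add_mem_sup ?_ (Submodule.smul_mem _ _ (Submodule.mem_span_singleton_self _))
    rw [mem_K00]
    intro k j
    rw [map_sub, map_smul, h1 k j, g1 k j, ha, smul_eq_C_mul]
    ring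
  · rw [sup_le_iff]
    refine ⟨K00_le_K0, ?_⟩
    rw [Submodule.span_le, Set.singleton_subset_iff]
    exact Tq_mem heven

theorem finrank_K0 (hn : 1 ≤ n) (hd : 1 ≤ d) :
    Module.finrank ℂ (K0 n d) = Module.finrank ℂ (K00 n d) + (if Even d then 1 else 0) := by
  split_ifs with heven
  · rw [K0_even hn hd heven]
    have h1 := Submodule.finrank_sup_add_finrank_inf_eq (K00 n d) (Submodule.span ℂ {Tq n d})
    have h2 : Tq n d ≠ 0 := by
      intro h
      apply Tq_not_mem (n := n) hd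
      rw [h]
      exact Submodule.zero_mem _
    have h3 : K00 n d ⊓ Submodule.span ℂ {Tq n d} = ⊥ := by
      rw [eq_bot_iff]
      intro x hx
      rw [Submodule.mem_inf, Submodule.mem_span_singleton] at hx
      obtain ⟨hx1, a, rfl⟩ := hx
      by_cases ha : a = 0
      · rw [ha, zero_smul]
        exact Submodule.zero_mem _
      · exfalso
        apply Tq_not_mem (n := n) hd
        have := Submodule.smul_mem _ a⁻¹ hx1
        rwa [smul_smul, inv_mul_cancel₀ ha, one_smul] at this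
    rw [h3, finrank_bot, add_zero, finrank_span_singleton h2] at h1
    exact h1
  · rw [K0_odd hn hd heven, add_zero]

theorem finrank_quot (hn : 1 ≤ n) (hd : 1 ≤ d) :
    Module.finrank ℂ (Tensor n d ⧸ K0 n d) =
      (n + d).choose d + (d - 1) ^ 2 * (n + d - 1).choose d - (if Even d then 1 else 0) := by
  have h1 := Submodule.finrank_quotient_add_finrank (K0 n d)
  have h2 := finrank_K00 (n := n) hd ⟨0, hd⟩
  rw [card_JJ] at h2
  rw [finrank_K0 hn hd, ← h2] at h1
  omega

end Pool.Agent.Helper834.EC
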