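import Mathlib
import Pool.Agent.Helper834.EC.Topo4
import Pool.Agent.Helper834.EC.Dim3
import Pool.Agent.Helper834.EC.Tens1

namespace Pool.Agent.Helper834.EC

open MvPolynomial
open scoped LinearAlgebra.Projectivization

variable {n d : ℕ}

/-- every eigenvector of `T` is proportional to one of the `y (k, j)` -/
def Complete (T : Tensor n d) (y : Ix n d → V n) : Prop :=
  ∀ k (v : V n), v ≠ 0 → IsEig T k v → ∃ j, ∃ s : ℂ, v = s • y (k, j)

theorem mem_Sc_eigenConfs (c : Ix n d → Fin (n + 1)) (y : Aff (Ix n d × Fin (n + 1))) :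
    y ∈ Sc (eigenConfs n d) c ↔ (∀ i, y (i, c i) = 1) ∧ ∃ T : Tensor n d,
      (∀ k j, IsEig T k (fun a => y ((k, j), a))) ∧ Complete T (fun i a => y (i, a)) ∧
      ∀ k j j', (∃ s : ℂ, (fun a => y ((k, j), a)) = s • fun a => y ((k, j'), a)) → j = j' := by
  have hne : ∀ (h : ∀ i, y (i, c i) = 1) (i : Ix n d), (fun a => y (i, a)) ≠ (0 : V n) := by
    intro h i h0
    have := congrFun h0 (c i)
    rw [h i] at this
    exact one_ne_zero this
  have hmk : ∀ (h : ∀ i, y (i, c i) = 1) (i : Ix n d), jc c ⟨y, h⟩ i =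
      Projectivization.mk ℂ (fun a => y (i, a)) (hne h i) := fun h i => rfl
  constructor
  · rintro ⟨h, T, hT⟩
    refine ⟨h, T, ?_, ?_, ?_⟩
    · intro k j
      have h1 := (hT k).2 (jc c ⟨y, h⟩ (k, j))
      rw [hmk, isEigenpoint_mk_iff] at h1
      apply h1.mp
      show _ ∈ Multiset.map (fun j : Fin (D n d) => jc c ⟨y, h⟩ (k, j)) Finset.univ.val
      rw [Multiset.mem_map]
      exact ⟨j, Finset.mem_univ j, rfl⟩
    · intro k v hv hE
      have h1 := (hT k).2 (Projectivization.mk ℂ v hv)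
      rw [isEigenpoint_mk_iff] at h1
      have h2 := h1.mpr hE
      have h3 : Projectivization.mk ℂ v hv ∈
        Multiset.map (fun j : Fin (D n d) => jc c ⟨y, h⟩ (k, j)) Finset.univ.val := h2
      rw [Multiset.mem_map] at h3
      obtain ⟨j, _, hj⟩ := h3
      rw [hmk, Projectivization.mk_eq_mk_iff'] at hj
      obtain ⟨a, ha⟩ := hj
      refine ⟨j, a⁻¹, ?_⟩
      have ha0 : a ≠ 0 := by
        rintro rfl
        rw [zero_smul] at ha
        exact hne h (k, j) ha.symm
      show v = a⁻¹ • fun a => y ((k, j), a)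
      rw [← ha, smul_smul, inv_mul_cancel₀ ha0, one_smul]
    · rintro k j j' ⟨s, hs⟩
      have h1 := (hT k).1
      have h2 : (Multiset.map (fun j : Fin (D n d) => jc c ⟨y, h⟩ (k, j)) Finset.univ.val).Nodup := h1
      refine Multiset.inj_on_of_nodup_map h2 j (Finset.mem_univ j) j' (Finset.mem_univ j') ?_
      rw [hmk, hmk, Projectivization.mk_eq_mk_iff']
      exact ⟨s, hs.symm⟩
  · rintro ⟨h, T, h1, h2, h3⟩
    refine ⟨h, T, fun k => ⟨?_, ?_⟩⟩
    · show (Multiset.map (fun j : Fin (D n d) => jc c ⟨y, h⟩ (k, j)) Finset.univ.val).Nodup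
      refine Multiset.Nodup.map_on ?_ Finset.univ.nodup
      intro j _ j' _ hjj
      rw [hmk, hmk, Projectivization.mk_eq_mk_iff'] at hjj
      obtain ⟨s, hs⟩ := hjj
      exact h3 k j j' ⟨s, hs.symm⟩
    · intro p
      induction p using Projectivization.ind with
      | h v hv =>
        rw [isEigenpoint_mk_iff]
        have h4 : Projectivization.mk ℂ v hv ∈ qq (jc c ⟨y, h⟩) k ↔ Projectivization.mk ℂ v hv ∈
          Multiset.map (fun j : Fin (D n d) => jc c ⟨y, h⟩ (k, j)) Finset.univ.val := Iff.rfl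
        rw [h4, Multiset.mem_map]
        constructor
        · rintro ⟨j, _, hj⟩
          rw [hmk, Projectivization.mk_eq_mk_iff'] at hj
          obtain ⟨a, ha⟩ := hj
          have ha0 : a ≠ 0 := by
            rintro rfl
            rw [zero_smul] at ha
            exact hne h (k, j) ha.symm
          have h5 := isEig_smul T k _ a⁻¹ (h1 k j)
          rwa [← ha, smul_smul, inv_mul_cancel₀ ha0, one_smul] at h5
        · intro hE
          obtain ⟨j, s, hs⟩ := h2 k v hv hE
          refine ⟨j, Finset.mem_univ j, ?_⟩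
          rw [hmk, Projectivization.mk_eq_mk_iff']
          have hs0 : s ≠ 0 := by
            rintro rfl
            rw [zero_smul] at hs
            exact hv hs
          refine ⟨s⁻¹, ?_⟩
          rw [hs, smul_smul, inv_mul_cancel₀ hs0, one_smul]

theorem not_mem_K0_of_complete (hn : 1 ≤ n) (k0 : Fin d) (T : Tensor n d) (y : Ix n d → V n)
    (h : Complete T y) : T ∉ K0 n d := by
  intro hT
  let v : ℂ → V n := fun t a => if a = 0 then 1 else if a = 1 then t else 0
  have h01 : (1 : Fin (n + 1)) ≠ 0 := by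
    intro h
    have := congrArg Fin.val h
    rw [Fin.val_one', Fin.val_zero, Nat.mod_eq_of_lt (by omega)] at this
    omega
  have hv0 : ∀ t, v t 0 = 1 := fun t => by simp [v]
  have hv1 : ∀ t, v t 1 = t := fun t => by simp [v, h01]
  have hv : ∀ t, v t ≠ 0 := by
    intro t ht
    have := congrFun ht 0
    rw [hv0] at this
    exact one_ne_zero this
  have h1 : ∀ t, ∃ j, ∃ s : ℂ, v t = s • y (k0, j) := fun t => h k0 (v t) (hv t) (hT k0 (v t))
  choose j s hs using h1
  have hinj : Function.Injective j := by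
    intro t t' htt
    have h2 := hs t
    have h3 := hs t'
    rw [← htt] at h3
    have h4 := congrFun h2 0
    have h5 := congrFun h3 0
    rw [hv0, Pi.smul_apply, smul_eq_mul] at h4 h5
    have hy : y (k0, j t) 0 ≠ 0 := by
      intro h0
      rw [h0, mul_zero] at h4
      exact one_ne_zero h4
    have hss : s t = s t' := mul_right_cancel₀ hy (h4.symm.trans h5)
    have h6 := congrFun (h2.trans (by rw [hss])) 1
    have h7 := congrFun h3 1
    rw [← h7, hv1, hv1] at h6
    exact h6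
  exact not_injective_infinite_finite j hinj

section upper

variable {N : ℕ} (f : Fin N → Tensor n d) (b0 : Fin N)

/-- the tensor with normalised coordinates -/
noncomputable def Tz (s : {b : Fin N // b ≠ b0} → ℂ) : Tensor n d :=
  fun i => ∑ b : Fin N, (if h : b ≠ b0 then s ⟨b, h⟩ else 1) * f b i

/-- the tensor with polynomial entries -/
noncomputable def Tp : (Fin d → Fin (n + 1)) →
    MvPolynomial ({b : Fin N // b ≠ b0} ⊕ (Ix n d × Fin (n + 1))) ℂ :=
  fun i => ∑ b : Fin N, (if h : b ≠ b0 then X (Sum.inl ⟨b, h⟩) else 1) * C (f b i)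

theorem aeval_Tp (z : {b : Fin N // b ≠ b0} ⊕ (Ix n d × Fin (n + 1)) → ℂ) (i : Fin d → Fin (n + 1)) :
    aeval z (Tp f b0 i) = Tz f b0 (fun t => z (Sum.inl t)) i := by
  unfold Tp Tz
  rw [map_sum]
  refine Finset.sum_congr rfl fun b _ => ?_
  rw [map_mul]
  congr 1
  · split_ifs
    · rw [aeval_X]
    · rw [map_one]
  · simp

/-- the equations -/
def Feq (c : Ix n d → Fin (n + 1)) :
    Set (MvPolynomial ({b : Fin N // b ≠ b0} ⊕ (Ix n d × Fin (n + 1))) ℂ) :=
  {g | (∃ i, g = X (Sum.inr (i, c i)) - 1) ∨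
    ∃ k j a b, g = minorR (Tp f b0) k (fun a => X (Sum.inr ((k, j), a))) a b}

theorem aeval_minor (z : {b : Fin N // b ≠ b0} ⊕ (Ix n d × Fin (n + 1)) → ℂ) (k : Fin d)
    (j : Fin (D n d)) (a b : Fin (n + 1)) :
    aeval z (minorR (Tp f b0) k (fun a => X (Sum.inr ((k, j), a))) a b) =
    minorR (Tz f b0 (fun t => z (Sum.inl t))) k (fun a => z (Sum.inr ((k, j), a))) a b := by
  have h := map_minorR (aeval z : MvPolynomial _ ℂ →ₐ[ℂ] ℂ).toRingHom (Tp f b0) k
    (fun a => X (Sum.inr ((k, j), a))) a b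
  refine h.trans ?_
  congr 1
  · funext i
    exact aeval_Tp f b0 z i
  · funext a
    exact aeval_X _ _

theorem aeval_Feq_iff (c : Ix n d → Fin (n + 1))
    (z : {b : Fin N // b ≠ b0} ⊕ (Ix n d × Fin (n + 1)) → ℂ) :
    (∀ g ∈ Feq f b0 c, aeval z g = 0) ↔ (∀ i, z (Sum.inr (i, c i)) = 1) ∧
      ∀ k j, IsEig (Tz f b0 (fun t => z (Sum.inl t))) k (fun a => z (Sum.inr ((k, j), a))) := by
  constructor
  · intro h
    refine ⟨fun i => ?_, fun k j a b => ?_⟩
    · have := h _ (Or.inl ⟨i, rfl⟩)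
      rw [map_sub, map_one, aeval_X] at this
      exact sub_eq_zero.mp this
    · have := h _ (Or.inr ⟨k, j, a, b, rfl⟩)
      rwa [aeval_minor] at this
  · rintro ⟨h1, h2⟩ g (⟨i, rfl⟩ | ⟨k, j, a, b, rfl⟩)
    · rw [map_sub, map_one, aeval_X, h1 i, sub_self]
    · rw [aeval_minor]
      exact h2 k j a b

/-- the incidence variety -/
def Gam (c : Ix n d → Fin (n + 1)) : Set ({b : Fin N // b ≠ b0} ⊕ (Ix n d × Fin (n + 1)) → ℂ) :=
  {z | (∀ i, z (Sum.inr (i, c i)) = 1) ∧
      (∀ k j, IsEig (Tz f b0 (fun t => z (Sum.inl t))) k (fun a => z (Sum.inr ((k, j), a)))) ∧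
      Complete (Tz f b0 (fun t => z (Sum.inl t))) (fun i a => z (Sum.inr (i, a)))}

theorem fibre_finite (c : Ix n d → Fin (n + 1))
    (z : {b : Fin N // b ≠ b0} ⊕ (Ix n d × Fin (n + 1)) → ℂ) (hz : z ∈ Gam f b0 c) :
    {y : Ix n d × Fin (n + 1) → ℂ |
      ∀ g ∈ Feq f b0 c, aeval (Sum.elim (fun t => z (Sum.inl t)) y) g = 0}.Finite := by
  classical
  obtain ⟨hz1, hz2, hz3⟩ := hz
  set T := Tz f b0 (fun t => z (Sum.inl t)) with hT
  -- candidate values at index i
  let A : Ix n d → Set (V n) := fun i => Set.range fun j : Fin (D n d) =>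
    ((z (Sum.inr ((i.1, j), c i)))⁻¹ • fun a => z (Sum.inr ((i.1, j), a)) : V n)
  have hA : ∀ i, (A i).Finite := fun i => Set.finite_range _
  have hpi : (Set.univ.pi A).Finite := Set.Finite.pi fun i => hA i
  refine Set.Finite.subset (hpi.image (fun (u : Ix n d → V n) (p : Ix n d × Fin (n + 1)) => u p.1 p.2)) ?_
  intro y hy
  have hy' := (aeval_Feq_iff f b0 c _).mp hy
  simp only [Sum.elim_inl, Sum.elim_inr] at hy'
  obtain ⟨hy1, hy2⟩ := hy'
  refine ⟨fun i a => y (i, a), ?_, ?_⟩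
  · intro i _
    have hne : (fun a => y (i, a)) ≠ (0 : V n) := by
      intro h0
      have := congrFun h0 (c i)
      rw [hy1 i] at this
      exact one_ne_zero this
    obtain ⟨j, s, hs⟩ := hz3 i.1 (fun a => y (i, a)) hne (hy2 i.1 i.2)
    refine ⟨j, ?_⟩
    have h1 := congrFun hs (c i)
    rw [hy1 i] at h1
    have h2 : (1 : ℂ) = s * z (Sum.inr ((i.1, j), c i)) := h1
    have h3 : z (Sum.inr ((i.1, j), c i)) ≠ 0 := by
      intro h0
      rw [h0, mul_zero] at h2
      exact one_ne_zero h2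
    show ((z (Sum.inr ((i.1, j), c i)))⁻¹ • fun a => z (Sum.inr ((i.1, j), a)) : V n) = fun a => y (i, a)
    rw [hs]
    congr 1
    rw [eq_comm]
    exact eq_inv_of_mul_eq_one_left h2.symm
  · rfl

end upper

theorem dim_chart_le_of (hn : 1 ≤ n) (hd : 1 ≤ d) (c : Ix n d → Fin (n + 1))
    (W : Set (Aff (Ix n d × Fin (n + 1))))
    (hW : ∀ y ∈ W, (∀ i, y (i, c i) = 1) ∧ ∃ T : Tensor n d,
      (∀ k j, IsEig T k (fun a => y ((k, j), a))) ∧ Complete T (fun i a => y (i, a))) :
    ringKrullDim (MvPolynomial (Ix n d × Fin (n + 1)) ℂ ⧸ idl W) ≤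
      ((Module.finrank ℂ (Tensor n d ⧸ K0 n d) - 1 : ℕ) : WithBot ℕ∞) := by
  classical
  set N := Module.finrank ℂ (Tensor n d ⧸ K0 n d) with hN
  let B : Module.Basis (Fin N) ℂ (Tensor n d ⧸ K0 n d) := Module.finBasis ℂ (Tensor n d ⧸ K0 n d)
  have hlift : ∀ b : Fin N, ∃ t : Tensor n d, (K0 n d).mkQ t = B b := fun b =>
    Submodule.mkQ_surjective _ _
  choose f hf using hlift
  apply ringKrullDim_quotient_le_of_primes
  intro P hP hle
  -- find b0
  have hex : ∃ b0 : Fin N, vanishingIdeal ℂ ((fun (z : {b : Fin N // b ≠ b0} ⊕ (Ix n d × Fin (n + 1)) → ℂ)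
      (i : Ix n d × Fin (n + 1)) => z (Sum.inr i)) '' Gam f b0 c) ≤ P := by
    by_contra hcon
    push Not at hcon
    have h1 : ∀ b0 : Fin N, ∃ g ∈ vanishingIdeal ℂ ((fun (z : {b : Fin N // b ≠ b0} ⊕ (Ix n d × Fin (n + 1)) → ℂ)
      (i : Ix n d × Fin (n + 1)) => z (Sum.inr i)) '' Gam f b0 c), g ∉ P := fun b0 =>
      Set.not_subset.mp (hcon b0)
    choose g hg1 hg2 using h1
    have hprod : ∏ b, g b ∉ P := by
      intro hmem
      rw [hP.prod_mem_iff] at hmem
      obtain ⟨b, _, hb⟩ := hmem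
      exact hg2 b hb
    apply hprod
    apply hle
    rw [mem_idl]
    intro y hy
    obtain ⟨hy1, T, hT1, hT2⟩ := hW y hy
    have hTK := not_mem_K0_of_complete hn ⟨0, hd⟩ T _ hT2
    have hrepr : ∃ b0, B.repr ((K0 n d).mkQ T) b0 ≠ 0 := by
      by_contra hcon2
      push Not at hcon2
      apply hTK
      have : B.repr ((K0 n d).mkQ T) = 0 := by
        ext b; exact hcon2 b
      rw [LinearEquiv.map_eq_zero_iff] at this
      rw [Submodule.mkQ_apply, Submodule.Quotient.mk_eq_zero] at this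
      exact this
    obtain ⟨b0, hb0⟩ := hrepr
    set r := B.repr ((K0 n d).mkQ T) with hr
    rw [map_prod]
    apply Finset.prod_eq_zero (Finset.mem_univ b0)
    -- y is in the projection of Gam
    have hyG : (fun i => y i) ∈ ((fun (z : {b : Fin N // b ≠ b0} ⊕ (Ix n d × Fin (n + 1)) → ℂ)
      (i : Ix n d × Fin (n + 1)) => z (Sum.inr i)) '' Gam f b0 c) := by
      let s : {b : Fin N // b ≠ b0} → ℂ := fun b => r b.1 / r b0
      have hTz : T - r b0 • Tz f b0 s ∈ K0 n d := by
        rw [← Submodule.Quotient.mk_eq_zero, ← Submodule.mkQ_apply, map_sub, sub_eq_zero]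
        have h5 : r b0 • Tz f b0 s = ∑ b, r b • f b := by
          funext i
          rw [Finset.sum_apply]
          show r b0 * (∑ b : Fin N, (if h : b ≠ b0 then s ⟨b, h⟩ else 1) * f b i) = ∑ b, r b * f b i
          rw [Finset.mul_sum]
          refine Finset.sum_congr rfl fun b _ => ?_
          rw [← mul_assoc]
          congr 1
          split_ifs with h
          · show r b0 * (r b / r b0) = r b
            field_simp
          · have : b = b0 := not_not.mp h
            rw [this, mul_one]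
        rw [h5, map_sum]
        have h6 := B.sum_repr ((K0 n d).mkQ T)
        rw [← h6]
        refine Finset.sum_congr rfl fun b _ => ?_
        rw [map_smul, hf b]
      have heig : ∀ k v, IsEig (Tz f b0 s) k v ↔ IsEig T k v := by
        intro k v
        rw [isEig_congr hTz, isEig_smul_tensor hb0]
      refine ⟨Sum.elim s (fun i => y i), ⟨?_, ?_, ?_⟩, ?_⟩
      · intro i; exact hy1 i
      · intro k j
        exact (heig k _).mpr (hT1 k j)
      · intro k v hv hE
        exact hT2 k v hv ((heig k v).mp hE)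
      · rfl
    exact hg1 b0 _ hyG
  obtain ⟨b0, hb0⟩ := hex
  have hcard : Nat.card {b : Fin N // b ≠ b0} = N - 1 := by
    rw [Nat.card_eq_fintype_card, Fintype.card_subtype_compl, Fintype.card_fin,
      Fintype.card_subtype_eq]
  rw [← hcard]
  refine dim_le (Gam f b0 c) (Feq f b0 c) ?_ ?_ P hP hb0
  · intro z hz
    exact (aeval_Feq_iff f b0 c z).mpr ⟨hz.1, hz.2.1⟩
  · exact fibre_finite f b0 c

theorem dim_chart_le (hn : 1 ≤ n) (hd : 1 ≤ d) (c : Ix n d → Fin (n + 1)) :
    ringKrullDim (MvPolynomial (Ix n d × Fin (n + 1)) ℂ ⧸ idl (Sc (eigenConfs n d) c)) ≤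
      ((Module.finrank ℂ (Tensor n d ⧸ K0 n d) - 1 : ℕ) : WithBot ℕ∞) := by
  apply dim_chart_le_of hn hd c
  intro y hy
  rw [mem_Sc_eigenConfs] at hy
  obtain ⟨hy1, T, hT1, hT2, _⟩ := hy
  exact ⟨hy1, T, hT1, hT2⟩

end Pool.Agent.Helper834.EC
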