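import Mathlib
import Pool.Agent.Helper834.EC.Upper
import Pool.Agent.Helper834.EC.Dim2
import Pool.Agent.Helper834.EC.Base3
import Pool.Agent.Helper834.EC.Rigid3

namespace Pool.Agent.Helper834.EC

open MvPolynomial Filter Topology
open scoped LinearAlgebra.Projectivization

variable {n d : ℕ}

section cramer

variable {ρ τ : Type} [Fintype ρ] [Fintype τ] [DecidableEq τ]

/-- matrix product -/
def mm {R : Type*} [CommRing R] (Q : Matrix τ ρ R) (A : Matrix ρ τ R) : Matrix τ τ R := Q * A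

theorem mm_map {R S : Type*} [CommRing R] [CommRing S] (f : R →+* S) (Q : Matrix τ ρ R)
    (A : Matrix ρ τ R) : f.mapMatrix (mm Q A) = mm (Q.map f) (A.map f) := by
  unfold mm
  rw [RingHom.mapMatrix_apply, Matrix.map_mul]

theorem adj_solve {R : Type*} [CommRing R] (Q : Matrix τ ρ R) (A : Matrix ρ τ R) (b : ρ → R)
    (u : τ → R) (h : A.mulVec u = b) (t : τ) :
    ((mm Q A).adjugate.mulVec (Q.mulVec b)) t = u t * (mm Q A).det := by
  unfold mm
  rw [← h, Matrix.mulVec_mulVec, Matrix.mulVec_mulVec, Matrix.mul_assoc, Matrix.adjugate_mul,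
    Matrix.smul_mulVec, Matrix.one_mulVec, Pi.smul_apply, smul_eq_mul, mul_comm]

theorem map_adj_solve {R S : Type*} [CommRing R] [CommRing S] (f : R →+* S) (Q : Matrix τ ρ R)
    (A : Matrix ρ τ R) (b : ρ → R) (t : τ) :
    f (((mm Q A).adjugate.mulVec (Q.mulVec b)) t) =
      ((mm (Q.map f) (A.map f)).adjugate.mulVec ((Q.map f).mulVec (fun r => f (b r)))) t := by
  rw [RingHom.map_mulVec]
  have h2 : ((mm Q A).adjugate.map f) = (mm (Q.map f) (A.map f)).adjugate := by
    rw [← mm_map, ← RingHom.map_adjugate]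
    rfl
  rw [h2]
  congr 1
  congr 1
  funext s
  rw [Function.comp_apply, RingHom.map_mulVec]
  rfl

theorem map_det_mm {R S : Type*} [CommRing R] [CommRing S] (f : R →+* S) (Q : Matrix τ ρ R)
    (A : Matrix ρ τ R) : f (mm Q A).det = (mm (Q.map f) (A.map f)).det := by
  rw [RingHom.map_det, mm_map]

theorem exists_left_inv_matrix [DecidableEq ρ] (A : Matrix ρ τ ℂ)
    (h : ∀ u : τ → ℂ, A.mulVec u = 0 → u = 0) :
    ∃ Q : Matrix τ ρ ℂ, mm Q A = 1 := by
  have hker : (Matrix.mulVecLin A).ker = ⊥ := by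
    rw [LinearMap.ker_eq_bot']
    intro u hu
    exact h u hu
  obtain ⟨g, hg⟩ := LinearMap.exists_leftInverse_of_injective _ hker
  refine ⟨LinearMap.toMatrix' g, ?_⟩
  have h1 : LinearMap.toMatrix' (Matrix.mulVecLin A) = A := LinearMap.toMatrix'_toLin' A
  have h2 := LinearMap.toMatrix'_comp g (Matrix.mulVecLin A)
  rw [hg, h1, LinearMap.toMatrix'_id] at h2
  exact h2.symm

end cramer

/-- row index set -/
abbrev Row (n d : ℕ) : Type := (Ix n d) × (Fin (n + 1) × Fin (n + 1))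

section polys

variable {M : ℕ} (f : Fin M → Tensor n d)

/-- the matrix of minors with polynomial entries -/
noncomputable def Amat : Matrix (Row n d) (Fin M) (MvPolynomial (Ix n d × Fin (n + 1)) ℂ) :=
  fun r t => minorR (fun i => C (f t i)) r.1.1 (fun a => X (r.1, a)) r.2.1 r.2.2

/-- the right-hand side -/
noncomputable def bvec (n d : ℕ) : Row n d → MvPolynomial (Ix n d × Fin (n + 1)) ℂ :=
  fun r => - minorR (fun i => C (T0 n d i)) r.1.1 (fun a => X (r.1, a)) r.2.1 r.2.2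

theorem eval_minor (T : Tensor n d) (y : Ix n d × Fin (n + 1) → ℂ) (r : Row n d) :
    eval y (minorR (fun i => C (T i)) r.1.1 (fun a => X (r.1, a)) r.2.1 r.2.2) =
      minorR T r.1.1 (fun a => y (r.1, a)) r.2.1 r.2.2 := by
  rw [map_minorR]
  congr 1
  · funext i
    exact eval_C _
  · funext a
    exact eval_X _

theorem minor_lincomb (u : Fin M → ℂ) (k : Fin d) (v : V n) (a b : Fin (n + 1)) :
    minorR (∑ t, u t • f t) k v a b = ∑ t, minorR (f t) k v a b * u t := by
  have h := map_sum (minorL (n := n) (d := d) (R := ℂ) k v a b) (fun t => u t • f t) Finset.univ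
  have h2 : minorL (n := n) (d := d) (R := ℂ) k v a b (∑ t, u t • f t) =
    minorR (∑ t, u t • f t) k v a b := rfl
  rw [← h2, h]
  refine Finset.sum_congr rfl fun t _ => ?_
  rw [map_smul, smul_eq_mul, mul_comm]
  rfl

theorem Amat_map_mulVec (y : Ix n d × Fin (n + 1) → ℂ) (u : Fin M → ℂ) (r : Row n d) :
    ((Amat f).map (eval y)).mulVec u r =
      minorR (∑ t, u t • f t) r.1.1 (fun a => y (r.1, a)) r.2.1 r.2.2 := by
  rw [minor_lincomb]
  show ∑ t, eval y (Amat f r t) * u t = _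
  refine Finset.sum_congr rfl fun t _ => ?_
  unfold Amat
  rw [eval_minor]

theorem map_C_eval (Q : Matrix (Fin M) (Row n d) ℂ) (y : Ix n d × Fin (n + 1) → ℂ) :
    (Q.map (C : ℂ → MvPolynomial (Ix n d × Fin (n + 1)) ℂ)).map (eval y) = Q := by
  ext i j; simp

theorem solve_eq (Q : Matrix (Fin M) (Row n d) ℂ) (y : Ix n d × Fin (n + 1) → ℂ) (u : Fin M → ℂ)
    (h : ∀ k j, IsEig (T0 n d + ∑ t, u t • f t) k (fun a => y ((k, j), a))) (t : Fin M) :
    eval y (((mm (Q.map C) (Amat f)).adjugate.mulVec ((Q.map C).mulVec (bvec n d))) t) =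
      u t * eval y (mm (Q.map C) (Amat f)).det := by
  have hA : ((Amat f).map (eval y)).mulVec u = fun r => eval y (bvec n d r) := by
    funext r
    rw [Amat_map_mulVec]
    have h1 := h r.1.1 r.1.2 r.2.1 r.2.2
    rw [minorR_add] at h1
    unfold bvec
    rw [map_neg, eval_minor]
    linear_combination h1
  rw [map_adj_solve, map_det_mm, map_C_eval]
  exact adj_solve Q ((Amat f).map (eval y)) (fun r => eval y (bvec n d r)) u hA t

end polys

theorem zariski_dense {τ : Type} [Fintype τ] (U : Set (τ → ℂ)) (hU : U ∈ 𝓝 (0 : τ → ℂ))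
    (G : MvPolynomial τ ℂ) (hG : ∀ u ∈ U, aeval u G = 0) : G = 0 := by
  obtain ⟨ε, hε, hball⟩ := Metric.mem_nhds_iff.mp hU
  refine MvPolynomial.funext_set (fun _ => Metric.ball (0 : ℂ) ε) ?_ ?_
  · intro i
    exact infinite_of_mem_nhds (0 : ℂ) (Metric.ball_mem_nhds _ hε)
  · intro x hx
    rw [map_zero]
    have hx' : x ∈ Metric.ball (0 : τ → ℂ) ε := by
      rw [Metric.mem_ball, dist_pi_lt_iff hε]
      intro i
      exact hx i (Set.mem_univ i)
    exact hG x (hball hx')

theorem le_dim_chart (hn : 1 ≤ n) (hd : 3 ≤ d) : ∃ c : Ix n d → Fin (n + 1),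
    ((Module.finrank ℂ (Tensor n d ⧸ K0 n d) - 1 : ℕ) : WithBot ℕ∞) ≤
    ringKrullDim (MvPolynomial (Ix n d × Fin (n + 1)) ℂ ⧸ idl (Sc (eigenConfs n d) c)) := by
  classical
  obtain ⟨c0, e0, h1, h2, h3, h4⟩ := exists_base n hd
  let K1 : Submodule ℂ (Tensor n d) := K0 n d ⊔ Submodule.span ℂ {T0 n d}
  set M := Module.finrank ℂ (Tensor n d ⧸ K1) with hM
  have hNM : Module.finrank ℂ (Tensor n d ⧸ K0 n d) - 1 ≤ M := by
    have e1 := Submodule.finrank_quotient_add_finrank (K0 n d)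
    have e2 := Submodule.finrank_quotient_add_finrank K1
    have e3 := Submodule.finrank_add_le_finrank_add_finrank (K0 n d) (Submodule.span ℂ {T0 n d})
    have e4 : Module.finrank ℂ (Submodule.span ℂ {T0 n d}) ≤ 1 := by
      refine (finrank_span_le_card _).trans ?_
      simp
    have e5 : Module.finrank ℂ K1 ≤ Module.finrank ℂ (K0 n d) + 1 := by
      show Module.finrank ℂ (K0 n d ⊔ Submodule.span ℂ {T0 n d} : Submodule ℂ (Tensor n d)) ≤ _
      omega
    omega
  let B : Module.Basis (Fin M) ℂ (Tensor n d ⧸ K1) := Module.finBasis ℂ (Tensor n d ⧸ K1)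
  have hlift : ∀ b : Fin M, ∃ t : Tensor n d, K1.mkQ t = B b := fun b =>
    Submodule.mkQ_surjective _ _
  choose f hf using hlift
  refine ⟨fun i => c0 i.2, ?_⟩
  refine le_trans (Nat.cast_le.mpr hNM) ?_
  let y0 : Ix n d × Fin (n + 1) → ℂ := fun p => e0 p.1.2 p.2
  -- columns are independent at `y0`
  have hind : ∀ u : Fin M → ℂ, ((Amat f).map (eval y0)).mulVec u = 0 → u = 0 := by
    intro u hu
    have hE : ∀ k j, IsEig (∑ t, u t • f t) k (e0 j) := by
      intro k j a b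
      have := congrFun hu ((k, j), (a, b))
      rw [Amat_map_mulVec] at this
      exact this
    obtain ⟨c, hc⟩ := rigid hn hd (∑ t, u t • f t) (by
      intro k x hx
      by_cases hx0 : x = 0
      · subst hx0
        intro a b
        unfold minorR
        simp
      · obtain ⟨j, s, hjs⟩ := h3 x hx0 hx
        rw [hjs]
        exact isEig_smul _ _ _ _ (hE k j))
    have hmem : (∑ t, u t • f t) ∈ K1 := by
      have : (∑ t, u t • f t) = ((∑ t, u t • f t) - c • T0 n d) + c • T0 n d := by abel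
      rw [this]
      exact Submodule.add_mem_sup hc (Submodule.smul_mem _ _ (Submodule.mem_span_singleton_self _))
    rw [← Submodule.Quotient.mk_eq_zero, ← Submodule.mkQ_apply, map_sum] at hmem
    have h6 : ∑ t, u t • B t = 0 := by
      rw [← hmem]
      refine Finset.sum_congr rfl fun t _ => ?_
      rw [map_smul, hf t]
    have h7 := Fintype.linearIndependent_iff.mp B.linearIndependent u h6
    funext t
    exact h7 t
  obtain ⟨Q, hQ⟩ := exists_left_inv_matrix _ hind
  set P0 : MvPolynomial (Ix n d × Fin (n + 1)) ℂ := (mm (Q.map C) (Amat f)).det with hP0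
  have hP0y : eval y0 P0 ≠ 0 := by
    rw [hP0, map_det_mm, map_C_eval, hQ, Matrix.det_one]
    exact one_ne_zero
  -- continuity
  have hcont : ∃ ε > 0, ∀ y : Ix n d × Fin (n + 1) → ℂ, dist y y0 < ε → eval y P0 ≠ 0 := by
    have h5 : ∀ᶠ y in 𝓝 y0, eval y P0 ≠ 0 :=
      (MvPolynomial.continuous_eval P0).continuousAt.eventually_ne hP0y
    obtain ⟨ε, hε, hb⟩ := Metric.mem_nhds_iff.mp h5
    exact ⟨ε, hε, fun y hy => hb hy⟩
  obtain ⟨ε, hε, hcont⟩ := hcont
  -- the neighbourhood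
  let Tu : (Fin M → ℂ) → Tensor n d := fun u => T0 n d + ∑ t, u t • f t
  have hTu : Tendsto Tu (𝓝 0) (𝓝 (T0 n d)) := by
    have h5 : Continuous Tu := by
      show Continuous (fun u : Fin M → ℂ => T0 n d + ∑ t, u t • f t)
      fun_prop
    have h6 := h5.tendsto 0
    have h7 : Tu 0 = T0 n d := by
      show T0 n d + ∑ t, (0 : Fin M → ℂ) t • f t = T0 n d
      simp
    rwa [h7] at h6
  have hU : ∀ᶠ u in 𝓝 (0 : Fin M → ℂ), ∀ k : Fin d, ∃ y : Fin (D n d) → V n,
      (∀ j, y j (c0 j) = 1) ∧ (∀ j, IsEig (Tu u) k (y j)) ∧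
      (∀ v : V n, v ≠ 0 → IsEig (Tu u) k v → ∃ j, ∃ s : ℂ, v = s • y j) ∧
      (∀ j j', (∃ s : ℂ, y j = s • y j') → j = j') ∧ (∀ j, dist (y j) (e0 j) < ε) := by
    rw [eventually_all]
    intro k
    exact hTu.eventually (deform hd c0 e0 h1 h2 h3 h4 k ε hε)
  have hmain := dim_ge (τ := Fin M) (σ := Ix n d × Fin (n + 1))
    (S := {y : Ix n d × Fin (n + 1) → ℂ | (show Aff (Ix n d × Fin (n + 1)) from y) ∈
      Sc (eigenConfs n d) (fun i => c0 i.2)}) P0
    (fun t => ((mm (Q.map C) (Amat f)).adjugate.mulVec ((Q.map C).mulVec (bvec n d))) t)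
    {u | ∀ k : Fin d, ∃ y : Fin (D n d) → V n,
      (∀ j, y j (c0 j) = 1) ∧ (∀ j, IsEig (Tu u) k (y j)) ∧
      (∀ v : V n, v ≠ 0 → IsEig (Tu u) k v → ∃ j, ∃ s : ℂ, v = s • y j) ∧
      (∀ j j', (∃ s : ℂ, y j = s • y j') → j = j') ∧ (∀ j, dist (y j) (e0 j) < ε)}
    (fun G hG => zariski_dense _ hU G hG) (by
      intro u hu
      choose y hy1 hy2 hy3 hy4 hy5 using hu
      refine ⟨fun p => y p.1.1 p.1.2 p.2, ?_, ?_, ?_⟩
      · refine (mem_Sc_eigenConfs _ _).mpr ⟨fun i => hy1 i.1 i.2, Tu u, hy2, hy3, hy4⟩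
      · rw [MvPolynomial.aeval_eq_eval]
        apply hcont
        rw [dist_pi_lt_iff hε]
        intro p
        exact lt_of_le_of_lt (dist_le_pi_dist (y p.1.1 p.1.2) (e0 p.1.2) p.2) (hy5 p.1.1 p.1.2)
      · intro t
        rw [MvPolynomial.aeval_eq_eval]
        exact solve_eq f Q _ u hy2 t)
  rw [Fintype.card_fin] at hmain
  exact hmain

end Pool.Agent.Helper834.EC
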